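import Pool.Agent.ShghE.CurveDefs

/-!
# Transfer from generic points to special points
-/

namespace ShghE

open MvPolynomial

section aux

/-- The translation `X 0 ↦ X 0 + a`, `X 1 ↦ X 1 + b`. -/
noncomputable def tfShift {R : Type*} [CommRing R] (a b : R) :
    MvPolynomial (Fin 2) R →ₐ[R] MvPolynomial (Fin 2) R := aeval ![X 0 + C a, X 1 + C b]

theorem tfShift_X0 {R : Type*} [CommRing R] (a b : R) : tfShift a b (X 0) = X 0 + C a := by
  simp [tfShift]

theorem tfShift_X1 {R : Type*} [CommRing R] (a b : R) : tfShift a b (X 1) = X 1 + C b := by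
  simp [tfShift]

theorem tfShift_C {R : Type*} [CommRing R] (a b c : R) : tfShift a b (C c) = C c := by
  simp [tfShift]

theorem tfShift_neg {R : Type*} [CommRing R] (a b : R) (f : MvPolynomial (Fin 2) R) :
    tfShift (-a) (-b) (tfShift a b f) = f := by
  have h : (tfShift (-a) (-b)).comp (tfShift a b) = AlgHom.id R _ := by
    apply MvPolynomial.algHom_ext
    intro i
    fin_cases i
    · change tfShift (-a) (-b) (tfShift a b (X 0)) = X 0
      rw [tfShift_X0, map_add, tfShift_X0, tfShift_C, C_neg]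
      ring
    · change tfShift (-a) (-b) (tfShift a b (X 1)) = X 1
      rw [tfShift_X1, map_add, tfShift_X1, tfShift_C, C_neg]
      ring
  exact DFunLike.congr_fun h f

theorem tf_mem_iff {R : Type*} [CommRing R] (a b : R) (m : ℕ) (f : MvPolynomial (Fin 2) R) :
    f ∈ (Ideal.span {X 0 - C a, X 1 - C b} : Ideal (MvPolynomial (Fin 2) R)) ^ m ↔
      ∀ x : Fin 2 →₀ ℕ, x.degree < m → (tfShift a b f).coeff x = 0 := by
  rw [← mem_pow_idealOfVars_iff']
  constructor
  · intro h
    have h1 := Ideal.mem_map_of_mem (tfShift a b) h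
    rw [Ideal.map_pow] at h1
    refine Ideal.pow_right_mono ?_ m h1
    rw [Ideal.map_span, Ideal.span_le]
    rintro _ ⟨g, hg, rfl⟩
    rcases hg with rfl | rfl
    · rw [map_sub, tfShift_X0, tfShift_C, add_sub_cancel_right]
      exact Ideal.subset_span ⟨0, rfl⟩
    · rw [map_sub, tfShift_X1, tfShift_C, add_sub_cancel_right]
      exact Ideal.subset_span ⟨1, rfl⟩
  · intro h
    have h1 := Ideal.mem_map_of_mem (tfShift (-a) (-b)) h
    rw [Ideal.map_pow, tfShift_neg] at h1
    refine Ideal.pow_right_mono ?_ m h1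
    rw [Ideal.map_span, Ideal.span_le]
    rintro _ ⟨g, ⟨i, rfl⟩, rfl⟩
    fin_cases i
    · change tfShift (-a) (-b) (X 0) ∈ _
      rw [tfShift_X0, C_neg, ← sub_eq_add_neg]
      exact Ideal.subset_span (Or.inl rfl)
    · change tfShift (-a) (-b) (X 1) ∈ _
      rw [tfShift_X1, C_neg, ← sub_eq_add_neg]
      exact Ideal.subset_span (Or.inr rfl)

/-- The coefficients of the translated monomials. -/
noncomputable def tfM {R : Type*} [CommRing R] (a b : R) (e x : Fin 2 →₀ ℕ) : R :=
  (tfShift a b (monomial e 1)).coeff x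

theorem tfM_map {R R' : Type*} [CommRing R] [CommRing R'] (φ : R →+* R') (a b : R)
    (e x : Fin 2 →₀ ℕ) : tfM (φ a) (φ b) e x = φ (tfM a b e x) := by
  have h : (tfShift (φ a) (φ b)).toRingHom.comp (MvPolynomial.map φ) =
      (MvPolynomial.map φ).comp (tfShift a b).toRingHom := by
    apply MvPolynomial.ringHom_ext
    · intro r
      simp [tfShift]
    · intro i
      fin_cases i <;> simp [tfShift]
  have h1 := RingHom.congr_fun h (monomial e 1)
  have h2 : tfShift (φ a) (φ b) (monomial e 1) =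
      MvPolynomial.map φ (tfShift a b (monomial e 1)) := by
    have h3 : MvPolynomial.map φ (monomial e (1 : R)) = monomial e 1 := by
      rw [map_monomial, map_one]
    have h4 : tfShift (φ a) (φ b) (MvPolynomial.map φ (monomial e (1 : R))) =
      MvPolynomial.map φ (tfShift a b (monomial e 1)) := h1
    rwa [h3] at h4
  unfold tfM
  rw [h2, coeff_map]

theorem tf_coeff {R ι : Type*} [CommRing R] [Fintype ι] (a b : R) (ex : ι → Fin 2 →₀ ℕ)
    (c : ι → R) (x : Fin 2 →₀ ℕ) :
    (tfShift a b (∑ e, monomial (ex e) (c e))).coeff x = ∑ e, tfM a b (ex e) x * c e := by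
  rw [map_sum, coeff_sum]
  refine Finset.sum_congr rfl fun e _ => ?_
  have h : (monomial (ex e) (c e) : MvPolynomial (Fin 2) R) = c e • monomial (ex e) 1 := by
    rw [smul_monomial, smul_eq_mul, mul_one]
  rw [h, map_smul, coeff_smul, smul_eq_mul, mul_comm]
  rfl

/-- Specialization does not increase the rank: a kernel vector after an injective base change
gives one after every base change. -/
theorem tf_kernel {A k k' ι ρ : Type*} [CommRing A] [Field k] [Field k'] [Fintype ι] [Finite ρ]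
    (M : Matrix ρ ι A) (θ : A →+* k) (hθ : Function.Injective θ) (θ' : A →+* k')
    (h : ∃ c : ι → k, c ≠ 0 ∧ ∀ r, ∑ e, θ (M r e) * c e = 0) :
    ∃ c : ι → k', c ≠ 0 ∧ ∀ r, ∑ e, θ' (M r e) * c e = 0 := by
  classical
  have := Fintype.ofFinite ρ
  by_contra hcon
  push Not at hcon
  set N : Matrix ρ ι k' := M.map θ' with hN
  have hinj : Function.Injective N.mulVecLin := by
    rw [injective_iff_map_eq_zero]
    intro c hc
    by_contra hc0
    obtain ⟨r, hr⟩ := hcon c hc0
    apply hr
    have := congrFun hc r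
    simpa [Matrix.mulVecLin_apply, Matrix.mulVec, dotProduct, hN] using this
  have hrank : N.rank = Fintype.card ι := by
    unfold Matrix.rank
    rw [LinearMap.finrank_range_of_inj hinj, Module.finrank_fintype_fun_eq_card]
  obtain ⟨κ, a, ha, hsp, hli⟩ := exists_linearIndependent' k' (fun r => N r)
  have hfin : Module.finrank k' (Submodule.span k' (Set.range (fun r => N r))) =
      Fintype.card ι := by
    rw [← hrank, Matrix.rank_eq_finrank_span_row]
    rfl
  have hκ : Finite κ := Finite.of_injective a ha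
  have := Fintype.ofFinite κ
  have hcard : Fintype.card κ = Fintype.card ι := by
    rw [← hfin, ← hsp, finrank_span_eq_card hli]
  let eq : ι ≃ κ := Fintype.equivOfCardEq hcard.symm
  -- the square submatrix
  let B : Matrix ι ι A := M.submatrix (a ∘ eq) id
  have hB' : (B.map θ').det ≠ 0 := by
    have hli2 : LinearIndependent k' (fun i => (B.map θ') i) := by
      have h1 := hli.comp eq eq.injective
      exact h1
    have h2 : IsUnit (B.map θ') := Matrix.linearIndependent_rows_iff_isUnit.1 hli2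
    exact ((Matrix.isUnit_iff_isUnit_det _).1 h2).ne_zero
  have hB : B.det = 0 := by
    apply hθ
    rw [map_zero, RingHom.map_det]
    obtain ⟨c, hc0, hc⟩ := h
    rw [← Matrix.exists_mulVec_eq_zero_iff]
    refine ⟨c, hc0, ?_⟩
    ext i
    have := hc (a (eq i))
    simpa [Matrix.mulVec, dotProduct, B] using this
  apply hB'
  have h3 : (B.map θ').det = θ' B.det := by
    rw [RingHom.map_det]
    rfl
  rw [h3, hB, map_zero]

/-- The exponents of degree `≤ δ`. -/
noncomputable def tfS (δ : ℕ) : Finset (Fin 2 →₀ ℕ) :=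
  (Finsupp.finite_of_degree_le (σ := Fin 2) δ).toFinset

theorem mem_tfS {δ : ℕ} {e : Fin 2 →₀ ℕ} : e ∈ tfS δ ↔ e.degree ≤ δ := by
  simp [tfS]

theorem tf_totalDegree_le {R : Type*} [CommRing R] {f : MvPolynomial (Fin 2) R} {δ : ℕ} :
    f.totalDegree ≤ δ ↔ ∀ e ∈ f.support, e.degree ≤ δ := by
  rw [totalDegree, Finset.sup_le_iff]
  rfl

theorem tf_expand {R : Type*} [CommRing R] {f : MvPolynomial (Fin 2) R} {δ : ℕ}
    (h : f.totalDegree ≤ δ) : f = ∑ e : tfS δ, monomial (e : Fin 2 →₀ ℕ) (f.coeff e) := by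
  rw [Finset.sum_coe_sort (tfS δ) (fun e => monomial e (f.coeff e))]
  conv_lhs => rw [f.as_sum]
  refine Finset.sum_subset (fun e he => mem_tfS.2 (tf_totalDegree_le.1 h e he)) fun e _ he => ?_
  rw [notMem_support_iff.1 he, monomial_zero]

theorem tf_sum_coeff {R : Type*} [CommRing R] {δ : ℕ} (c : tfS δ → R) (e : tfS δ) :
    (∑ e : tfS δ, monomial (e : Fin 2 →₀ ℕ) (c e)).coeff e = c e := by
  classical
  rw [coeff_sum, Finset.sum_eq_single e]
  · rw [coeff_monomial, if_pos rfl]
  · intro e' _ he'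
    rw [coeff_monomial, if_neg fun h => he' (Subtype.ext h)]
  · intro h
    exact absurd (Finset.mem_univ _) h

theorem tf_sum_degree {R : Type*} [CommRing R] {δ : ℕ} (c : tfS δ → R) :
    (∑ e : tfS δ, monomial (e : Fin 2 →₀ ℕ) (c e)).totalDegree ≤ δ := by
  classical
  rw [tf_totalDegree_le]
  intro e he
  by_contra hcon
  rw [mem_support_iff, coeff_sum] at he
  apply he
  refine Finset.sum_eq_zero fun e' _ => ?_
  rw [coeff_monomial, if_neg]
  rintro rfl
  exact hcon (mem_tfS.1 e'.2)

/-- The rows of the linear system. -/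
abbrev tfRow {s : ℕ} (μ : Fin s → ℕ) : Type :=
  Σ i : Fin s, ((Finsupp.finite_of_degree_lt (σ := Fin 2) (μ i)).toFinset)

/-- The linear system over the polynomial ring in the coordinates of the points. -/
noncomputable def tfMat (F : Type*) [Field F] {s : ℕ} (δ : ℕ) (μ : Fin s → ℕ) :
    Matrix (tfRow μ) (tfS δ) (MvPolynomial (Fin s × Fin 2) F) :=
  fun r e => tfM (X (r.1, 0)) (X (r.1, 1)) e r.2

theorem tf_system {F k k' : Type*} [Field F] [Field k] [Field k'] [Algebra F k] [Algebra F k']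
    {s : ℕ} (P : Fin s → Fin 2 → k)
    (hP : AlgebraicIndependent F (fun ij : Fin s × Fin 2 => P ij.1 ij.2))
    (P' : Fin s → Fin 2 → k') (δ : ℕ) (μ : Fin s → ℕ)
    (h : ∃ f : MvPolynomial (Fin 2) k, f ≠ 0 ∧ f.totalDegree ≤ δ ∧
      ∀ i, f ∈ ptIdeal (P i 0) (P i 1) ^ μ i) :
    ∃ c : tfS δ → k', c ≠ 0 ∧ ∀ i, ∀ x : Fin 2 →₀ ℕ, x.degree < μ i →
      ∑ e : tfS δ, tfM (P' i 0) (P' i 1) e x * c e = 0 := by
  obtain ⟨f, hf0, hfd, hfm⟩ := h
  have key := tf_kernel (tfMat F δ μ) (aeval (fun ij : Fin s × Fin 2 => P ij.1 ij.2)).toRingHom hP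
    (aeval (fun ij : Fin s × Fin 2 => P' ij.1 ij.2) : _ →ₐ[F] k').toRingHom ?_
  · obtain ⟨c, hc0, hc⟩ := key
    refine ⟨c, hc0, fun i x hx => ?_⟩
    have h1 := hc ⟨i, ⟨x, by simpa using hx⟩⟩
    simp only [tfMat, ← tfM_map] at h1
    simpa using h1
  · refine ⟨fun e => f.coeff e, fun hc => hf0 ?_, fun r => ?_⟩
    · rw [tf_expand hfd]
      refine Finset.sum_eq_zero fun e _ => ?_
      have := congrFun hc e
      simp only [Pi.zero_apply] at this
      rw [this, monomial_zero]
    · obtain ⟨i, x, hx⟩ := r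
      have h1 := (tf_mem_iff _ _ _ _).1 (hfm i) x (by simpa using hx)
      rw [tf_expand hfd, tf_coeff] at h1
      simp only [tfMat, ← tfM_map]
      simpa using h1

end aux

/-- If there is a nonzero polynomial of degree `≤ δ` with multiplicities `≥ μ i` at points whose
coordinates are algebraically independent over `F`, then there is one for any points with
coordinates in any field extension of `F`. -/
theorem transfer {F k k' : Type*} [Field F] [Field k] [Field k'] [Algebra F k] [Algebra F k']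
    {s : ℕ} (P : Fin s → Fin 2 → k)
    (hP : AlgebraicIndependent F (fun ij : Fin s × Fin 2 => P ij.1 ij.2))
    (P' : Fin s → Fin 2 → k') (δ : ℕ) (μ : Fin s → ℕ)
    (h : ∃ f : MvPolynomial (Fin 2) k, f ≠ 0 ∧ f.totalDegree ≤ δ ∧
      ∀ i, f ∈ ptIdeal (P i 0) (P i 1) ^ μ i) :
    ∃ f : MvPolynomial (Fin 2) k', f ≠ 0 ∧ f.totalDegree ≤ δ ∧
      ∀ i, f ∈ ptIdeal (P' i 0) (P' i 1) ^ μ i := by
  obtain ⟨c, hc0, hc⟩ := tf_system P hP P' δ μ h
  refine ⟨∑ e : tfS δ, monomial (e : Fin 2 →₀ ℕ) (c e), fun h0 => hc0 ?_, tf_sum_degree c,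
    fun i => ?_⟩
  · ext e
    rw [← tf_sum_coeff c e, h0, coeff_zero]
    rfl
  · refine (tf_mem_iff _ _ _ _).2 fun x hx => ?_
    rw [tf_coeff]
    exact hc i x hx

/-- The special position used later: nine points over `k` and the point `(- v0 ξ, 0)`. -/
theorem transfer_special {F k : Type*} [Field F] [Field k] [Algebra F k] (P : Fin 10 → Fin 2 → k)
    (hP : AlgebraicIndependent F (fun ij : Fin 10 × Fin 2 => P ij.1 ij.2))
    (Q : Fin 9 → Fin 2 → k) (v0 : k) (δ : ℕ) (μ : Fin 10 → ℕ)
    (h : ∃ f : MvPolynomial (Fin 2) k, f ≠ 0 ∧ f.totalDegree ≤ δ ∧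
      ∀ i, f ∈ ptIdeal (P i 0) (P i 1) ^ μ i) :
    ∃ f : Polynomial (MvPolynomial (Fin 2) k), f ≠ 0 ∧
      (∀ l, (f.coeff l).totalDegree ≤ δ) ∧
      (∀ l, ∀ i : Fin 9, f.coeff l ∈ ptIdeal (Q i 0) (Q i 1) ^ μ i.castSucc) ∧
      f ∈ (Ideal.span {Polynomial.C (MvPolynomial.X 0) + Polynomial.C (MvPolynomial.C v0) *
        Polynomial.X, Polynomial.C (MvPolynomial.X 1)} :
        Ideal (Polynomial (MvPolynomial (Fin 2) k))) ^ μ (Fin.last 9) := by
  classical
  -- the special points over `k[ξ]`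
  let P' : Fin 10 → Fin 2 → Polynomial k :=
    Fin.snoc (α := fun _ => Fin 2 → Polynomial k) (fun i j => Polynomial.C (Q i j))
      ![-(Polynomial.C v0 * Polynomial.X), 0]
  have hP'1 : ∀ (i : Fin 9) j, P' i.castSucc j = Polynomial.C (Q i j) := fun i j => by
    simp [P']
  have hP'0 : P' (Fin.last 9) = ![-(Polynomial.C v0 * Polynomial.X), 0] := Fin.snoc_last _ _
  have hP'2 : P' (Fin.last 9) 0 = -(Polynomial.C v0 * Polynomial.X) := by rw [hP'0]; rfl
  have hP'3 : P' (Fin.last 9) 1 = 0 := by rw [hP'0]; rfl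
  let K := FractionRing (Polynomial k)
  obtain ⟨c', hc'0, hc'⟩ := tf_system (k' := K) P hP
    (fun i j => algebraMap (Polynomial k) K (P' i j)) δ μ h
  -- clear denominators
  obtain ⟨d, hd⟩ := IsLocalization.exist_integer_multiples_of_finite
    (nonZeroDivisors (Polynomial k)) c'
  choose c hcd using hd
  have hinj : Function.Injective (algebraMap (Polynomial k) K) := IsFractionRing.injective _ _
  have hd0 : algebraMap (Polynomial k) K d ≠ 0 := by
    rw [Ne, map_eq_zero_iff _ hinj]
    exact nonZeroDivisors.coe_ne_zero d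
  have hcd' : ∀ e, algebraMap (Polynomial k) K (c e) = algebraMap (Polynomial k) K d * c' e := by
    intro e
    rw [hcd e, Algebra.smul_def]
  have hc0 : c ≠ 0 := by
    intro h0
    apply hc'0
    ext e
    have h1 := hcd' e
    rw [h0, Pi.zero_apply, map_zero] at h1
    exact (mul_eq_zero.1 h1.symm).resolve_left hd0
  have hc : ∀ i, ∀ x : Fin 2 →₀ ℕ, x.degree < μ i →
      ∑ e : tfS δ, tfM (P' i 0) (P' i 1) e x * c e = 0 := by
    intro i x hx
    apply hinj
    rw [map_zero, map_sum]
    have h1 := hc' i x hx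
    have h2 : ∀ e : tfS δ, algebraMap (Polynomial k) K (tfM (P' i 0) (P' i 1) e x * c e) =
        algebraMap (Polynomial k) K d *
          (tfM (algebraMap (Polynomial k) K (P' i 0)) (algebraMap (Polynomial k) K (P' i 1)) e x *
            c' e) := by
      intro e
      rw [map_mul, ← tfM_map, hcd' e]
      ring
    simp only [h2]
    rw [← Finset.mul_sum, h1, mul_zero]
  -- the polynomial
  let Φ : MvPolynomial (Fin 2) (Polynomial k) →+* Polynomial (MvPolynomial (Fin 2) k) :=
    eval₂Hom (Polynomial.mapRingHom C) (fun i => Polynomial.C (X i))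
  let G : MvPolynomial (Fin 2) (Polynomial k) := ∑ e : tfS δ, monomial (e : Fin 2 →₀ ℕ) (c e)
  have hΦmon : ∀ (e : Fin 2 →₀ ℕ) (p : Polynomial k) l,
      (Φ (monomial e p)).coeff l = monomial e (p.coeff l) := by
    intro e p l
    have h1 : Φ (monomial e p) = Polynomial.map C p * Polynomial.C (monomial e 1) := by
      simp only [Φ]
      rw [coe_eval₂Hom, eval₂_monomial]
      congr 1
      rw [monomial_eq, C_1, one_mul, Finsupp.prod, Finsupp.prod, map_prod]
      simp
    rw [h1, Polynomial.coeff_mul_C, Polynomial.coeff_map, C_mul_monomial, mul_one]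
  have hcoeff : ∀ l, (Φ G).coeff l = ∑ e : tfS δ, monomial (e : Fin 2 →₀ ℕ) ((c e).coeff l) := by
    intro l
    simp only [G]
    rw [map_sum, Polynomial.finsetSum_coeff]
    exact Finset.sum_congr rfl fun e _ => hΦmon _ _ _
  refine ⟨Φ G, fun h0 => hc0 ?_, fun l => ?_, fun l i => ?_, ?_⟩
  · ext e l
    have h1 := hcoeff l
    rw [h0, Polynomial.coeff_zero] at h1
    have h2 := tf_sum_coeff (fun e => (c e).coeff l) e
    rw [← h1, coeff_zero] at h2
    rw [← h2]
    rfl
  · rw [hcoeff]
    exact tf_sum_degree _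
  · refine (tf_mem_iff _ _ _ _).2 fun x hx => ?_
    rw [hcoeff, tf_coeff]
    have h1 := congrArg (fun p => Polynomial.coeff p l) (hc i.castSucc x hx)
    simp only [hP'1, tfM_map, Polynomial.finsetSum_coeff, Polynomial.coeff_C_mul,
      Polynomial.coeff_zero] at h1
    exact h1
  · have h1 : G ∈ (Ideal.span {X 0 - C (P' (Fin.last 9) 0), X 1 - C (P' (Fin.last 9) 1)} :
        Ideal (MvPolynomial (Fin 2) (Polynomial k))) ^ μ (Fin.last 9) := by
      refine (tf_mem_iff _ _ _ _).2 fun x hx => ?_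
      rw [tf_coeff]
      exact hc (Fin.last 9) x hx
    have h2 := Ideal.mem_map_of_mem Φ h1
    rw [Ideal.map_pow] at h2
    refine Ideal.pow_right_mono ?_ _ h2
    rw [Ideal.map_span, Ideal.span_le]
    rintro _ ⟨g, hg, rfl⟩
    rcases hg with rfl | rfl
    · have h3 : Φ (X 0 - C (P' (Fin.last 9) 0)) = Polynomial.C (MvPolynomial.X 0) +
          Polynomial.C (MvPolynomial.C v0) * Polynomial.X := by
        rw [hP'2]
        simp [Φ]
      rw [h3]
      exact Ideal.subset_span (Or.inl rfl)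
    · have h3 : Φ (X 1 - C (P' (Fin.last 9) 1)) = Polynomial.C (MvPolynomial.X 1) := by
        rw [hP'3]
        simp [Φ]
      rw [h3]
      exact Ideal.subset_span (Or.inr rfl)

end ShghE
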