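import Pool.Agent.ShghE.Sylv

/-!
# Contents, classes and the resultant inequality on an elliptic function field
-/

set_option linter.unusedSectionVars false

namespace ShghE

open Polynomial

namespace EField

variable {k K A : Type*} [Field k] [Field K] [Algebra k K] [AddCommGroup A]

private lemma fin_add {f g : A → ℤ} (hf : (Function.support f).Finite)
    (hg : (Function.support g).Finite) : (Function.support fun P => f P + g P).Finite :=
  (hf.union hg).subset (Function.support_add _ _)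

private lemma fin_mul (c : ℤ) {f : A → ℤ} (hf : (Function.support f).Finite) :
    (Function.support fun P => c * f P).Finite := by
  apply hf.subset
  intro P hP
  rw [Function.mem_support] at hP ⊢
  exact right_ne_zero_of_mul hP

private lemma fin_neg {f : A → ℤ} (hf : (Function.support f).Finite) :
    (Function.support fun P => - f P).Finite := by
  apply hf.subset
  intro P hP
  rw [Function.mem_support] at hP ⊢
  exact neg_ne_zero.mp hP

private lemma fin_smul {f : A → ℤ} (hf : (Function.support f).Finite) :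
    (Function.support fun P => f P • P).Finite := by
  apply hf.subset
  intro P hP
  rw [Function.mem_support] at hP ⊢
  intro h
  rw [h, zero_smul] at hP
  exact hP rfl

private lemma sig_add {f g : A → ℤ} (hf : (Function.support f).Finite)
    (hg : (Function.support g).Finite) : ∑ᶠ P, (f P + g P) = ∑ᶠ P, f P + ∑ᶠ P, g P :=
  finsum_add_distrib hf hg

private lemma sig_mul (c : ℤ) (f : A → ℤ) : ∑ᶠ P, c * f P = c * ∑ᶠ P, f P :=
  (mul_finsum f c).symm

private lemma sig_neg (f : A → ℤ) : ∑ᶠ P, - f P = - ∑ᶠ P, f P :=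
  finsum_neg_distrib f

private lemma kap_add {f g : A → ℤ} (hf : (Function.support f).Finite)
    (hg : (Function.support g).Finite) :
    ∑ᶠ P, (f P + g P) • P = ∑ᶠ P, f P • P + ∑ᶠ P, g P • P := by
  simp only [add_smul]
  exact finsum_add_distrib (fin_smul hf) (fin_smul hg)

private lemma kap_mul (c : ℤ) {f : A → ℤ} (hf : (Function.support f).Finite) :
    ∑ᶠ P, (c * f P) • P = c • ∑ᶠ P, f P • P := by
  simp only [mul_smul]
  exact (smul_finsum' c (fin_smul hf)).symm

private lemma kap_neg (f : A → ℤ) : ∑ᶠ P, (- f P) • P = - ∑ᶠ P, f P • P := by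
  simp only [neg_smul]
  exact finsum_neg_distrib _

private lemma eq_zero_of_sig {f : A → ℤ} (hf : (Function.support f).Finite) (h0 : ∀ P, 0 ≤ f P)
    (h : ∑ᶠ P, f P = 0) (P : A) : f P = 0 := by
  by_contra hP
  have h1 : P ∈ hf.toFinset := by
    rw [Set.Finite.mem_toFinset]
    exact hP
  rw [finsum_eq_sum f hf] at h
  have h2 := (Finset.sum_eq_zero_iff_of_nonneg (fun Q _ => h0 Q)).mp h P h1
  exact hP h2

variable (E : EField k K A) (n : Twist E)

theorem w_fin {F : K[X]} (hF : F ≠ 0) : (Function.support fun P => E.w n P F).Finite := by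
  have h1 : (n.n.support ∪ ⋃ j ∈ F.support, {P | E.v P (F.coeff j) ≠ 0}).Finite := by
    apply n.fin.union
    apply Set.Finite.biUnion F.support.finite_toSet
    intro j hj
    exact E.fin _ (mem_support_iff.mp hj)
  apply h1.subset
  intro P hP
  by_contra h2
  rw [Set.mem_union, not_or] at h2
  obtain ⟨h3, h4⟩ := h2
  rw [Function.mem_support, not_not] at h3
  obtain ⟨j, hj, h5⟩ := exists_gv (v := E.v P) (n := n.n P) hF
  have h6 : E.v P (F.coeff j) = 0 := by
    by_contra h7
    apply h4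
    simp only [Set.mem_iUnion]
    exact ⟨j, mem_support_iff.mpr hj, h7⟩
  rw [h6, h3] at h5
  rw [Function.mem_support] at hP
  apply hP
  unfold EField.w
  rw [h3]
  omega

theorem w_mul (P : A) {F G : K[X]} (hF : F ≠ 0) (hG : G ≠ 0) :
    E.w n P (F * G) = E.w n P F + E.w n P G := gv_mul (E.ord P) _ hF hG

theorem b_mul {F G : K[X]} (hF : F ≠ 0) (hG : G ≠ 0) : E.b n (F * G) = E.b n F + E.b n G := by
  unfold EField.b
  simp only [E.w_mul n _ hF hG]
  rw [sig_add (E.w_fin n hF) (E.w_fin n hG)]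
  ring

theorem cls_mul {F G : K[X]} (hF : F ≠ 0) (hG : G ≠ 0) :
    E.cls n (F * G) = E.cls n F + E.cls n G := by
  unfold EField.cls
  simp only [E.w_mul n _ hF hG]
  rw [kap_add (E.w_fin n hF) (E.w_fin n hG)]
  abel

theorem b_C {c : K} (hc : c ≠ 0) : E.b n (C c) = 0 := by
  unfold EField.b EField.w
  simp only [gv_C _ hc]
  rw [E.deg c hc, neg_zero]

theorem cls_C {c : K} (hc : c ≠ 0) : E.cls n (C c) = 0 := by
  unfold EField.cls EField.w
  simp only [gv_C _ hc]
  rw [E.sum c hc, neg_zero]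

theorem b_X : E.b n (X : K[X]) = 0 := by
  unfold EField.b EField.w
  simp only [gv_X (E.ord _)]
  rw [sig_neg, n.deg, neg_zero, neg_zero]

theorem cls_X : E.cls n (X : K[X]) = n.s := by
  unfold EField.cls EField.w Twist.s
  simp only [gv_X (E.ord _)]
  rw [kap_neg, neg_neg]

theorem m_mul (v0 : k) {F G : K[X]} (hF : F ≠ 0) (hG : G ≠ 0) :
    E.m v0 (F * G) = E.m v0 F + E.m v0 G := mu_mul (E.ord _) _ hF hG

/-- the excess of a coefficient -/
private noncomputable def te (j : ℕ) (P : A) (F : K[X]) : ℤ :=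
  E.v P (F.coeff j) + ((-(j : ℤ)) * n.n P + - E.w n P F)

private lemma te_nonneg {j : ℕ} (P : A) {F : K[X]} (hj : F.coeff j ≠ 0) : 0 ≤ te E n j P F := by
  unfold te
  have h := gv_le (v := E.v P) (n := n.n P) hj
  unfold EField.w
  linarith

private lemma te_fin {j : ℕ} {F : K[X]} (hj : F.coeff j ≠ 0) :
    (Function.support fun P => te E n j P F).Finite := by
  have hF : F ≠ 0 := by
    rintro rfl
    exact hj (coeff_zero j)
  exact fin_add (E.fin _ hj) (fin_add (fin_mul _ n.fin) (fin_neg (E.w_fin n hF)))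

private lemma sum_te {j : ℕ} {F : K[X]} (hj : F.coeff j ≠ 0) :
    ∑ᶠ P, te E n j P F = E.b n F := by
  have hF : F ≠ 0 := by
    rintro rfl
    exact hj (coeff_zero j)
  unfold te
  rw [sig_add (E.fin _ hj) (fin_add (fin_mul _ n.fin) (fin_neg (E.w_fin n hF))),
    sig_add (fin_mul _ n.fin) (fin_neg (E.w_fin n hF)), sig_mul, sig_neg, E.deg _ hj, n.deg]
  unfold EField.b
  ring

private lemma sum_te_smul {j : ℕ} {F : K[X]} (hj : F.coeff j ≠ 0) :
    ∑ᶠ P, te E n j P F • P = E.cls n F - (j : ℤ) • n.s := by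
  have hF : F ≠ 0 := by
    rintro rfl
    exact hj (coeff_zero j)
  unfold te
  rw [kap_add (E.fin _ hj) (fin_add (fin_mul _ n.fin) (fin_neg (E.w_fin n hF))),
    kap_add (fin_mul _ n.fin) (fin_neg (E.w_fin n hF)), kap_mul _ n.fin, kap_neg, E.sum _ hj]
  unfold EField.cls Twist.s
  rw [zero_add, neg_smul]
  abel

/-- `b ≥ 0`: pick a nonzero coefficient `s_j`; `Σ_P (v_P s_j - j n_P) = 0`. -/
theorem b_nonneg {F : K[X]} (hF : F ≠ 0) : 0 ≤ E.b n F := by
  have hj : F.coeff F.natDegree ≠ 0 := leadingCoeff_ne_zero.mpr hF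
  rw [← sum_te E n hj]
  exact finsum_nonneg fun P => te_nonneg E n P hj

/-- A polynomial with `b = 0` is a monomial, as long as multiples `j • s`, `1 ≤ j ≤ natDegree`, of
the class of the twist do not vanish: two nonzero coefficients `s_i, s_j` would satisfy
`v_P (s_j / s_i) = (j - i) n_P` at all places. -/
theorem eq_monomial_of_b_eq_zero {F : K[X]} (hF : F ≠ 0) (hb : E.b n F = 0)
    (hs : ∀ j : ℕ, 1 ≤ j → j ≤ F.natDegree → j • n.s ≠ 0) :
    ∃ (j : ℕ) (c : K), F = monomial j c := by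
  have key : ∀ j : ℕ, F.coeff j ≠ 0 → E.cls n F = (j : ℤ) • n.s := by
    intro j hj
    have h1 : ∀ P, te E n j P F = 0 :=
      eq_zero_of_sig (te_fin E n hj) (fun P => te_nonneg E n P hj) (by rw [sum_te E n hj, hb])
    have h2 := sum_te_smul E n hj
    simp only [h1, zero_smul, finsum_zero] at h2
    exact (sub_eq_zero.mp h2.symm)
  have hd : F.coeff F.natDegree ≠ 0 := leadingCoeff_ne_zero.mpr hF
  refine ⟨F.natDegree, F.leadingCoeff, ?_⟩
  ext i
  rw [coeff_monomial]
  split_ifs with h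
  · rw [← h]
    rfl
  · by_contra hi
    have hi' : i ≤ F.natDegree := le_natDegree_of_ne_zero hi
    have h1 := key i hi
    rw [key _ hd] at h1
    have hlt : i < F.natDegree := lt_of_le_of_ne hi' (fun h' => h h'.symm)
    apply hs (F.natDegree - i) (by omega) (Nat.sub_le _ _)
    rw [← natCast_zsmul, Nat.cast_sub hi', sub_smul, h1, sub_self]

/-- The excess of the leading coefficient at a place. -/
noncomputable def tau (P : A) (F : K[X]) : ℤ :=
  E.v P F.leadingCoeff - (F.natDegree : ℤ) * n.n P - E.w n P F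

private lemma tau_eq (P : A) (F : K[X]) : E.tau n P F = te E n F.natDegree P F := by
  unfold tau te
  rw [leadingCoeff]
  ring

theorem tau_nonneg (P : A) {F : K[X]} (hF : F ≠ 0) : 0 ≤ E.tau n P F := by
  rw [tau_eq]
  exact te_nonneg E n P (leadingCoeff_ne_zero.mpr hF)

theorem tau_mul (P : A) {F G : K[X]} (hF : F ≠ 0) (hG : G ≠ 0) :
    E.tau n P (F * G) = E.tau n P F + E.tau n P G := by
  unfold tau
  rw [leadingCoeff_mul, natDegree_mul hF hG, E.w_mul n P hF hG,
    (E.ord P).mul (leadingCoeff_ne_zero.mpr hF) (leadingCoeff_ne_zero.mpr hG)]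
  push_cast
  ring

theorem tau_fin {F : K[X]} (hF : F ≠ 0) : (Function.support fun P => E.tau n P F).Finite := by
  simp only [tau_eq]
  exact te_fin E n (leadingCoeff_ne_zero.mpr hF)

theorem sum_tau {F : K[X]} (hF : F ≠ 0) : ∑ᶠ P, E.tau n P F = E.b n F := by
  simp only [tau_eq]
  exact sum_te E n (leadingCoeff_ne_zero.mpr hF)

theorem sum_tau_smul {F : K[X]} (hF : F ≠ 0) :
    ∑ᶠ P, E.tau n P F • P = E.cls n F - (F.natDegree : ℤ) • n.s := by
  simp only [tau_eq]
  exact sum_te_smul E n (leadingCoeff_ne_zero.mpr hF)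

private lemma v0_ord {v0 : k} (h0 : v0 ≠ 0) :
    algebraMap k K v0 ≠ 0 → 0 ≤ E.v E.T (algebraMap k K v0) := by
  intro _
  rw [E.const v0 h0]

theorem m_nonneg {v0 : k} (h0 : v0 ≠ 0) {F : K[X]} (hF : F ≠ 0) : 0 ≤ E.m v0 F :=
  mu_nonneg (E.ord _) (E.v0_ord h0) hF

theorem m_le_natDegree {v0 : k} (h0 : v0 ≠ 0) {F : K[X]} (hF : F ≠ 0) :
    E.m v0 F ≤ F.natDegree :=
  mu_le_natDegree (E.ord _) (E.v0_ord h0) hF

theorem m_C (v0 : k) {c : K} (hc : c ≠ 0) : E.m v0 (C c) = 0 :=
  mu_C (E.ord _) _ hc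

theorem m_X {v0 : k} (h0 : v0 ≠ 0) : E.m v0 (X : K[X]) = 0 :=
  mu_X (E.ord _) ((map_ne_zero (algebraMap k K)).mpr h0) (E.const v0 h0 _)

/-- the excess of the resultant -/
private noncomputable def te2 (v0 : k) (F G : K[X]) (P : A) : ℤ :=
  E.v P (resultant F G) + ((-(G.natDegree : ℤ)) * E.w n P F + ((-(F.natDegree : ℤ)) * E.w n P G +
    ((-((F.natDegree : ℤ) * G.natDegree)) * n.n P +
      (-(E.m v0 F * E.m v0 G)) * E.dT P)))

private lemma te2_nonneg {v0 : k} (h0 : v0 ≠ 0) {F G : K[X]} (hF : F ≠ 0) (hG : G ≠ 0)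
    (h : IsCoprime F G) (P : A) : 0 ≤ te2 E n v0 F G P := by
  have hr := resultant_ne_zero F G h
  unfold te2 dT
  by_cases hP : P = E.T
  · rw [if_pos hP]
    subst hP
    have h1 := resultant_mu (E.ord E.T) (E.v0_ord h0) hF hG hr
    unfold EField.w EField.m
    rw [n.nT]
    linarith
  · rw [if_neg hP]
    have h1 := resultant_gv (E.ord P) (n.n P) hF hG hr
    unfold EField.w
    linarith

private lemma fin_T : (Function.support fun P : A => E.dT P).Finite := by
  apply (Set.finite_singleton E.T).subset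
  intro P hP
  rw [Set.mem_singleton_iff]
  by_contra h
  rw [Function.mem_support] at hP
  apply hP
  unfold dT
  rw [if_neg h]

private lemma te2_fin {v0 : k} {F G : K[X]} (hF : F ≠ 0) (hG : G ≠ 0)
    (h : IsCoprime F G) : (Function.support fun P => te2 E n v0 F G P).Finite :=
  fin_add (E.fin _ (resultant_ne_zero F G h)) (fin_add (fin_mul _ (E.w_fin n hF))
    (fin_add (fin_mul _ (E.w_fin n hG)) (fin_add (fin_mul _ n.fin) (fin_mul _ (fin_T E)))))

private lemma sum_te2 {v0 : k} {F G : K[X]} (hF : F ≠ 0) (hG : G ≠ 0)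
    (h : IsCoprime F G) : ∑ᶠ P, te2 E n v0 F G P =
      F.natDegree * E.b n G + G.natDegree * E.b n F - E.m v0 F * E.m v0 G := by
  classical
  have hr := resultant_ne_zero F G h
  unfold te2
  rw [sig_add (E.fin _ hr) (fin_add (fin_mul _ (E.w_fin n hF))
      (fin_add (fin_mul _ (E.w_fin n hG)) (fin_add (fin_mul _ n.fin) (fin_mul _ (fin_T E))))),
    sig_add (fin_mul _ (E.w_fin n hF))
      (fin_add (fin_mul _ (E.w_fin n hG)) (fin_add (fin_mul _ n.fin) (fin_mul _ (fin_T E)))),
    sig_add (fin_mul _ (E.w_fin n hG)) (fin_add (fin_mul _ n.fin) (fin_mul _ (fin_T E))),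
    sig_add (fin_mul _ n.fin) (fin_mul _ (fin_T E)), sig_mul, sig_mul, sig_mul, sig_mul,
    E.deg _ hr, n.deg]
  have h1 : ∑ᶠ P : A, E.dT P = 1 := by
    unfold dT
    rw [finsum_eq_single _ E.T (fun x hx => if_neg hx), if_pos rfl]
  rw [h1]
  unfold EField.b
  ring

/-- The resultant inequality (intersection number). Sum `resultant_gv` over all places `P ≠ T` and
`resultant_mu` at `T` (`n T = 0`); use `Σ_P v_P (Res) = 0`, `Σ n_P = 0`. -/
theorem res_ineq {v0 : k} (h0 : v0 ≠ 0) {F G : K[X]} (hF : F ≠ 0) (hG : G ≠ 0)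
    (h : IsCoprime F G) :
    E.m v0 F * E.m v0 G ≤ F.natDegree * E.b n G + G.natDegree * E.b n F := by
  have h1 : 0 ≤ ∑ᶠ P, te2 E n v0 F G P := finsum_nonneg fun P => te2_nonneg E n h0 hF hG h P
  rw [sum_te2 E n hF hG h] at h1
  linarith

/-- In the case of equality all local inequalities are equalities, so the divisor of the resultant
is known; its sum in the group is zero. -/
theorem res_eq {v0 : k} (h0 : v0 ≠ 0) {F G : K[X]} (hF : F ≠ 0) (hG : G ≠ 0)
    (h : IsCoprime F G)
    (heq : E.m v0 F * E.m v0 G = F.natDegree * E.b n G + G.natDegree * E.b n F) :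
    (G.natDegree : ℤ) • E.cls n F + (F.natDegree : ℤ) • E.cls n G =
      ((F.natDegree : ℤ) * G.natDegree) • n.s + (E.m v0 F * E.m v0 G) • E.T := by
  classical
  have hr := resultant_ne_zero F G h
  have h1 : ∀ P, te2 E n v0 F G P = 0 :=
    eq_zero_of_sig (te2_fin E n hF hG h) (fun P => te2_nonneg E n h0 hF hG h P)
      (by rw [sum_te2 E n hF hG h]; linarith)
  have h2 : ∑ᶠ P, te2 E n v0 F G P • P = 0 := by
    simp only [h1, zero_smul, finsum_zero]
  unfold te2 at h2
  rw [kap_add (E.fin _ hr) (fin_add (fin_mul _ (E.w_fin n hF))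
      (fin_add (fin_mul _ (E.w_fin n hG)) (fin_add (fin_mul _ n.fin) (fin_mul _ (fin_T E))))),
    kap_add (fin_mul _ (E.w_fin n hF))
      (fin_add (fin_mul _ (E.w_fin n hG)) (fin_add (fin_mul _ n.fin) (fin_mul _ (fin_T E)))),
    kap_add (fin_mul _ (E.w_fin n hG)) (fin_add (fin_mul _ n.fin) (fin_mul _ (fin_T E))),
    kap_add (fin_mul _ n.fin) (fin_mul _ (fin_T E)), kap_mul _ (E.w_fin n hF),
    kap_mul _ (E.w_fin n hG), kap_mul _ n.fin, kap_mul _ (fin_T E), E.sum _ hr] at h2
  have h3 : ∑ᶠ P : A, E.dT P • P = E.T := by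
    unfold dT
    rw [finsum_eq_single _ E.T (fun x hx => by rw [if_neg hx, zero_smul]), if_pos rfl, one_smul]
  rw [h3] at h2
  unfold EField.cls Twist.s
  simp only [neg_smul, smul_neg] at h2 ⊢
  rw [← sub_eq_zero]
  rw [← h2]
  abel

end EField

end ShghE
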