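import Pool.Agent.ShghE.CurveDefs

/-!
# The coordinate ring of `y² = x³ + x` is a Dedekind domain; its primes are the affine points

For the Dedekind property use e.g. `IsIntegralClosure.isDedekindDomain` (`R0` is the integral closure
of `k[X]` in `K0`: if `a + b y` (`a, b ∈ k(X)`) is integral then `2a`, `a² - b² (X³ + X) ∈ k[X]`, and
`X³ + X` is squarefree), or local principality of the ideals `XYIdeal`
(`CoordinateRing.XYIdeal_neg_mul`: they are invertible) together with the Nullstellensatz.
-/

namespace ShghE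

open WeierstrassCurve WeierstrassCurve.Affine IsDedekindDomain

variable {k : Type*} [Field k]

theorem nonsingular_of_eq (h2 : (2 : k) ≠ 0) {a b : k} (h : b ^ 2 = a ^ 3 + a) :
    (E0 k).Nonsingular a b := by
  rw [nonsingular_iff']
  constructor
  · rw [equation_iff]; simp; exact h
  · by_cases hb : b = 0
    · left
      subst hb
      simp only [zero_mul, mul_zero, add_zero, zero_sub, neg_ne_zero]
      intro h3
      have h4 : a * (a ^ 2 + 1) = 0 := by linear_combination -h
      rcases mul_eq_zero.mp h4 with h5 | h5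
      · rw [h5] at h3; simp at h3
      · have : (2 : k) = 0 := by linear_combination 3 * h5 - h3
        exact h2 this
    · right
      simp only [zero_mul, add_zero]
      exact mul_ne_zero h2 hb

theorem eq_of_nonsingular {a b : k} (h : (E0 k).Nonsingular a b) : b ^ 2 = a ^ 3 + a := by
  have := (equation_iff a b).mp h.1
  simpa using this

lemma curveA_yR_sq : yR k ^ 2 = xR k ^ 3 + xR k := by
  unfold yR xR
  rw [← map_pow, ← map_pow, ← map_add]
  refine AdjoinRoot.mk_eq_mk.mpr ⟨1, ?_⟩
  rw [WeierstrassCurve.Affine.polynomial]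
  simp
  

lemma curveA_XClass_eq (a : k) :
    CoordinateRing.XClass (E0 k) a = xR k - algebraMap k (R0 k) a := by
  unfold CoordinateRing.XClass xR
  rw [Polynomial.C_sub, map_sub]
  rfl

lemma curveA_YClass_eq (b : k) :
    CoordinateRing.YClass (E0 k) (Polynomial.C b) = yR k - algebraMap k (R0 k) b := by
  unfold CoordinateRing.YClass yR
  rw [map_sub]
  rfl

/-- the evaluation at a point of the curve -/
noncomputable def curveA_ev (a b : k) (h : b ^ 2 = a ^ 3 + a) : R0 k →+* k :=
  AdjoinRoot.lift (Polynomial.evalRingHom a) b (by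
    rw [WeierstrassCurve.Affine.polynomial]
    simp [Polynomial.eval₂_pow]
    linear_combination h)

lemma curveA_ev_x (a b : k) (h : b ^ 2 = a ^ 3 + a) : curveA_ev a b h (xR k) = a := by
  unfold curveA_ev xR
  rw [AdjoinRoot.lift_mk]
  simp

lemma curveA_ev_y (a b : k) (h : b ^ 2 = a ^ 3 + a) : curveA_ev a b h (yR k) = b := by
  unfold curveA_ev yR
  rw [AdjoinRoot.lift_mk]
  simp

lemma curveA_ev_c (a b : k) (h : b ^ 2 = a ^ 3 + a) (c : k) :
    curveA_ev a b h (algebraMap k (R0 k) c) = c := by
  have : algebraMap k (R0 k) c = CoordinateRing.mk (E0 k) (Polynomial.C (Polynomial.C c)) := rfl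
  unfold curveA_ev
  rw [this, AdjoinRoot.lift_mk]
  simp

lemma curveA_ev_surj (a b : k) (h : b ^ 2 = a ^ 3 + a) :
    Function.Surjective (curveA_ev a b h) :=
  fun c => ⟨_, curveA_ev_c a b h c⟩

/-- the ideal of a point is the kernel of the evaluation -/
lemma curveA_ker (a b : k) (h : b ^ 2 = a ^ 3 + a) :
    CoordinateRing.XYIdeal (E0 k) a (Polynomial.C b) = RingHom.ker (curveA_ev a b h) := by
  apply le_antisymm
  · unfold CoordinateRing.XYIdeal
    rw [Ideal.span_le]
    rintro x (rfl | hx)
    · rw [SetLike.mem_coe, RingHom.mem_ker, curveA_XClass_eq, map_sub, curveA_ev_x, curveA_ev_c,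
        sub_self]
    · rw [Set.mem_singleton_iff] at hx
      rw [SetLike.mem_coe, RingHom.mem_ker, hx, curveA_YClass_eq, map_sub, curveA_ev_y, curveA_ev_c,
        sub_self]
  · have hmax : (CoordinateRing.XYIdeal (E0 k) a (Polynomial.C b)).IsMaximal := by
      have e := CoordinateRing.quotientXYIdealEquiv (W' := E0 k) (x := a) (y := Polynomial.C b) (by
        rw [WeierstrassCurve.Affine.polynomial]
        simp
        linear_combination h)
      exact Ideal.Quotient.maximal_of_isField _ (e.toMulEquiv.isField (Field.toIsField k))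
    intro x hx
    by_contra hx'
    have h1 : CoordinateRing.XYIdeal (E0 k) a (Polynomial.C b) ≤ RingHom.ker (curveA_ev a b h) := by
      unfold CoordinateRing.XYIdeal
      rw [Ideal.span_le]
      rintro x (rfl | hx)
      · rw [SetLike.mem_coe, RingHom.mem_ker, curveA_XClass_eq, map_sub, curveA_ev_x, curveA_ev_c,
          sub_self]
      · rw [Set.mem_singleton_iff] at hx
        rw [SetLike.mem_coe, RingHom.mem_ker, hx, curveA_YClass_eq, map_sub, curveA_ev_y,
          curveA_ev_c, sub_self]
    have h2 := hmax.eq_of_le (RingHom.ker_ne_top _) h1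
    rw [h2] at hx'
    exact hx' hx

lemma curveA_isMaximal (a b : k) (h : b ^ 2 = a ^ 3 + a) :
    (CoordinateRing.XYIdeal (E0 k) a (Polynomial.C b)).IsMaximal := by
  rw [curveA_ker a b h]
  exact RingHom.ker_isMaximal_of_surjective _ (curveA_ev_surj a b h)

/-- The norm of `p + q y`. -/
lemma curveA_norm (p q : Polynomial k) :
    Algebra.norm (Polynomial k) (p • (1 : R0 k) + q • yR k)
      = p ^ 2 - q ^ 2 * (Polynomial.X ^ 3 + Polynomial.X) := by
  have := CoordinateRing.norm_smul_basis (W' := E0 k) p q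
  unfold yR
  rw [this]
  simp

lemma curveA_basis (r : R0 k) : ∃ p q : Polynomial k, r = p • (1 : R0 k) + q • yR k := by
  obtain ⟨p, q, h⟩ := CoordinateRing.exists_smul_basis_eq (W' := E0 k) r
  exact ⟨p, q, h.symm⟩

lemma curveA_smul (p : Polynomial k) (r : R0 k) :
    p • r = algebraMap (Polynomial k) (R0 k) p * r := Algebra.smul_def p r

lemma curveA_algebraMap_X : algebraMap (Polynomial k) (R0 k) Polynomial.X = xR k := rfl

lemma curveA_algebraMap_C (c : k) :
    algebraMap (Polynomial k) (R0 k) (Polynomial.C c) = algebraMap k (R0 k) c := rfl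

/-- The norm is a multiple of the element. -/
lemma curveA_dvd_norm (r : R0 k) :
    r ∣ algebraMap (Polynomial k) (R0 k) (Algebra.norm (Polynomial k) r) := by
  obtain ⟨p, q, rfl⟩ := curveA_basis r
  rw [curveA_norm]
  refine ⟨p • (1 : R0 k) - q • yR k, ?_⟩
  simp only [curveA_smul, map_sub, map_mul, map_pow, map_add, curveA_algebraMap_X, mul_one]
  linear_combination (algebraMap (Polynomial k) (R0 k) q) ^ 2 * curveA_yR_sq (k := k)

lemma curveA_norm_ne_zero {r : R0 k} (hr : r ≠ 0) :
    Algebra.norm (Polynomial k) r ≠ 0 := by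
  intro h
  obtain ⟨p, q, rfl⟩ := curveA_basis r
  have h1 := CoordinateRing.degree_norm_smul_basis (W' := E0 k) p q
  have h2 : Algebra.norm (Polynomial k) (p • (1 : R0 k) + q • CoordinateRing.mk (E0 k)
      Polynomial.X) = 0 := h
  rw [h2, Polynomial.degree_zero] at h1
  have h3 := max_eq_bot.mp h1.symm
  have hp : p = 0 := by
    by_contra hp
    have := h3.1
    rw [Polynomial.degree_eq_natDegree hp] at this
    exact absurd this (by exact WithBot.coe_ne_bot)
  have hq : q = 0 := by
    by_contra hq
    have := h3.2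
    rw [Polynomial.degree_eq_natDegree hq] at this
    exact absurd this (by exact WithBot.coe_ne_bot)
  apply hr
  rw [hp, hq]
  simp

/-! ### The Dedekind property -/

lemma curveA_root [IsAlgClosed k] (Q : Ideal (Polynomial k)) (hQ : Q.IsPrime) (n : ℕ) :
    ∀ N : Polynomial k, N ≠ 0 → N ∈ Q → N.natDegree = n → ∃ a : k, Polynomial.X - Polynomial.C a ∈ Q := by
  induction n with
  | zero =>
    intro N hN hNQ hd
    exfalso
    rw [Polynomial.natDegree_eq_zero] at hd
    obtain ⟨c, rfl⟩ := hd
    have hc : c ≠ 0 := fun h => hN (by rw [h, Polynomial.C_0])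
    exact hQ.ne_top (Q.eq_top_of_isUnit_mem hNQ (Polynomial.isUnit_C.mpr hc.isUnit))
  | succ n ih =>
    intro N hN hNQ hd
    obtain ⟨a, ha⟩ := IsAlgClosed.exists_root N (by
      rw [Polynomial.degree_eq_natDegree hN, hd]
      exact_mod_cast Nat.succ_ne_zero n)
    obtain ⟨N', hN'⟩ := Polynomial.dvd_iff_isRoot.mpr ha
    rw [hN'] at hNQ
    rcases hQ.mem_or_mem hNQ with h | h
    · exact ⟨a, h⟩
    · have h0 : N' ≠ 0 := by
        rintro rfl
        exact hN (by rw [hN', mul_zero])
      refine ih N' h0 h ?_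
      have := Polynomial.natDegree_mul (Polynomial.X_sub_C_ne_zero a) h0
      rw [← hN', hd, Polynomial.natDegree_X_sub_C] at this
      omega

lemma curveA_exists_point [IsAlgClosed k] (P : Ideal (R0 k)) (hP : P.IsPrime)
    (h0 : P ≠ ⊥) : ∃ a b : k, b ^ 2 = a ^ 3 + a ∧
      P = CoordinateRing.XYIdeal (E0 k) a (Polynomial.C b) := by
  obtain ⟨r, hr, hr0⟩ := Submodule.exists_mem_ne_zero_of_ne_bot h0
  have h1 : algebraMap (Polynomial k) (R0 k) (Algebra.norm (Polynomial k) r) ∈ P :=
    P.mem_of_dvd (curveA_dvd_norm r) hr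
  have h2 := curveA_norm_ne_zero hr0
  obtain ⟨a, ha⟩ := curveA_root (P.comap (algebraMap (Polynomial k) (R0 k)))
    (Ideal.comap_isPrime _ _) _ _ h2 h1 rfl
  have ha' : xR k - algebraMap k (R0 k) a ∈ P := by
    have := Ideal.mem_comap.mp ha
    rwa [map_sub] at this
  obtain ⟨b, hb⟩ := IsAlgClosed.exists_pow_nat_eq (a ^ 3 + a) (n := 2) (by norm_num)
  have h3 : (yR k - algebraMap k (R0 k) b) * (yR k + algebraMap k (R0 k) b) ∈ P := by
    have e : (yR k - algebraMap k (R0 k) b) * (yR k + algebraMap k (R0 k) b)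
        = (xR k - algebraMap k (R0 k) a) * (xR k ^ 2 + xR k * algebraMap k (R0 k) a
          + algebraMap k (R0 k) a ^ 2 + 1) := by
      have hb' : algebraMap k (R0 k) b ^ 2 = algebraMap k (R0 k) a ^ 3 + algebraMap k (R0 k) a := by
        rw [← map_pow, hb, map_add, map_pow]
      linear_combination curveA_yR_sq (k := k) - hb'
    rw [e]
    exact P.mul_mem_right _ ha'
  have key : ∀ b : k, b ^ 2 = a ^ 3 + a → yR k - algebraMap k (R0 k) b ∈ P →
      P = CoordinateRing.XYIdeal (E0 k) a (Polynomial.C b) := by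
    intro b hb hbP
    have hle : CoordinateRing.XYIdeal (E0 k) a (Polynomial.C b) ≤ P := by
      unfold CoordinateRing.XYIdeal
      rw [Ideal.span_le]
      rintro x (rfl | hx)
      · rw [SetLike.mem_coe, curveA_XClass_eq]; exact ha'
      · rw [Set.mem_singleton_iff] at hx
        rw [SetLike.mem_coe, hx, curveA_YClass_eq]; exact hbP
    exact ((curveA_isMaximal a b hb).eq_of_le hP.ne_top hle).symm
  rcases hP.mem_or_mem h3 with h | h
  · exact ⟨a, b, hb, key b hb h⟩
  · refine ⟨a, -b, by rw [neg_sq]; exact hb, key (-b) (by rw [neg_sq]; exact hb) ?_⟩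
    rw [map_neg, sub_neg_eq_add]
    exact h

/-- The ideal of a nonsingular point is locally principal. -/
lemma curveA_loc (h2 : (2 : k) ≠ 0) {a b : k} (h : b ^ 2 = a ^ 3 + a) :
    ∃ t u : R0 k, t ∈ CoordinateRing.XYIdeal (E0 k) a (Polynomial.C b) ∧
      u ∉ CoordinateRing.XYIdeal (E0 k) a (Polynomial.C b) ∧
      ∀ x ∈ CoordinateRing.XYIdeal (E0 k) a (Polynomial.C b), t ∣ u * x := by
  have e : (yR k - algebraMap k (R0 k) b) * (yR k + algebraMap k (R0 k) b)
      = (xR k - algebraMap k (R0 k) a) * (xR k ^ 2 + xR k * algebraMap k (R0 k) a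
        + algebraMap k (R0 k) a ^ 2 + 1) := by
    have hb' : algebraMap k (R0 k) b ^ 2 = algebraMap k (R0 k) a ^ 3 + algebraMap k (R0 k) a := by
      rw [← map_pow, h, map_add, map_pow]
    linear_combination curveA_yR_sq (k := k) - hb'
  have hmem : ∀ x ∈ CoordinateRing.XYIdeal (E0 k) a (Polynomial.C b), ∃ r s : R0 k,
      x = r * (xR k - algebraMap k (R0 k) a) + s * (yR k - algebraMap k (R0 k) b) := by
    intro x hx
    unfold CoordinateRing.XYIdeal at hx
    rw [Ideal.mem_span_pair, curveA_XClass_eq, curveA_YClass_eq] at hx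
    obtain ⟨r, s, hrs⟩ := hx
    exact ⟨r, s, hrs.symm⟩
  by_cases hb : b = 0
  · refine ⟨yR k - algebraMap k (R0 k) b, xR k ^ 2 + xR k * algebraMap k (R0 k) a
        + algebraMap k (R0 k) a ^ 2 + 1, ?_, ?_, ?_⟩
    · rw [curveA_ker a b h, RingHom.mem_ker, map_sub, curveA_ev_y, curveA_ev_c, sub_self]
    · rw [curveA_ker a b h, RingHom.mem_ker]
      simp only [map_add, map_mul, map_pow, curveA_ev_x, curveA_ev_c, map_one]
      intro h3
      subst hb
      have h4 : a * (a ^ 2 + 1) = 0 := by linear_combination -h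
      rcases mul_eq_zero.mp h4 with h5 | h5
      · rw [h5] at h3; simp at h3
      · have : (2 : k) = 0 := by linear_combination 3 * h5 - h3
        exact h2 this
    · intro x hx
      obtain ⟨r, s, rfl⟩ := hmem x hx
      refine ⟨r * (yR k + algebraMap k (R0 k) b) + s * (xR k ^ 2 + xR k * algebraMap k (R0 k) a
        + algebraMap k (R0 k) a ^ 2 + 1), ?_⟩
      linear_combination -r * e
  · refine ⟨xR k - algebraMap k (R0 k) a, yR k + algebraMap k (R0 k) b, ?_, ?_, ?_⟩
    · rw [curveA_ker a b h, RingHom.mem_ker, map_sub, curveA_ev_x, curveA_ev_c, sub_self]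
    · rw [curveA_ker a b h, RingHom.mem_ker, map_add, curveA_ev_y, curveA_ev_c, ← two_mul]
      exact mul_ne_zero h2 hb
    · intro x hx
      obtain ⟨r, s, rfl⟩ := hmem x hx
      refine ⟨r * (yR k + algebraMap k (R0 k) b) + s * (xR k ^ 2 + xR k * algebraMap k (R0 k) a
        + algebraMap k (R0 k) a ^ 2 + 1), ?_⟩
      linear_combination s * e

theorem isDedekindDomain_R0 [IsAlgClosed k] (h2 : (2 : k) ≠ 0) : IsDedekindDomain (R0 k) := by
  have hN : IsNoetherianRing (R0 k) := inferInstance
  have : IsDedekindDomainDvr (R0 k) := by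
    refine { toIsNoetherian := hN, is_dvr_at_nonzero_prime := ?_ }
    intro P hP0 hP
    obtain ⟨a, b, hab, hPe⟩ := curveA_exists_point P hP hP0
    obtain ⟨t, u, ht, hu, htu⟩ := curveA_loc h2 hab
    rw [← hPe] at ht hu htu
    have hNl : IsNoetherianRing (Localization.AtPrime P) :=
      IsLocalization.isNoetherianRing P.primeCompl _ hN
    have hprin : (IsLocalRing.maximalIdeal (Localization.AtPrime P)).IsPrincipal := by
      refine ⟨⟨algebraMap _ _ t, ?_⟩⟩
      rw [← Localization.AtPrime.map_eq_maximalIdeal]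
      apply le_antisymm
      · rw [Ideal.map_le_iff_le_comap]
        intro x hx
        rw [Ideal.mem_comap]
        obtain ⟨r, hr⟩ := htu x hx
        have hun : IsUnit (algebraMap (R0 k) (Localization.AtPrime P) u) :=
          IsLocalization.map_units (Localization.AtPrime P) (⟨u, hu⟩ : P.primeCompl)
        obtain ⟨w, hw⟩ := hun
        have h3 : algebraMap (R0 k) (Localization.AtPrime P) x
            = (↑w⁻¹ * algebraMap (R0 k) (Localization.AtPrime P) r)
              * algebraMap (R0 k) (Localization.AtPrime P) t := by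
          have h4 := congrArg (algebraMap (R0 k) (Localization.AtPrime P)) hr
          rw [map_mul, map_mul, ← hw] at h4
          calc algebraMap (R0 k) (Localization.AtPrime P) x
              = ↑w⁻¹ * (↑w * algebraMap (R0 k) (Localization.AtPrime P) x) := by
                rw [← mul_assoc, Units.inv_mul, one_mul]
            _ = _ := by rw [h4]; ring
        rw [h3]
        exact Submodule.mem_span_singleton.mpr ⟨_, rfl⟩
      · rw [Submodule.span_singleton_le_iff_mem]
        exact Ideal.mem_map_of_mem _ ht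
    have hnf : ¬ IsField (Localization.AtPrime P) :=
      IsLocalization.AtPrime.not_isField (R0 k) hP0 (Localization.AtPrime P)
    exact ((IsDiscreteValuationRing.TFAE (Localization.AtPrime P) hnf).out 0 4).mpr hprin
  exact IsDedekindDomainDvr.isDedekindDomain _

/-- The prime of an affine point. -/
noncomputable def hOne {a b : k} (h : (E0 k).Nonsingular a b) : HeightOneSpectrum (R0 k) where
  asIdeal := CoordinateRing.XYIdeal (E0 k) a (Polynomial.C b)
  isPrime := by
    exact (curveA_isMaximal a b (eq_of_nonsingular h)).isPrime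
  ne_bot := by
    intro h0
    have h1 : CoordinateRing.XClass (E0 k) a ∈ CoordinateRing.XYIdeal (E0 k) a (Polynomial.C b) :=
      Ideal.subset_span (Set.mem_insert _ _)
    rw [h0] at h1
    exact CoordinateRing.XClass_ne_zero a (Ideal.mem_bot.mp h1)

theorem hOne_inj {a b a' b' : k} (h : (E0 k).Nonsingular a b) (h' : (E0 k).Nonsingular a' b')
    (e : (hOne h).asIdeal = (hOne h').asIdeal) : a = a' ∧ b = b' := by
  have e' : CoordinateRing.XYIdeal (E0 k) a (Polynomial.C b)
      = CoordinateRing.XYIdeal (E0 k) a' (Polynomial.C b') := e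
  rw [curveA_ker a' b' (eq_of_nonsingular h')] at e'
  have h1 : xR k - algebraMap k (R0 k) a ∈ CoordinateRing.XYIdeal (E0 k) a (Polynomial.C b) := by
    rw [curveA_ker a b (eq_of_nonsingular h), RingHom.mem_ker, map_sub, curveA_ev_x, curveA_ev_c,
      sub_self]
  have h2 : yR k - algebraMap k (R0 k) b ∈ CoordinateRing.XYIdeal (E0 k) a (Polynomial.C b) := by
    rw [curveA_ker a b (eq_of_nonsingular h), RingHom.mem_ker, map_sub, curveA_ev_y, curveA_ev_c,
      sub_self]
  rw [e', RingHom.mem_ker, map_sub, curveA_ev_x, curveA_ev_c, sub_eq_zero] at h1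
  rw [e', RingHom.mem_ker, map_sub, curveA_ev_y, curveA_ev_c, sub_eq_zero] at h2
  exact ⟨h1.symm, h2.symm⟩

theorem exists_hOne [IsAlgClosed k] (h2 : (2 : k) ≠ 0) (p : HeightOneSpectrum (R0 k)) :
    ∃ (a b : k) (h : (E0 k).Nonsingular a b), p = hOne h := by
  obtain ⟨a, b, hab, hP⟩ := curveA_exists_point p.asIdeal p.isPrime p.ne_bot
  exact ⟨a, b, nonsingular_of_eq h2 hab, HeightOneSpectrum.ext hP⟩

/-- The point of a prime. -/
noncomputable def ptOf [IsAlgClosed k] (h2 : (2 : k) ≠ 0) (p : HeightOneSpectrum (R0 k)) :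
    (E0 k).Point :=
  .some _ _ (exists_hOne h2 p).choose_spec.choose_spec.choose

theorem ptOf_hOne [IsAlgClosed k] (h2 : (2 : k) ≠ 0) {a b : k} (h : (E0 k).Nonsingular a b) :
    ptOf h2 (hOne h) = .some a b h := by
  have h3 := (exists_hOne h2 (hOne h)).choose_spec.choose_spec.choose_spec
  obtain ⟨h4, h5⟩ := hOne_inj h _ (congrArg HeightOneSpectrum.asIdeal h3)
  unfold ptOf
  congr 1
  · exact h4.symm
  · exact h5.symm

theorem hOne_ptOf_injective [IsAlgClosed k] (h2 : (2 : k) ≠ 0) :
    Function.Injective (ptOf (k := k) h2) := by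
  intro p q hpq
  obtain ⟨a, b, h, rfl⟩ := exists_hOne h2 p
  obtain ⟨a', b', h', rfl⟩ := exists_hOne h2 q
  rw [ptOf_hOne, ptOf_hOne] at hpq
  rw [Point.some.injEq] at hpq
  obtain ⟨rfl, rfl⟩ := hpq
  rfl

/-- Degree of a function on the affine curve: the degree of the norm (= pole order at infinity). -/
noncomputable def dg (r : R0 k) : ℕ := (Algebra.norm (Polynomial k) r).natDegree

theorem dg_mul {r s : R0 k} (hr : r ≠ 0) (hs : s ≠ 0) : dg (r * s) = dg r + dg s := by
  unfold dg
  rw [map_mul, Polynomial.natDegree_mul (curveA_norm_ne_zero hr) (curveA_norm_ne_zero hs)]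

open Classical in
lemma curveA_dg (p q : Polynomial k) :
    dg (p • (1 : R0 k) + q • yR k)
      = max (2 * p.natDegree) (if q = 0 then 0 else 2 * q.natDegree + 3) := by
  have h1 := CoordinateRing.degree_norm_smul_basis (W' := E0 k) p q
  have h2 : Algebra.norm (Polynomial k) (p • (1 : R0 k) + q • yR k)
      = Algebra.norm (Polynomial k) (p • (1 : R0 k) + q • CoordinateRing.mk (E0 k)
      Polynomial.X) := rfl
  unfold dg
  by_cases hq : q = 0
  · rw [curveA_norm, hq, if_pos rfl]
    simp
  · rw [if_neg hq]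
    by_cases hp : p = 0
    · rw [hp, Polynomial.degree_zero, Polynomial.degree_eq_natDegree hq] at h1
      rw [hp] at h2 ⊢
      rw [h2]
      apply Polynomial.natDegree_eq_of_degree_eq_some
      rw [h1, Polynomial.natDegree_zero, mul_zero]
      rw [max_eq_right (by simp), max_eq_right (Nat.zero_le _)]
      rfl
    · rw [Polynomial.degree_eq_natDegree hp, Polynomial.degree_eq_natDegree hq] at h1
      rw [h2]
      apply Polynomial.natDegree_eq_of_degree_eq_some
      rw [h1]
      rfl

theorem dg_add {r s : R0 k} (h : r + s ≠ 0) : dg (r + s) ≤ max (dg r) (dg s) := by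
  obtain ⟨p, q, rfl⟩ := curveA_basis r
  obtain ⟨p', q', rfl⟩ := curveA_basis s
  have e : (p • (1 : R0 k) + q • yR k) + (p' • (1 : R0 k) + q' • yR k)
      = (p + p') • (1 : R0 k) + (q + q') • yR k := by
    rw [add_smul, add_smul]; abel
  rw [e, curveA_dg, curveA_dg, curveA_dg]
  have h1 := Polynomial.natDegree_add_le p p'
  have h2 := Polynomial.natDegree_add_le q q'
  rcases eq_or_ne q 0 with hq | hq
  · subst hq
    rcases eq_or_ne q' 0 with hq' | hq'
    · subst hq'
      simp only [add_zero, if_true]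
      omega
    · rw [zero_add, if_neg hq', if_pos rfl]
      omega
  · rcases eq_or_ne q' 0 with hq' | hq'
    · subst hq'
      rw [add_zero, if_neg hq, if_pos rfl]
      omega
    · rw [if_neg hq, if_neg hq']
      split_ifs
      · omega
      · omega

lemma curveA_dg_mul_le (r s : R0 k) : dg (r * s) ≤ dg r + dg s := by
  unfold dg
  rw [map_mul]
  exact Polynomial.natDegree_mul_le

lemma curveA_dg_zero : dg (0 : R0 k) = 0 := by
  have := curveA_dg (k := k) 0 0
  simpa using this

lemma curveA_dg_const (c : k) : dg (algebraMap k (R0 k) c) = 0 := by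
  have h := curveA_dg (k := k) (Polynomial.C c) 0
  have e : Polynomial.C c • (1 : R0 k) + (0 : Polynomial k) • yR k = algebraMap k (R0 k) c := by
    rw [curveA_smul, curveA_algebraMap_C, mul_one, zero_smul, add_zero]
  rw [e] at h
  simpa using h

lemma curveA_dg_x : dg (xR k) = 2 := by
  have h := curveA_dg (k := k) Polynomial.X 0
  have e : (Polynomial.X : Polynomial k) • (1 : R0 k) + (0 : Polynomial k) • yR k = xR k := by
    rw [curveA_smul, curveA_algebraMap_X, mul_one, zero_smul, add_zero]
  rw [e] at h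
  simpa using h

lemma curveA_dg_y : dg (yR k) = 3 := by
  have h := curveA_dg (k := k) 0 1
  have e : (0 : Polynomial k) • (1 : R0 k) + (1 : Polynomial k) • yR k = yR k := by
    rw [zero_smul, one_smul, zero_add]
  rw [e] at h
  simpa using h

lemma curveA_dg_one : dg (1 : R0 k) = 0 := by
  have := curveA_dg_const (k := k) 1
  rwa [map_one] at this

lemma curveA_dg_pow (r : R0 k) (n : ℕ) : dg (r ^ n) ≤ n * dg r := by
  induction n with
  | zero => rw [pow_zero, curveA_dg_one]; exact Nat.zero_le _
  | succ n ih =>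
    rw [pow_succ]
    refine le_trans (curveA_dg_mul_le _ _) ?_
    rw [Nat.succ_mul]
    omega

lemma curveA_dg_sum {ι : Type*} (S : Finset ι) (g : ι → R0 k) (B : ℕ)
    (h : ∀ i ∈ S, dg (g i) ≤ B) : dg (∑ i ∈ S, g i) ≤ B := by
  classical
  induction S using Finset.induction_on with
  | empty => rw [Finset.sum_empty, curveA_dg_zero]; exact Nat.zero_le _
  | insert i S hi ih =>
    rw [Finset.sum_insert hi]
    by_cases h0 : g i + ∑ j ∈ S, g j = 0
    · rw [h0, curveA_dg_zero]; exact Nat.zero_le _
    · refine le_trans (dg_add h0) (max_le (h i (Finset.mem_insert_self _ _)) (ih ?_))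
      exact fun j hj => h j (Finset.mem_insert_of_mem hj)

theorem dg_psi (f : MvPolynomial (Fin 2) k) : dg (psi k f) ≤ 3 * f.totalDegree := by
  rw [MvPolynomial.as_sum f, map_sum, ← MvPolynomial.as_sum f]
  apply curveA_dg_sum
  intro m hm
  have h1 : m 0 + m 1 ≤ f.totalDegree := by
    have := MvPolynomial.le_totalDegree hm
    rw [Finsupp.sum_fintype _ _ (fun _ => rfl)] at this
    simpa [Fin.sum_univ_two] using this
  have h2 : psi k (MvPolynomial.monomial m (f.coeff m))
      = algebraMap k (R0 k) (f.coeff m) * (xR k ^ m 0 * yR k ^ m 1) := by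
    unfold psi
    rw [MvPolynomial.aeval_monomial, Finsupp.prod_fintype _ _ (fun _ => pow_zero _)]
    simp [Fin.prod_univ_two]
  rw [h2]
  have h3 := curveA_dg_mul_le (algebraMap k (R0 k) (f.coeff m)) (xR k ^ m 0 * yR k ^ m 1)
  have h4 := curveA_dg_mul_le (xR k ^ m 0) (yR k ^ m 1)
  have h5 := curveA_dg_pow (xR k) (m 0)
  have h6 := curveA_dg_pow (yR k) (m 1)
  rw [curveA_dg_x] at h5
  rw [curveA_dg_y] at h6
  rw [curveA_dg_const] at h3
  omega

end ShghE
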