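import Pool.Agent.ShghE.Defs

/-!
# Gauss orders

General facts about `gv`. Everything is elementary; `IsOrd` gives `v 1 = 0`, `v (-x) = v x` (x ≠ 0),
and if `v x < v y` then `x + y ≠ 0` and `v (x + y) = v x`.
-/

namespace ShghE

open Polynomial

variable {K : Type*} [Field K] {v : K → ℤ}

theorem IsOrd.one (hv : IsOrd v) : v 1 = 0 := by
  have h := hv.mul (one_ne_zero (α := K)) (one_ne_zero (α := K))
  rw [mul_one] at h
  omega

theorem IsOrd.neg (hv : IsOrd v) {x : K} (hx : x ≠ 0) : v (-x) = v x := by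
  have h1 : (-1 : K) ≠ 0 := neg_ne_zero.mpr one_ne_zero
  have h2 := hv.mul h1 h1
  rw [neg_one_mul, neg_neg, hv.one] at h2
  have h3 := hv.mul h1 hx
  rw [neg_one_mul] at h3
  omega

theorem IsOrd.inv (hv : IsOrd v) {x : K} (hx : x ≠ 0) : v x⁻¹ = - v x := by
  have h := hv.mul hx (inv_ne_zero hx)
  rw [mul_inv_cancel₀ hx, hv.one] at h
  omega

theorem IsOrd.pow (hv : IsOrd v) {x : K} (hx : x ≠ 0) (n : ℕ) : v (x ^ n) = n * v x := by
  induction n with
  | zero => rw [pow_zero, hv.one]; simp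
  | succ n ih =>
    rw [pow_succ, hv.mul (pow_ne_zero n hx) hx, ih]
    push_cast
    ring

/-- finite sums -/
theorem IsOrd.sum (hv : IsOrd v) {ι : Type*} (s : Finset ι) (f : ι → K) (c : ℤ)
    (h : ∀ i ∈ s, f i ≠ 0 → c ≤ v (f i)) (h0 : ∑ i ∈ s, f i ≠ 0) : c ≤ v (∑ i ∈ s, f i) := by
  classical
  induction s using Finset.induction_on with
  | empty => simp at h0
  | insert a s ha ih =>
    rw [Finset.sum_insert ha] at h0 ⊢
    have h1 : ∀ i ∈ s, f i ≠ 0 → c ≤ v (f i) := fun i hi => h i (Finset.mem_insert_of_mem hi)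
    by_cases hs : ∑ i ∈ s, f i = 0
    · rw [hs, add_zero] at h0 ⊢
      exact h a (Finset.mem_insert_self a s) h0
    · by_cases hfa : f a = 0
      · rw [hfa, zero_add]
        exact ih h1 hs
      · have h2 := hv.add hfa hs h0
        exact (le_min (h a (Finset.mem_insert_self a s) hfa) (ih h1 hs)).trans h2

theorem IsOrd.add_of_lt (hv : IsOrd v) {x y : K} (hx : x ≠ 0) (hy : y ≠ 0 → v x < v y) :
    x + y ≠ 0 ∧ v (x + y) = v x := by
  by_cases hy0 : y = 0
  · rw [hy0, add_zero]
    exact ⟨hx, rfl⟩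
  · have h1 := hy hy0
    have h2 : x + y ≠ 0 := by
      intro h3
      have h4 : y = -x := by
        rw [eq_neg_iff_add_eq_zero, add_comm]
        exact h3
      rw [h4, hv.neg hx] at h1
      exact lt_irrefl _ h1
    refine ⟨h2, ?_⟩
    have h3 := hv.add hx hy0 h2
    rw [min_eq_left h1.le] at h3
    have hny : -y ≠ 0 := neg_ne_zero.mpr hy0
    have h4 := hv.add h2 hny (by rw [add_neg_cancel_right]; exact hx)
    rw [add_neg_cancel_right, hv.neg hy0] at h4
    rcases le_total (v (x + y)) (v y) with h5 | h5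
    · rw [min_eq_left h5] at h4
      exact le_antisymm h4 h3
    · rw [min_eq_right h5] at h4
      omega

theorem le_gv_iff {n c : ℤ} {F : K[X]} (hF : F ≠ 0) :
    c ≤ gv v n F ↔ ∀ j : ℕ, F.coeff j ≠ 0 → c + (j : ℤ) * n ≤ v (F.coeff j) := by
  unfold gv
  rw [dif_neg hF, Finset.le_inf'_iff]
  constructor
  · intro h j hj
    have := h j (mem_support_iff.mpr hj)
    omega
  · intro h j hj
    have := h j (mem_support_iff.mp hj)
    omega

theorem gv_le {n : ℤ} {F : K[X]} {j : ℕ} (hj : F.coeff j ≠ 0) :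
    gv v n F + (j : ℤ) * n ≤ v (F.coeff j) := by
  have hF : F ≠ 0 := by
    rintro rfl
    exact hj (coeff_zero j)
  exact (le_gv_iff hF).mp le_rfl j hj

theorem exists_gv {n : ℤ} {F : K[X]} (hF : F ≠ 0) :
    ∃ j : ℕ, F.coeff j ≠ 0 ∧ v (F.coeff j) = gv v n F + (j : ℤ) * n := by
  obtain ⟨j, hj, h⟩ := Finset.exists_mem_eq_inf' (support_nonempty.mpr hF)
    (fun j => v (F.coeff j) - (j : ℤ) * n)
  refine ⟨j, mem_support_iff.mp hj, ?_⟩
  unfold gv
  rw [dif_neg hF, h]
  ring

/-- Gauss' lemma. -/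
theorem gv_mul (hv : IsOrd v) (n : ℤ) {F G : K[X]} (hF : F ≠ 0) (hG : G ≠ 0) :
    gv v n (F * G) = gv v n F + gv v n G := by
  classical
  have hFG : F * G ≠ 0 := mul_ne_zero hF hG
  apply le_antisymm
  · have eF : ∃ i, F.coeff i ≠ 0 ∧ v (F.coeff i) = gv v n F + (i : ℤ) * n := exists_gv hF
    have eG : ∃ j, G.coeff j ≠ 0 ∧ v (G.coeff j) = gv v n G + (j : ℤ) * n := exists_gv hG
    obtain ⟨hi0, hi⟩ := Nat.find_spec eF
    obtain ⟨hj0, hj⟩ := Nat.find_spec eG
    set i := Nat.find eF with hidef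
    set j := Nat.find eG with hjdef
    have hi' : ∀ a < i, F.coeff a ≠ 0 → gv v n F + (a : ℤ) * n < v (F.coeff a) := by
      intro a ha ha0
      have h1 := Nat.find_min eF ha
      have h2 := gv_le (v := v) (n := n) ha0
      push Not at h1
      exact lt_of_le_of_ne h2 (Ne.symm (h1 ha0))
    have hj' : ∀ b < j, G.coeff b ≠ 0 → gv v n G + (b : ℤ) * n < v (G.coeff b) := by
      intro b hb hb0
      have h1 := Nat.find_min eG hb
      have h2 := gv_le (v := v) (n := n) hb0
      push Not at h1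
      exact lt_of_le_of_ne h2 (Ne.symm (h1 hb0))
    have hmem : (i, j) ∈ Finset.HasAntidiagonal.antidiagonal (i + j) := by simp
    have hx : F.coeff i * G.coeff j ≠ 0 := mul_ne_zero hi0 hj0
    have hvx : v (F.coeff i * G.coeff j) = gv v n F + gv v n G + ((i + j : ℕ) : ℤ) * n := by
      rw [hv.mul hi0 hj0, hi, hj]
      push_cast
      ring
    have hcoeff : (F * G).coeff (i + j) = F.coeff i * G.coeff j +
        ∑ x ∈ (Finset.HasAntidiagonal.antidiagonal (i + j)).erase (i, j), F.coeff x.1 * G.coeff x.2 := by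
      rw [coeff_mul, ← Finset.add_sum_erase _ _ hmem]
    have hlt := hv.add_of_lt hx (y := ∑ x ∈ (Finset.HasAntidiagonal.antidiagonal (i + j)).erase (i, j),
      F.coeff x.1 * G.coeff x.2) (by
        intro h0
        rw [hvx]
        have h1 := hv.sum ((Finset.HasAntidiagonal.antidiagonal (i + j)).erase (i, j))
          (fun x => F.coeff x.1 * G.coeff x.2)
          (gv v n F + gv v n G + ((i + j : ℕ) : ℤ) * n + 1) (by
            rintro ⟨a, b⟩ hab h2
            rw [Finset.mem_erase, Finset.HasAntidiagonal.mem_antidiagonal] at hab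
            obtain ⟨hne, hsum⟩ := hab
            simp only at hsum h2 ⊢
            have ha0 : F.coeff a ≠ 0 := left_ne_zero_of_mul h2
            have hb0 : G.coeff b ≠ 0 := right_ne_zero_of_mul h2
            rw [hv.mul ha0 hb0]
            have h3 := gv_le (v := v) (n := n) ha0
            have h4 := gv_le (v := v) (n := n) hb0
            have h5 : ((i + j : ℕ) : ℤ) * n = (a : ℤ) * n + (b : ℤ) * n := by
              rw [← hsum]
              push_cast
              ring
            rw [h5]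
            rcases Nat.lt_trichotomy a i with h6 | h6 | h6
            · have := hi' a h6 ha0
              omega
            · exfalso
              apply hne
              rw [h6] at hsum ⊢
              have : b = j := by omega
              rw [this]
            · have := hj' b (by omega) hb0
              omega) h0
        omega)
    rw [← hcoeff] at hlt
    have h6 := gv_le (v := v) (n := n) hlt.1
    rw [hlt.2, hvx] at h6
    omega
  · rw [le_gv_iff hFG]
    intro k hk
    rw [coeff_mul] at hk ⊢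
    apply hv.sum _ _ _ _ hk
    rintro ⟨a, b⟩ hab h2
    rw [Finset.HasAntidiagonal.mem_antidiagonal] at hab
    simp only at hab h2 ⊢
    have ha0 : F.coeff a ≠ 0 := left_ne_zero_of_mul h2
    have hb0 : G.coeff b ≠ 0 := right_ne_zero_of_mul h2
    rw [hv.mul ha0 hb0]
    have h3 := gv_le (v := v) (n := n) ha0
    have h4 := gv_le (v := v) (n := n) hb0
    have h5 : (k : ℤ) * n = (a : ℤ) * n + (b : ℤ) * n := by
      rw [← hab]
      push_cast
      ring
    omega

theorem gv_C (n : ℤ) {c : K} (hc : c ≠ 0) : gv v n (C c) = v c := by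
  have hC : (C c : K[X]) ≠ 0 := C_ne_zero.mpr hc
  obtain ⟨j, hj, h⟩ := exists_gv (v := v) (n := n) hC
  have hj0 : j = 0 := by
    by_contra h0
    exact hj (coeff_C_of_ne_zero h0)
  subst hj0
  rw [coeff_C_zero] at h
  simp at h
  exact h.symm

theorem gv_X (hv : IsOrd v) (n : ℤ) : gv v n (X : K[X]) = - n := by
  obtain ⟨j, hj, h⟩ := exists_gv (v := v) (n := n) (X_ne_zero (R := K))
  have hj1 : j = 1 := by
    by_contra h0
    exact hj (coeff_X_of_ne_one h0)
  subst hj1
  rw [coeff_X_one, hv.one] at h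
  push_cast at h
  omega

/-- finite sums of polynomials -/
theorem gv_sum_Gauss (hv : IsOrd v) {ι : Type*} (s : Finset ι) (f : ι → K[X]) (n c : ℤ)
    (h : ∀ i ∈ s, f i ≠ 0 → c ≤ gv v n (f i)) (h0 : ∑ i ∈ s, f i ≠ 0) :
    c ≤ gv v n (∑ i ∈ s, f i) := by
  rw [le_gv_iff h0]
  intro j hj
  rw [finsetSum_coeff] at hj ⊢
  apply hv.sum _ _ _ _ hj
  intro i hi hij
  have h1 : f i ≠ 0 := by
    intro h2
    rw [h2, coeff_zero] at hij
    exact hij rfl
  exact (le_gv_iff h1).mp (h i hi h1) j hij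

theorem gv_X_add_C_Gauss (hv : IsOrd v) {c : K} (hc : c ≠ 0 → 0 ≤ v c) :
    gv v 0 (X + C c : K[X]) = 0 := by
  have h0 : (X + C c : K[X]) ≠ 0 := X_add_C_ne_zero c
  apply le_antisymm
  · have h1 : (X + C c : K[X]).coeff 1 = 1 := by simp
    have h2 := gv_le (v := v) (n := 0) (F := X + C c) (j := 1) (by rw [h1]; exact one_ne_zero)
    rw [h1, hv.one] at h2
    omega
  · rw [le_gv_iff h0]
    intro j hj
    rcases j with _ | _ | j
    · have h1 : (X + C c : K[X]).coeff 0 = c := by simp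
      rw [h1] at hj ⊢
      have := hc hj
      omega
    · have h1 : (X + C c : K[X]).coeff 1 = 1 := by simp
      simp only [zero_add]
      rw [h1, hv.one]
      omega
    · exfalso
      apply hj
      simp [coeff_X]

theorem gv_pow_Gauss (hv : IsOrd v) (n : ℤ) {F : K[X]} (hF : F ≠ 0) (k : ℕ) :
    gv v n (F ^ k) = k * gv v n F := by
  induction k with
  | zero =>
    have h1 : (1 : K[X]) = C 1 := by simp
    rw [pow_zero, h1, gv_C n one_ne_zero, hv.one]
    simp
  | succ k ih =>
    rw [pow_succ, gv_mul hv n (pow_ne_zero k hF) hF, ih]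
    push_cast
    ring

theorem taylor_ne_zero_Gauss {c : K} {F : K[X]} (hF : F ≠ 0) : taylor c F ≠ 0 := by
  intro h
  apply hF
  apply taylor_injective c
  rw [h, map_zero]

theorem gv_le_taylor_Gauss (hv : IsOrd v) {c : K} (hc : c ≠ 0 → 0 ≤ v c) {F : K[X]}
    (hF : F ≠ 0) : gv v 0 F ≤ gv v 0 (taylor c F) := by
  have h0 := taylor_ne_zero_Gauss (c := c) hF
  have h1 : taylor c F = ∑ i ∈ F.support, C (F.coeff i) * (X + C c) ^ i := by
    rw [taylor_apply, comp, eval₂_eq_sum, Polynomial.sum]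
  rw [h1] at h0 ⊢
  apply gv_sum_Gauss hv _ _ _ _ _ h0
  intro i hi _
  have hi0 : F.coeff i ≠ 0 := mem_support_iff.mp hi
  have h2 : (X + C c : K[X]) ≠ 0 := X_add_C_ne_zero c
  rw [gv_mul hv 0 (C_ne_zero.mpr hi0) (pow_ne_zero i h2), gv_C 0 hi0, gv_pow_Gauss hv 0 h2,
    gv_X_add_C_Gauss hv hc]
  have h3 := gv_le (v := v) (n := 0) hi0
  omega

/-- The untwisted Gauss order is invariant under translation by an integral element. -/
theorem gv_taylor (hv : IsOrd v) {c : K} (hc : c ≠ 0 → 0 ≤ v c) {F : K[X]} (hF : F ≠ 0) :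
    gv v 0 (taylor c F) = gv v 0 F := by
  apply le_antisymm
  · have hc' : -c ≠ 0 → 0 ≤ v (-c) := by
      intro h
      have h1 : c ≠ 0 := neg_ne_zero.mp h
      rw [hv.neg h1]
      exact hc h1
    have h := gv_le_taylor_Gauss hv hc' (taylor_ne_zero_Gauss (c := c) hF)
    rw [taylor_taylor, neg_add_cancel, taylor_zero] at h
    exact h
  · exact gv_le_taylor_Gauss hv hc hF

theorem oo_mul (hv : IsOrd v) (c : K) {F G : K[X]} (hF : F ≠ 0) (hG : G ≠ 0) :
    oo v c (F * G) = oo v c F + oo v c G := by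
  unfold oo
  rw [taylor_mul, gv_mul hv _ (taylor_ne_zero_Gauss hF) (taylor_ne_zero_Gauss hG)]

theorem mu_mul (hv : IsOrd v) (c : K) {F G : K[X]} (hF : F ≠ 0) (hG : G ≠ 0) :
    mu v c (F * G) = mu v c F + mu v c G := by
  unfold mu
  rw [oo_mul hv c hF hG, gv_mul hv 0 hF hG]
  ring

theorem mu_nonneg (hv : IsOrd v) {c : K} (hc : c ≠ 0 → 0 ≤ v c) {F : K[X]} (hF : F ≠ 0) :
    0 ≤ mu v c F := by
  unfold mu oo
  rw [sub_nonneg, ← gv_taylor hv hc hF, le_gv_iff (taylor_ne_zero_Gauss hF)]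
  intro j hj
  have h := gv_le (v := v) (n := 0) hj
  omega

/-- Restriction to the fibre: the multiplicity is at most the degree. -/
theorem mu_le_natDegree (hv : IsOrd v) {c : K} (hc : c ≠ 0 → 0 ≤ v c) {F : K[X]} (hF : F ≠ 0) :
    mu v c F ≤ F.natDegree := by
  unfold mu oo
  obtain ⟨j, hj, h⟩ := exists_gv (v := v) (n := 0) (taylor_ne_zero_Gauss (c := c) hF)
  rw [gv_taylor hv hc hF] at h
  have h1 := gv_le (v := v) (n := -1) hj
  have h2 := le_natDegree_of_ne_zero hj
  rw [natDegree_taylor] at h2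
  omega

theorem mu_C (hv : IsOrd v) (c : K) {a : K} (ha : a ≠ 0) : mu v c (C a) = 0 := by
  unfold mu oo
  rw [taylor_C, gv_C _ ha, gv_C _ ha, sub_self]

theorem mu_X (hv : IsOrd v) {c : K} (hc : c ≠ 0) (hc0 : v c = 0) : mu v c (X : K[X]) = 0 := by
  unfold mu oo
  rw [taylor_X, gv_X hv]
  have h0 : (X + C c : K[X]) ≠ 0 := X_add_C_ne_zero c
  have h1 : gv v (-1) (X + C c : K[X]) = 0 := by
    apply le_antisymm
    · have h1 : (X + C c : K[X]).coeff 0 = c := by simp
      have h2 := gv_le (v := v) (n := -1) (F := X + C c) (j := 0) (by rw [h1]; exact hc)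
      rw [h1, hc0] at h2
      omega
    · rw [le_gv_iff h0]
      intro j hj
      rcases j with _ | _ | j
      · have h1 : (X + C c : K[X]).coeff 0 = c := by simp
        rw [h1, hc0]
        norm_num
      · have h1 : (X + C c : K[X]).coeff 1 = 1 := by simp
        simp only [zero_add]
        rw [h1, hv.one]
        norm_num
      · exfalso
        apply hj
        simp [coeff_X]
  rw [h1]
  rfl

end ShghE
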