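import Pool.Agent.ShghE.CurveA
import Pool.Agent.ShghE.Gauss

/-!
# Orders on the function field of `y² = x³ + x` and the product formula

Product formula for `r ∈ R0`: `Σ_p v_p(r) = dg r`. Proof: conjugation `y ↦ -y` permutes the primes, so
`2 Σ v_p(r) = Σ v_p(r r̄) = Σ v_p(norm r)`, the norm is a product of linear factors `X - a` and
`Σ_p v_p (X - a) = 2` since `(X - a) = XYIdeal a b * XYIdeal a (-b)` (`XYIdeal_neg_mul`).
-/

namespace ShghE

open WeierstrassCurve WeierstrassCurve.Affine IsDedekindDomain nonZeroDivisors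

variable {k : Type*} [Field k]

section
variable [IsDedekindDomain (R0 k)]

/-- order at a prime -/
noncomputable def vA (p : HeightOneSpectrum (R0 k)) (x : K0 k) : ℤ :=
  FractionalIdeal.count (K0 k) p (FractionalIdeal.spanSingleton (R0 k)⁰ x)

private lemma vA_mul (p : HeightOneSpectrum (R0 k)) {x y : K0 k} (hx : x ≠ 0) (hy : y ≠ 0) :
    vA p (x * y) = vA p x + vA p y := by
  rw [vA, ← FractionalIdeal.spanSingleton_mul_spanSingleton,
    FractionalIdeal.count_mul (K0 k) p (FractionalIdeal.spanSingleton_ne_zero_iff.mpr hx)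
      (FractionalIdeal.spanSingleton_ne_zero_iff.mpr hy)]
  rfl

private lemma vA_algebraMap (p : HeightOneSpectrum (R0 k)) (r : R0 k) :
    vA p (algebraMap (R0 k) (K0 k) r) =
      FractionalIdeal.count (K0 k) p ((Ideal.span {r} : Ideal (R0 k)) :
        FractionalIdeal (R0 k)⁰ (K0 k)) := by
  rw [vA, FractionalIdeal.coeIdeal_span_singleton]

theorem vA_fin {x : K0 k} (hx : x ≠ 0) : {p | vA p x ≠ 0}.Finite := by
  have _ := hx
  have h := FractionalIdeal.finite_factors (K := K0 k)
    (FractionalIdeal.spanSingleton (R0 k)⁰ x)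
  rw [Filter.eventually_cofinite] at h
  exact h

theorem vA_mem_iff (p : HeightOneSpectrum (R0 k)) {r : R0 k} (hr : r ≠ 0) (m : ℕ) :
    r ∈ p.asIdeal ^ m ↔ (m : ℤ) ≤ vA p (algebraMap (R0 k) (K0 k) r) := by
  classical
  have h0 : (Ideal.span {r} : Ideal (R0 k)) ≠ 0 := by
    rw [Ideal.zero_eq_bot, Ne, Ideal.span_singleton_eq_bot]; exact hr
  rw [vA_algebraMap, FractionalIdeal.count_coe (K0 k) p h0, Nat.cast_le,
    ← Associates.prime_pow_dvd_iff_le (Associates.mk_ne_zero.mpr h0) p.associates_irreducible,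
    ← Associates.mk_pow, Associates.mk_le_mk_iff_dvd, Ideal.dvd_iff_le,
    Ideal.span_singleton_le_iff_mem]

theorem vA_mem (p : HeightOneSpectrum (R0 k)) {r : R0 k} (hr : r ≠ 0) (m : ℕ)
    (h : r ∈ p.asIdeal ^ m) : (m : ℤ) ≤ vA p (algebraMap (R0 k) (K0 k) r) :=
  (vA_mem_iff p hr m).mp h

private lemma vA_nonneg (p : HeightOneSpectrum (R0 k)) (r : R0 k) :
    0 ≤ vA p (algebraMap (R0 k) (K0 k) r) := by
  rw [vA_algebraMap]
  exact FractionalIdeal.count_coe_nonneg (K0 k) p _

omit [IsDedekindDomain (R0 k)] in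
private lemma exists_frac (x y : K0 k) : ∃ a b s : R0 k, s ≠ 0 ∧
    x * algebraMap (R0 k) (K0 k) s = algebraMap (R0 k) (K0 k) a ∧
    y * algebraMap (R0 k) (K0 k) s = algebraMap (R0 k) (K0 k) b := by
  obtain ⟨⟨a, s⟩, h1⟩ := IsLocalization.surj (R0 k)⁰ x
  obtain ⟨⟨b, t⟩, h2⟩ := IsLocalization.surj (R0 k)⁰ y
  refine ⟨a * t, b * s, s * t, mul_ne_zero (nonZeroDivisors.ne_zero s.2)
    (nonZeroDivisors.ne_zero t.2), ?_, ?_⟩
  · simp only at h1
    rw [map_mul, ← mul_assoc, h1, map_mul]
  · simp only at h2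
    rw [map_mul, map_mul, ← h2]; ring

theorem isOrd_vA (p : HeightOneSpectrum (R0 k)) : IsOrd (vA p) := by
  refine ⟨fun hx hy => vA_mul p hx hy, ?_⟩
  intro x y hx hy hxy
  obtain ⟨a, b, s, hs, h1, h2⟩ := exists_frac x y
  have hs' : algebraMap (R0 k) (K0 k) s ≠ 0 := by
    rwa [Ne, IsFractionRing.to_map_eq_zero_iff]
  have ha : a ≠ 0 := by
    rintro rfl
    rw [map_zero] at h1
    exact (mul_ne_zero hx hs') h1
  have hb : b ≠ 0 := by
    rintro rfl
    rw [map_zero] at h2
    exact (mul_ne_zero hy hs') h2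
  have h3 : (x + y) * algebraMap (R0 k) (K0 k) s = algebraMap (R0 k) (K0 k) (a + b) := by
    rw [add_mul, h1, h2, map_add]
  have hab : a + b ≠ 0 := by
    intro h
    rw [h, map_zero] at h3
    exact (mul_ne_zero hxy hs') h3
  have e1 : vA p x + vA p (algebraMap (R0 k) (K0 k) s) = vA p (algebraMap (R0 k) (K0 k) a) := by
    rw [← vA_mul p hx hs', h1]
  have e2 : vA p y + vA p (algebraMap (R0 k) (K0 k) s) = vA p (algebraMap (R0 k) (K0 k) b) := by
    rw [← vA_mul p hy hs', h2]
  have e3 : vA p (x + y) + vA p (algebraMap (R0 k) (K0 k) s) =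
      vA p (algebraMap (R0 k) (K0 k) (a + b)) := by
    rw [← vA_mul p hxy hs', h3]
  obtain ⟨m, hm⟩ := Int.eq_ofNat_of_zero_le (le_min (vA_nonneg p a) (vA_nonneg p b))
  have hma : a ∈ p.asIdeal ^ m := (vA_mem_iff p ha m).mpr (by
    have := min_le_left (vA p (algebraMap (R0 k) (K0 k) a)) (vA p (algebraMap (R0 k) (K0 k) b))
    omega)
  have hmb : b ∈ p.asIdeal ^ m := (vA_mem_iff p hb m).mpr (by
    have := min_le_right (vA p (algebraMap (R0 k) (K0 k) a)) (vA p (algebraMap (R0 k) (K0 k) b))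
    omega)
  have h4 := vA_mem p hab m (Ideal.add_mem _ hma hmb)
  rw [← hm] at h4
  have h5 : min (vA p x) (vA p y) + vA p (algebraMap (R0 k) (K0 k) s) =
      min (vA p (algebraMap (R0 k) (K0 k) a)) (vA p (algebraMap (R0 k) (K0 k) b)) := by
    rw [← e1, ← e2, min_add_add_right]
  linarith

end


private lemma dg_one : dg (1 : R0 k) = 0 := by
  rw [dg, map_one, Polynomial.natDegree_one]

private lemma algMap_ne {r : R0 k} (hr : r ≠ 0) : algebraMap (R0 k) (K0 k) r ≠ 0 := by
  rwa [Ne, IsFractionRing.to_map_eq_zero_iff]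

/-- order at infinity -/
theorem exists_vInf (k : Type*) [Field k] : ∃ vI : K0 k → ℤ, IsOrd vI ∧
    ∀ r : R0 k, r ≠ 0 → vI (algebraMap (R0 k) (K0 k) r) = - (dg r : ℤ) := by
  classical
  have hex : ∀ x : K0 k, ∃ a s : R0 k, s ≠ 0 ∧
      x * algebraMap (R0 k) (K0 k) s = algebraMap (R0 k) (K0 k) a := by
    intro x
    obtain ⟨⟨a, s⟩, h1⟩ := IsLocalization.surj (R0 k)⁰ x
    exact ⟨a, s, nonZeroDivisors.ne_zero s.2, h1⟩
  choose A S hS hAS using hex
  have hA : ∀ x : K0 k, x ≠ 0 → A x ≠ 0 := by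
    intro x hx h
    have := hAS x
    rw [h, map_zero] at this
    exact mul_ne_zero hx (algMap_ne (hS x)) this
  let vI : K0 k → ℤ := fun x => (dg (S x) : ℤ) - dg (A x)
  -- well defined
  have hwd : ∀ (x : K0 k) (a s : R0 k), x ≠ 0 → s ≠ 0 →
      x * algebraMap (R0 k) (K0 k) s = algebraMap (R0 k) (K0 k) a →
      vI x = (dg s : ℤ) - dg a := by
    intro x a s hx hs h
    have ha : a ≠ 0 := by
      rintro rfl
      rw [map_zero] at h
      exact mul_ne_zero hx (algMap_ne hs) h
    have h1 : A x * s = a * S x := by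
      apply IsFractionRing.injective (R0 k) (K0 k)
      rw [map_mul, map_mul, ← hAS x, ← h]; ring
    have h2 := congrArg dg h1
    rw [dg_mul (hA x hx) hs, dg_mul ha (hS x)] at h2
    have h3 : (dg (A x) : ℤ) + dg s = dg a + dg (S x) := by exact_mod_cast h2
    simp only [vI]
    linarith
  refine ⟨vI, ⟨?_, ?_⟩, ?_⟩
  · intro x y hx hy
    have h1 : x * y * algebraMap (R0 k) (K0 k) (S x * S y) =
        algebraMap (R0 k) (K0 k) (A x * A y) := by
      rw [map_mul, map_mul, ← hAS x, ← hAS y]; ring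
    rw [hwd (x * y) _ _ (mul_ne_zero hx hy) (mul_ne_zero (hS x) (hS y)) h1,
      dg_mul (hS x) (hS y), dg_mul (hA x hx) (hA y hy)]
    simp only [vI]
    push_cast
    ring
  · intro x y hx hy hxy
    have h1 : (x + y) * algebraMap (R0 k) (K0 k) (S x * S y) =
        algebraMap (R0 k) (K0 k) (A x * S y + A y * S x) := by
      rw [map_mul, map_add, map_mul, map_mul, ← hAS x, ← hAS y]; ring
    have h2 : A x * S y + A y * S x ≠ 0 := by
      intro h
      rw [h, map_zero] at h1
      exact mul_ne_zero hxy (algMap_ne (mul_ne_zero (hS x) (hS y))) h1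
    rw [hwd (x + y) _ _ hxy (mul_ne_zero (hS x) (hS y)) h1, dg_mul (hS x) (hS y)]
    have h3 := dg_add h2
    rw [dg_mul (hA x hx) (hS y), dg_mul (hA y hy) (hS x)] at h3
    have h4 : (dg (A x * S y + A y * S x) : ℤ) ≤
        max ((dg (A x) : ℤ) + dg (S y)) ((dg (A y) : ℤ) + dg (S x)) := by exact_mod_cast h3
    simp only [vI]
    push_cast
    rcases le_total ((dg (A x) : ℤ) + dg (S y)) ((dg (A y) : ℤ) + dg (S x)) with h | h
    · rw [max_eq_right h] at h4
      refine (min_le_right _ _).trans ?_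
      linarith
    · rw [max_eq_left h] at h4
      refine (min_le_left _ _).trans ?_
      linarith
  · intro r hr
    rw [hwd (algebraMap (R0 k) (K0 k) r) r 1 (algMap_ne hr) one_ne_zero (by rw [map_one, mul_one]),
      dg_one]
    simp

noncomputable def vInf (k : Type*) [Field k] : K0 k → ℤ := (exists_vInf k).choose

theorem isOrd_vInf : IsOrd (vInf k) := (exists_vInf k).choose_spec.1

theorem vInf_algebraMap {r : R0 k} (hr : r ≠ 0) :
    vInf k (algebraMap (R0 k) (K0 k) r) = - (dg r : ℤ) := (exists_vInf k).choose_spec.2 r hr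

/-! ### The product formula -/

private lemma poly_E0 : (E0 k).polynomial =
    Polynomial.X ^ 2 - Polynomial.C (Polynomial.X ^ 3 + Polynomial.X) := by
  simp [WeierstrassCurve.Affine.polynomial]

private lemma yR_sq : yR k ^ 2 = algebraMap (Polynomial k) (R0 k) (Polynomial.X ^ 3 + Polynomial.X) := by
  have h : AdjoinRoot.mk (E0 k).polynomial (E0 k).polynomial = 0 := AdjoinRoot.mk_self
  conv at h => lhs; arg 2; rw [poly_E0]
  rw [map_sub, map_pow, sub_eq_zero] at h
  exact h

private lemma conj_eval (P : Polynomial (Polynomial k))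
    (hP : P = Polynomial.X ^ 2 - Polynomial.C (Polynomial.X ^ 3 + Polynomial.X)) :
    Polynomial.eval₂ (Algebra.ofId (Polynomial k) (R0 k) : Polynomial k →+* R0 k) (-(yR k)) P
      = 0 := by
  subst hP
  rw [Polynomial.eval₂_sub, Polynomial.eval₂_pow, Polynomial.eval₂_X,
    Polynomial.eval₂_C, neg_sq, yR_sq, sub_eq_zero]
  rfl

/-- conjugation `y ↦ -y` -/
private noncomputable def conjH : R0 k →ₐ[Polynomial k] R0 k :=
  AdjoinRoot.liftAlgHom _ (Algebra.ofId (Polynomial k) (R0 k)) (-(yR k)) (conj_eval _ poly_E0)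

private lemma conjH_y : conjH (yR k) = -(yR k) := AdjoinRoot.liftAlgHom_root _ _ _ _

private lemma conjH_apply (p q : Polynomial k) :
    conjH (p • (1 : R0 k) + q • yR k) = p • (1 : R0 k) - q • yR k := by
  rw [map_add, map_smul, map_smul, map_one, conjH_y, smul_neg, sub_eq_add_neg]

private lemma conjH_conjH (r : R0 k) : conjH (conjH r) = r := by
  obtain ⟨p, q, rfl⟩ := CoordinateRing.exists_smul_basis_eq r
  change conjH (conjH (p • (1 : R0 k) + q • yR k)) = p • (1 : R0 k) + q • yR k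
  rw [conjH_apply, map_sub, map_smul, map_smul, map_one, conjH_y, smul_neg, sub_neg_eq_add]

private lemma mul_conjH (r : R0 k) :
    r * conjH r = algebraMap (Polynomial k) (R0 k) (Algebra.norm (Polynomial k) r) := by
  obtain ⟨p, q, rfl⟩ := CoordinateRing.exists_smul_basis_eq r
  rw [CoordinateRing.norm_smul_basis]
  change (p • (1 : R0 k) + q • yR k) * conjH (p • (1 : R0 k) + q • yR k) = _
  rw [conjH_apply, Algebra.smul_def, Algebra.smul_def, mul_one]
  have e : (algebraMap (Polynomial k) (R0 k) p + algebraMap (Polynomial k) (R0 k) q * yR k) *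
      (algebraMap (Polynomial k) (R0 k) p - algebraMap (Polynomial k) (R0 k) q * yR k) =
      algebraMap (Polynomial k) (R0 k) p ^ 2 -
        algebraMap (Polynomial k) (R0 k) q ^ 2 * yR k ^ 2 := by ring
  rw [e, yR_sq]
  simp

/-- conjugation as an equivalence -/
private noncomputable def conjE : R0 k ≃+* R0 k where
  toFun := conjH
  invFun := conjH
  left_inv := conjH_conjH
  right_inv := conjH_conjH
  map_mul' := map_mul _
  map_add' := map_add _

section product

variable [IsDedekindDomain (R0 k)]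

/-- number of prime factors of an ideal -/
private noncomputable def DD (I : Ideal (R0 k)) : ℤ :=
  ∑ᶠ p : HeightOneSpectrum (R0 k), FractionalIdeal.count (K0 k) p (I : FractionalIdeal (R0 k)⁰ (K0 k))

private lemma DD_mul {I J : Ideal (R0 k)} (hI : I ≠ ⊥) (hJ : J ≠ ⊥) :
    DD (I * J) = DD I + DD J := by
  have h1 : (I : FractionalIdeal (R0 k)⁰ (K0 k)) ≠ 0 := FractionalIdeal.coeIdeal_ne_zero.mpr hI
  have h2 : (J : FractionalIdeal (R0 k)⁰ (K0 k)) ≠ 0 := FractionalIdeal.coeIdeal_ne_zero.mpr hJ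
  rw [DD, DD, DD, ← finsum_add_distrib]
  · refine finsum_congr fun p => ?_
    rw [FractionalIdeal.coeIdeal_mul, FractionalIdeal.count_mul (K0 k) p h1 h2]
  · have := FractionalIdeal.finite_factors (K := K0 k) (I : FractionalIdeal (R0 k)⁰ (K0 k))
    rw [Filter.eventually_cofinite] at this
    exact this
  · have := FractionalIdeal.finite_factors (K := K0 k) (J : FractionalIdeal (R0 k)⁰ (K0 k))
    rw [Filter.eventually_cofinite] at this
    exact this

private lemma DD_top : DD (⊤ : Ideal (R0 k)) = 0 := by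
  rw [DD, FractionalIdeal.coeIdeal_top]
  simp [FractionalIdeal.count_one]

private lemma DD_prime {P : Ideal (R0 k)} (hP : P.IsPrime) (h0 : P ≠ ⊥) : DD P = 1 := by
  classical
  let v : HeightOneSpectrum (R0 k) := ⟨P, hP, h0⟩
  have h : ∀ p : HeightOneSpectrum (R0 k),
      FractionalIdeal.count (K0 k) p (P : FractionalIdeal (R0 k)⁰ (K0 k)) =
        if p = v then 1 else 0 := by
    intro p
    have := FractionalIdeal.count_maximal (K0 k) p v
    rw [show (P : Ideal (R0 k)) = v.asIdeal from rfl, this]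
    by_cases hh : p = v
    · simp [hh]
    · rw [if_neg hh, if_neg (Ne.symm hh)]
  rw [DD, finsum_congr h, finsum_eq_single _ v (fun p hp => if_neg hp), if_pos rfl]

omit [IsDedekindDomain (R0 k)] in
private lemma map_conj_ne {I : Ideal (R0 k)} (h : I ≠ ⊥) : Ideal.map (conjE (k := k)) I ≠ ⊥ := by
  rw [Ne, Ideal.map_eq_bot_iff_of_injective (conjE (k := k)).injective]
  exact h

private lemma DD_conj (I : Ideal (R0 k)) (hI : I ≠ ⊥) : DD (Ideal.map (conjE (k := k)) I) = DD I := by
  revert hI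
  refine UniqueFactorizationMonoid.induction_on_prime I ?_ ?_ ?_
  · intro h; exact absurd rfl h
  · intro J hJ _
    rw [Ideal.isUnit_iff] at hJ
    rw [hJ, Ideal.map_top]
  · intro a p ha hp ih hpa
    have hp0 : p ≠ ⊥ := hp.ne_zero
    have ha0 : a ≠ ⊥ := ha
    have hpp : p.IsPrime := Ideal.isPrime_of_prime hp
    have hpp' : (Ideal.map (conjE (k := k)) p).IsPrime := Ideal.map_isPrime_of_equiv _
    rw [Ideal.map_mul, DD_mul (map_conj_ne hp0) (map_conj_ne ha0), DD_mul hp0 ha0, ih ha0,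
      DD_prime hpp hp0, DD_prime hpp' (map_conj_ne hp0)]

omit [IsDedekindDomain (R0 k)] in
private lemma span_ne_bot {r : R0 k} (hr : r ≠ 0) : (Ideal.span {r} : Ideal (R0 k)) ≠ ⊥ := by
  rw [Ne, Ideal.span_singleton_eq_bot]; exact hr

omit [IsDedekindDomain (R0 k)] in
private lemma conjH_ne {r : R0 k} (hr : r ≠ 0) : conjH r ≠ 0 := by
  intro h
  apply hr
  rw [← conjH_conjH r, h, map_zero]

private lemma DD_norm {r : R0 k} (hr : r ≠ 0) :
    2 * DD (Ideal.span {r}) = DD (Ideal.span
      {algebraMap (Polynomial k) (R0 k) (Algebra.norm (Polynomial k) r)}) := by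
  have h1 : Ideal.map (conjE (k := k)) (Ideal.span {r}) = Ideal.span {conjH r} := by
    rw [Ideal.map_span, Set.image_singleton]; rfl
  rw [← mul_conjH, ← Ideal.span_singleton_mul_span_singleton,
    DD_mul (span_ne_bot hr) (span_ne_bot (conjH_ne hr)), ← h1, DD_conj _ (span_ne_bot hr)]
  ring

private lemma DD_X [IsAlgClosed k] (h2 : (2 : k) ≠ 0) (a : k) :
    DD (Ideal.span {algebraMap (Polynomial k) (R0 k) (Polynomial.X - Polynomial.C a)}) = 2 := by
  obtain ⟨b, hb⟩ := IsAlgClosed.exists_eq_mul_self (a ^ 3 + a)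
  have hns : (E0 k).Nonsingular a b := nonsingular_of_eq h2 (by rw [hb]; ring)
  have hns' : (E0 k).Nonsingular a (-b) := nonsingular_of_eq h2 (by rw [hb]; ring)
  have h := CoordinateRing.XYIdeal_neg_mul hns
  have hneg : (E0 k).negY a b = -b := by
    rw [WeierstrassCurve.Affine.negY]; ring
  rw [hneg] at h
  have h3 : Ideal.span {algebraMap (Polynomial k) (R0 k) (Polynomial.X - Polynomial.C a)} =
      (hOne hns').asIdeal * (hOne hns).asIdeal := h.symm
  rw [h3, DD_mul (hOne hns').ne_bot (hOne hns).ne_bot,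
    DD_prime (hOne hns').isPrime (hOne hns').ne_bot, DD_prime (hOne hns).isPrime (hOne hns).ne_bot]
  norm_num

omit [IsDedekindDomain (R0 k)] in
private lemma algPoly_ne {f : Polynomial k} (hf : f ≠ 0) :
    algebraMap (Polynomial k) (R0 k) f ≠ 0 := by
  rw [Ne, FaithfulSMul.algebraMap_eq_zero_iff]
  exact hf

private lemma DD_poly [IsAlgClosed k] (h2 : (2 : k) ≠ 0) (n : ℕ) :
    ∀ f : Polynomial k, f ≠ 0 → f.natDegree = n →
      DD (Ideal.span {algebraMap (Polynomial k) (R0 k) f}) = 2 * n := by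
  induction n with
  | zero =>
    intro f hf hn
    have hu : IsUnit f := by
      rw [Polynomial.isUnit_iff_degree_eq_zero, Polynomial.degree_eq_natDegree hf, hn]; rfl
    have : IsUnit (algebraMap (Polynomial k) (R0 k) f) := hu.map _
    rw [Ideal.span_singleton_eq_top.mpr this, DD_top]
    simp
  | succ n ih =>
    intro f hf hn
    obtain ⟨a, ha⟩ := IsAlgClosed.exists_root f (by
      rw [Polynomial.degree_eq_natDegree hf, hn]
      exact_mod_cast Nat.succ_ne_zero n)
    obtain ⟨g, hg⟩ := Polynomial.dvd_iff_isRoot.mpr ha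
    have hg0 : g ≠ 0 := by
      rintro rfl
      rw [mul_zero] at hg
      exact hf hg
    have hX : (Polynomial.X - Polynomial.C a) ≠ 0 := Polynomial.X_sub_C_ne_zero a
    have hgn : g.natDegree = n := by
      rw [hg, Polynomial.natDegree_mul hX hg0, Polynomial.natDegree_X_sub_C] at hn
      omega
    rw [hg, map_mul, ← Ideal.span_singleton_mul_span_singleton,
      DD_mul (span_ne_bot (algPoly_ne hX)) (span_ne_bot (algPoly_ne hg0)), DD_X h2,
      ih g hg0 hgn]
    push_cast
    ring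

omit [IsDedekindDomain (R0 k)] in
private lemma norm_ne {r : R0 k} (hr : r ≠ 0) : Algebra.norm (Polynomial k) r ≠ 0 := by
  intro h
  have := mul_conjH r
  rw [h, map_zero] at this
  exact mul_ne_zero hr (conjH_ne hr) this

private lemma DD_span [IsAlgClosed k] (h2 : (2 : k) ≠ 0) {r : R0 k} (hr : r ≠ 0) :
    DD (Ideal.span {r}) = dg r := by
  have h := DD_norm hr
  rw [DD_poly h2 _ _ (norm_ne hr) rfl] at h
  have : (2 : ℤ) * DD (Ideal.span {r}) = 2 * (dg r : ℤ) := h
  linarith

/-- product formula -/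
theorem sum_vA [IsAlgClosed k] (h2 : (2 : k) ≠ 0) {x : K0 k}
    (hx : x ≠ 0) : ∑ᶠ p : HeightOneSpectrum (R0 k), vA p x + vInf k x = 0 := by
  obtain ⟨a, -, s, hs, h1, -⟩ := exists_frac x x
  have hs' := algMap_ne hs
  have ha : a ≠ 0 := by
    rintro rfl
    rw [map_zero] at h1
    exact mul_ne_zero hx hs' h1
  have e1 : ∑ᶠ p : HeightOneSpectrum (R0 k), vA p x + dg s = dg a := by
    have h3 : ∀ r : R0 k, r ≠ 0 → ∑ᶠ p : HeightOneSpectrum (R0 k),
        vA p (algebraMap (R0 k) (K0 k) r) = dg r := by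
      intro r hr
      rw [← DD_span h2 hr, DD]
      exact finsum_congr fun p => vA_algebraMap p r
    rw [← h3 s hs, ← h3 a ha, ← finsum_add_distrib (vA_fin hx) (vA_fin hs')]
    refine finsum_congr fun p => ?_
    rw [← vA_mul p hx hs', h1]
  have e2 : vInf k x + vInf k (algebraMap (R0 k) (K0 k) s) =
      vInf k (algebraMap (R0 k) (K0 k) a) := by
    rw [← isOrd_vInf.mul hx hs', h1]
  rw [vInf_algebraMap hs, vInf_algebraMap ha] at e2
  linarith

end product

end ShghE
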