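import Pool.Agent.ShghE.CurveB

/-!
# Principal divisors

By `Point.toClass` (injective homomorphism `W.Point →+ Additive (ClassGroup R0)`) and the
factorization of fractional ideals.
-/

namespace ShghE

open WeierstrassCurve WeierstrassCurve.Affine IsDedekindDomain nonZeroDivisors

variable {k : Type*} [Field k] [IsAlgClosed k] [DecidableEq k] [IsDedekindDomain (R0 k)]

/-- The prime `p` as a unit of the monoid of fractional ideals. -/
private noncomputable def uPt (p : HeightOneSpectrum (R0 k)) :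
    (FractionalIdeal (R0 k)⁰ (K0 k))ˣ :=
  Units.mk0 (p.asIdeal : FractionalIdeal (R0 k)⁰ (K0 k))
    (FractionalIdeal.coeIdeal_ne_zero.mpr p.ne_bot)

omit [IsAlgClosed k] [DecidableEq k] in
private theorem coe_uPt (p : HeightOneSpectrum (R0 k)) :
    ((uPt p : (FractionalIdeal (R0 k)⁰ (K0 k))ˣ) : FractionalIdeal (R0 k)⁰ (K0 k)) =
      (p.asIdeal : FractionalIdeal (R0 k)⁰ (K0 k)) := rfl

private theorem toClass_ptOf (h2 : (2 : k) ≠ 0) (p : HeightOneSpectrum (R0 k)) :
    Point.toClass (ptOf h2 p) = Additive.ofMul (ClassGroup.mk (K0 k) (uPt p)) := by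
  obtain ⟨a, b, h, rfl⟩ := exists_hOne h2 p
  rw [ptOf_hOne, Point.toClass_some]
  have : CoordinateRing.XYIdeal' (W := E0 k) h = uPt (hOne h) := by
    apply Units.ext
    rw [CoordinateRing.XYIdeal'_eq, coe_uPt]
    rfl
  rw [this]
  rfl

/-- The fractional ideal of a finitely supported divisor, as a unit. -/
private noncomputable def uDiv (d : HeightOneSpectrum (R0 k) →₀ ℤ) :
    (FractionalIdeal (R0 k)⁰ (K0 k))ˣ := d.prod fun p n => uPt p ^ n

omit [IsAlgClosed k] [DecidableEq k] in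
private theorem coe_uDiv (d : HeightOneSpectrum (R0 k) →₀ ℤ) :
    ((uDiv d : (FractionalIdeal (R0 k)⁰ (K0 k))ˣ) : FractionalIdeal (R0 k)⁰ (K0 k)) =
      d.prod fun p n => (p.asIdeal : FractionalIdeal (R0 k)⁰ (K0 k)) ^ n := by
  unfold uDiv Finsupp.prod
  rw [Units.coe_prod]
  refine Finset.prod_congr rfl fun p _ => ?_
  rw [Units.val_zpow_eq_zpow_val, coe_uPt]

private theorem toClass_sum (h2 : (2 : k) ≠ 0) (d : HeightOneSpectrum (R0 k) →₀ ℤ) :
    Point.toClass (d.sum fun p n => n • ptOf h2 p) =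
      Additive.ofMul (ClassGroup.mk (K0 k) (uDiv d)) := by
  unfold uDiv Finsupp.prod Finsupp.sum
  rw [map_sum, map_prod, ofMul_prod]
  refine Finset.sum_congr rfl fun p _ => ?_
  rw [map_zsmul, toClass_ptOf, map_zpow, ofMul_zpow]

omit [IsDedekindDomain (R0 k)] in
private theorem finsum_smul_eq (h2 : (2 : k) ≠ 0) (d : HeightOneSpectrum (R0 k) →₀ ℤ) :
    ∑ᶠ p : HeightOneSpectrum (R0 k), d p • ptOf h2 p = d.sum fun p n => n • ptOf h2 p := by
  unfold Finsupp.sum
  refine finsum_eq_finsetSum_of_support_subset _ ?_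
  intro p hp
  rw [Function.mem_support] at hp
  simp only [Finset.mem_coe, Finsupp.mem_support_iff]
  rintro h0
  exact hp (by rw [h0, zero_smul])

theorem sum_vA_smul (h2 : (2 : k) ≠ 0) {x : K0 k} (hx : x ≠ 0) :
    ∑ᶠ p : HeightOneSpectrum (R0 k), vA p x • ptOf h2 p = 0 := by
  classical
  let d : HeightOneSpectrum (R0 k) →₀ ℤ := Finsupp.onFinset (vA_fin hx).toFinset (fun p => vA p x)
    (fun p hp => by simpa using hp)
  have hd : ∀ p, d p = vA p x := fun p => rfl
  have e1 : ∑ᶠ p : HeightOneSpectrum (R0 k), vA p x • ptOf h2 p =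
      d.sum fun p n => n • ptOf h2 p := finsum_smul_eq h2 d
  rw [e1]
  apply Point.toClass_injective
  rw [toClass_sum, map_zero, ← ofMul_one]
  congr 1
  rw [ClassGroup.mk_eq_one_iff]
  have e2 : ((uDiv d : (FractionalIdeal (R0 k)⁰ (K0 k))ˣ) : FractionalIdeal (R0 k)⁰ (K0 k)) =
      FractionalIdeal.spanSingleton (R0 k)⁰ x := by
    rw [coe_uDiv]
    have hI : FractionalIdeal.spanSingleton (R0 k)⁰ x ≠ 0 :=
      FractionalIdeal.spanSingleton_ne_zero_iff.mpr hx
    rw [← FractionalIdeal.finprod_heightOneSpectrum_factorization' (K := K0 k) hI]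
    unfold Finsupp.prod
    symm
    refine finprod_eq_finsetProd_of_mulSupport_subset _ ?_
    intro p hp
    rw [Function.mem_mulSupport] at hp
    simp only [Finset.mem_coe, Finsupp.mem_support_iff]
    rintro h0
    apply hp
    have : FractionalIdeal.count (K0 k) p (FractionalIdeal.spanSingleton (R0 k)⁰ x) = 0 := h0
    rw [this, zpow_zero]
  rw [e2]
  exact (FractionalIdeal.isPrincipal_iff _).mpr ⟨x, rfl⟩

/-- A divisor on the affine curve whose sum in the group is zero is the divisor of a function. -/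
theorem exists_of_sum (h2 : (2 : k) ≠ 0) (d : HeightOneSpectrum (R0 k) → ℤ)
    (hd : (Function.support d).Finite)
    (h : ∑ᶠ p : HeightOneSpectrum (R0 k), d p • ptOf h2 p = 0) :
    ∃ x : K0 k, x ≠ 0 ∧ ∀ p, vA p x = d p := by
  classical
  let d' : HeightOneSpectrum (R0 k) →₀ ℤ := Finsupp.onFinset hd.toFinset d
    (fun p hp => by simpa using hp)
  have e1 : ∑ᶠ p : HeightOneSpectrum (R0 k), d p • ptOf h2 p =
      d'.sum fun p n => n • ptOf h2 p := finsum_smul_eq h2 d'
  rw [e1] at h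
  have h1 := congrArg (Point.toClass (W := E0 k)) h
  rw [toClass_sum, map_zero, ← ofMul_one] at h1
  have h2' : ClassGroup.mk (K0 k) (uDiv d') = 1 := Additive.ofMul.injective h1
  rw [ClassGroup.mk_eq_one_iff] at h2'
  obtain ⟨x, hx⟩ := (FractionalIdeal.isPrincipal_iff _).mp h2'
  have hx0 : x ≠ 0 := by
    rintro rfl
    rw [FractionalIdeal.spanSingleton_zero] at hx
    exact (uDiv d').ne_zero hx
  refine ⟨x, hx0, fun p => ?_⟩
  unfold vA
  rw [← hx, coe_uDiv]
  exact FractionalIdeal.count_finsuppProd (K0 k) p d'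

end ShghE
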