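import Pool.Agent.ShghE.Defs

/-!
# The cubic `y² = x³ + x`
-/

namespace ShghE

open MvPolynomial

section
variable (k : Type*) [Field k]

/-- The curve `y² = x³ + x`. -/
abbrev E0 : WeierstrassCurve.Affine k := { a₁ := 0, a₂ := 0, a₃ := 0, a₄ := 1, a₆ := 0 }

/-- Its coordinate ring. -/
abbrev R0 : Type _ := WeierstrassCurve.Affine.CoordinateRing (E0 k)

/-- Its function field. -/
abbrev K0 : Type _ := WeierstrassCurve.Affine.FunctionField (E0 k)

/-- The equation `y² - x³ - x` in the polynomial ring `k[X 0, X 1]`. -/
noncomputable def Geq : MvPolynomial (Fin 2) k := X 1 ^ 2 - X 0 ^ 3 - X 0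

/-- the class of `x` -/
noncomputable def xR : R0 k := WeierstrassCurve.Affine.CoordinateRing.mk (E0 k) (Polynomial.C Polynomial.X)

/-- the class of `y` -/
noncomputable def yR : R0 k := WeierstrassCurve.Affine.CoordinateRing.mk (E0 k) Polynomial.X

/-- Restriction of plane polynomials to the curve. -/
noncomputable def psi : MvPolynomial (Fin 2) k →ₐ[k] R0 k := aeval ![xR k, yR k]

end

variable {k : Type*} [Field k]

/-- The ideal of the point `(a, b)` of the affine plane. -/
noncomputable def ptIdeal (a b : k) : Ideal (MvPolynomial (Fin 2) k) :=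
  Ideal.span {X 0 - C a, X 1 - C b}

end ShghE
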