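import Mathlib

/-!
# Elliptic degeneration for ten general points: definitions

`IsOrd v`: `v : K → ℤ` is an order function (integer valued valuation; the value at `0` is irrelevant).
`gv v n F`: twisted Gauss order of a polynomial, `min_j (v (coeff_j F) - j n)`.
`EField k K A`: an abstract elliptic function field `K` over the constant field `k` whose places are
the points of the group `A`.
-/

namespace ShghE

open Polynomial

/-- An integer valued order function on a field; the value at `0` is irrelevant. -/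
structure IsOrd {K : Type*} [Field K] (v : K → ℤ) : Prop where
  mul : ∀ {x y : K}, x ≠ 0 → y ≠ 0 → v (x * y) = v x + v y
  add : ∀ {x y : K}, x ≠ 0 → y ≠ 0 → x + y ≠ 0 → min (v x) (v y) ≤ v (x + y)

section gauss

variable {K : Type*} [Field K]

open Classical in
/-- Twisted Gauss order `min_j (v (coeff_j F) - j n)`. -/
noncomputable def gv (v : K → ℤ) (n : ℤ) (F : K[X]) : ℤ :=
  if h : F = 0 then 0
  else F.support.inf' (support_nonempty.mpr h) (fun j => v (F.coeff j) - (j : ℤ) * n)

/-- Order (weights `1, 1`) of `F` at the point `(place, X = c)`. -/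
noncomputable def oo (v : K → ℤ) (c : K) (F : K[X]) : ℤ := gv v (-1) (taylor c F)

/-- Multiplicity of the divisor of `F` at the point `(place, X = c)`. -/
noncomputable def mu (v : K → ℤ) (c : K) (F : K[X]) : ℤ := oo v c F - gv v 0 F

end gauss

/-- An elliptic function field `K` over `k`, its places being the elements of the group `A`, with an
involution `iota` inducing `P ↦ -P` on places and a distinguished 2-torsion place `T`. -/
structure EField (k K A : Type*) [Field k] [Field K] [Algebra k K] [AddCommGroup A] where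
  v : A → K → ℤ
  ord : ∀ P, IsOrd (v P)
  fin : ∀ x : K, x ≠ 0 → {P | v P x ≠ 0}.Finite
  deg : ∀ x : K, x ≠ 0 → ∑ᶠ P, v P x = 0
  sum : ∀ x : K, x ≠ 0 → ∑ᶠ P, v P x • P = 0
  ex : ∀ d : A → ℤ, (Function.support d).Finite → ∑ᶠ P, d P = 0 → ∑ᶠ P, d P • P = 0 →
    ∃ x : K, x ≠ 0 ∧ ∀ P, v P x = d P
  const : ∀ c : k, c ≠ 0 → ∀ P, v P (algebraMap k K c) = 0
  iota : K →+* K
  iota_iota : ∀ x, iota (iota x) = x
  iota_const : ∀ c : k, iota (algebraMap k K c) = algebraMap k K c
  iota_v : ∀ P (x : K), x ≠ 0 → v P (iota x) = v (-P) x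
  T : A
  T_two : T + T = 0
  pi : K
  pi_ne : pi ≠ 0
  pi_v : v T pi = 1
  pi_iota : iota pi = - pi
  res : ∀ x : K, x ≠ 0 → 0 ≤ v T x → ∃ c : k, x - algebraMap k K c ≠ 0 →
    1 ≤ v T (x - algebraMap k K c)

namespace EField

variable {k K A : Type*} [Field k] [Field K] [Algebra k K] [AddCommGroup A]

/-- A twist: a divisor of degree `0` not involving `T`. -/
structure Twist (E : EField k K A) where
  n : A → ℤ
  fin : (Function.support n).Finite
  deg : ∑ᶠ P, n P = 0
  nT : n E.T = 0

variable (E : EField k K A)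

/-- The class of the twist in the group. -/
noncomputable def Twist.s {E : EField k K A} (n : Twist E) : A := ∑ᶠ P, n.n P • P

/-- Gauss order of `F` at the place `P`. -/
noncomputable def w (n : Twist E) (P : A) (F : K[X]) : ℤ := gv (E.v P) (n.n P) F

/-- Degree of the content of `F`. -/
noncomputable def b (n : Twist E) (F : K[X]) : ℤ := - ∑ᶠ P, E.w n P F

/-- Class of the content of `F`. -/
noncomputable def cls (n : Twist E) (F : K[X]) : A := - ∑ᶠ P, E.w n P F • P

/-- Multiplicity of `F` at `(T, v0)`. -/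
noncomputable def m (v0 : k) (F : K[X]) : ℤ := mu (E.v E.T) (algebraMap k K v0) F

open Classical in
/-- `1` at `T`, `0` elsewhere. -/
noncomputable def dT (P : A) : ℤ := if P = E.T then 1 else 0

/-- For every `M = 2 g + 1`, `h = g (g + 1)`, there is a symmetric `F` of degree `≤ 2 h` with content
of degree one and an `M`-fold point at `(T, v0)`. -/
def HasSym (n : Twist E) (v0 : k) : Prop :=
  ∀ g : ℕ, ∃ F : K[X], F ≠ 0 ∧ F.natDegree ≤ 2 * (g * (g + 1)) ∧
    Even (F.natDegree + F.natTrailingDegree) ∧
    (∀ P, - E.dT P - ((g * (g + 1) : ℕ) : ℤ) * n.n P ≤ E.w n P F) ∧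
    2 * (g : ℤ) ≤ oo (E.v E.T) (algebraMap k K v0) F ∧
    Even (oo (E.v E.T) (algebraMap k K v0) F)

end EField

end ShghE
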