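import Pool.Agent.ShghE.CurveDefs

/-!
# Expansion along the cubic
-/

namespace ShghE

open MvPolynomial

variable {k : Type*} [Field k]

/-- The identification of `k[X 0, X 1]` with `k[X][Y]`. -/
private noncomputable def degenTo : MvPolynomial (Fin 2) k →ₐ[k] Polynomial (Polynomial k) :=
  aeval ![Polynomial.C Polynomial.X, Polynomial.X]

/-- The inverse identification. -/
private noncomputable def degenFrom : Polynomial (Polynomial k) →+* MvPolynomial (Fin 2) k :=
  Polynomial.eval₂RingHom (Polynomial.eval₂RingHom (C : k →+* MvPolynomial (Fin 2) k) (X 0)) (X 1)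

private theorem degenTo_from (p : Polynomial (Polynomial k)) : degenTo (degenFrom p) = p := by
  have h : (degenTo (k := k)).toRingHom.comp degenFrom = RingHom.id _ := by
    apply Polynomial.ringHom_ext'
    · apply Polynomial.ringHom_ext'
      · ext r
        simp [degenTo, degenFrom]
      · simp [degenTo, degenFrom]
    · simp [degenTo, degenFrom]
  exact congrArg (fun φ => φ p) h

private theorem degenFrom_to (f : MvPolynomial (Fin 2) k) : degenFrom (degenTo f) = f := by
  have h : (degenFrom (k := k)).comp degenTo.toRingHom = RingHom.id _ := by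
    apply MvPolynomial.ringHom_ext
    · intro r
      simp [degenTo, degenFrom]
    · intro i
      fin_cases i <;> simp [degenTo, degenFrom]
  exact congrArg (fun φ => φ f) h

private theorem psi_eq_mk (f : MvPolynomial (Fin 2) k) :
    psi k f = WeierstrassCurve.Affine.CoordinateRing.mk (E0 k) (degenTo f) := by
  have h : (psi k).toRingHom =
      (WeierstrassCurve.Affine.CoordinateRing.mk (E0 k)).comp (degenTo (k := k)).toRingHom := by
    apply MvPolynomial.ringHom_ext
    · intro r
      simp [degenTo]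
      rfl
    · intro i
      fin_cases i <;> simp [degenTo, psi, xR, yR]
  exact congrArg (fun φ => φ f) h

private theorem degenTo_Geq : degenTo (Geq k) = (E0 k).polynomial := by
  simp [degenTo, Geq, WeierstrassCurve.Affine.polynomial]
  ring

theorem psi_surjective : Function.Surjective (psi k) := by
  intro r
  obtain ⟨p, rfl⟩ := AdjoinRoot.mk_surjective r
  exact ⟨degenFrom p, by rw [psi_eq_mk, degenTo_from]⟩

/-- The kernel of the restriction to the curve is generated by `Geq`. -/
theorem psi_eq_zero_iff (f : MvPolynomial (Fin 2) k) : psi k f = 0 ↔ Geq k ∣ f := by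
  rw [psi_eq_mk]
  constructor
  · intro h
    obtain ⟨q, hq⟩ := AdjoinRoot.mk_eq_zero.mp h
    refine ⟨degenFrom q, ?_⟩
    rw [← degenFrom_to f, hq, map_mul, ← degenTo_Geq, degenFrom_to]
  · rintro ⟨q, rfl⟩
    apply AdjoinRoot.mk_eq_zero.mpr
    rw [map_mul, degenTo_Geq]
    exact dvd_mul_right _ _

theorem Geq_ne_zero : Geq k ≠ 0 := by
  intro h
  have h1 := degenTo_Geq (k := k)
  rw [h, map_zero] at h1
  exact WeierstrassCurve.Affine.monic_polynomial.ne_zero h1.symm

private theorem totalDegree_Geq_eq : (Geq k).totalDegree = 3 := by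
  have h1 : (Geq k) = - X 0 ^ 3 + (X 1 ^ 2 - X 0) := by
    unfold Geq; ring
  have h3 : (- X 0 ^ 3 : MvPolynomial (Fin 2) k).totalDegree = 3 := by
    rw [totalDegree_neg, totalDegree_X_pow]
  have h2 : (X 1 ^ 2 - X 0 : MvPolynomial (Fin 2) k).totalDegree ≤ 2 := by
    refine (totalDegree_sub _ _).trans ?_
    rw [totalDegree_X_pow, totalDegree_X]
    norm_num
  rw [h1, totalDegree_add_eq_left_of_totalDegree_lt (by rw [h3]; omega), h3]

theorem totalDegree_Geq_pow_mul (j : ℕ) {g : MvPolynomial (Fin 2) k} (hg : g ≠ 0) :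
    (Geq k ^ j * g).totalDegree = 3 * j + g.totalDegree := by
  induction j with
  | zero => simp
  | succ j ih =>
    rw [pow_succ', mul_assoc, totalDegree_mul_of_isDomain Geq_ne_zero
      (mul_ne_zero (pow_ne_zero _ Geq_ne_zero) hg), ih, totalDegree_Geq_eq]
    ring

/-- Translation of the plane. -/
private noncomputable def degenTr (a b : k) : MvPolynomial (Fin 2) k →ₐ[k] MvPolynomial (Fin 2) k :=
  aeval ![X 0 + C a, X 1 + C b]

private theorem degenTr_tr (a b : k) (f : MvPolynomial (Fin 2) k) :
    degenTr (-a) (-b) (degenTr a b f) = f := by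
  have h : (degenTr (-a) (-b)).comp (degenTr a b) = AlgHom.id k _ := by
    apply MvPolynomial.algHom_ext
    intro i
    fin_cases i <;> simp [degenTr, algebraMap_eq]
  exact congrArg (fun φ => φ f) h

private theorem map_ptIdeal (a b : k) :
    Ideal.map (degenTr a b) (ptIdeal a b) = idealOfVars (Fin 2) k := by
  rw [ptIdeal, Ideal.map_span]
  congr 1
  ext x
  simp [degenTr, algebraMap_eq, Set.image_pair, Fin.exists_fin_two, eq_comm]

private theorem map_vars (a b : k) :
    Ideal.map (degenTr (-a) (-b)) (idealOfVars (Fin 2) k) = ptIdeal a b := by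
  rw [ptIdeal, Ideal.map_span]
  congr 1
  ext x
  simp [degenTr, Fin.exists_fin_two, eq_comm, sub_eq_add_neg]

private theorem mem_pt_iff (a b : k) (m : ℕ) (f : MvPolynomial (Fin 2) k) :
    f ∈ ptIdeal a b ^ m ↔ degenTr a b f ∈ idealOfVars (Fin 2) k ^ m := by
  constructor
  · intro h
    have := Ideal.mem_map_of_mem (degenTr a b) h
    rwa [Ideal.map_pow, map_ptIdeal] at this
  · intro h
    have := Ideal.mem_map_of_mem (degenTr (-a) (-b)) h
    rwa [Ideal.map_pow, map_vars, degenTr_tr] at this

private theorem mem_vars_iff_order (m : ℕ) (f : MvPolynomial (Fin 2) k) :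
    f ∈ idealOfVars (Fin 2) k ^ m ↔ (m : ℕ∞) ≤ (f : MvPowerSeries (Fin 2) k).order := by
  rw [mem_pow_idealOfVars_iff']
  constructor
  · intro h
    apply MvPowerSeries.nat_le_order
    intro d hd
    rw [MvPolynomial.coeff_coe]
    exact h d hd
  · intro h x hx
    rw [← MvPolynomial.coeff_coe]
    apply MvPowerSeries.coeff_of_lt_order
    exact lt_of_lt_of_le (by exact_mod_cast hx) h

/-- restriction to a line through the origin -/
private noncomputable def degenLn (α β : k) : MvPolynomial (Fin 2) k →ₐ[k] Polynomial k :=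
  aeval ![Polynomial.C α * Polynomial.X, Polynomial.C β * Polynomial.X]

private theorem degenLn_mem (α β : k) (m : ℕ) (f : MvPolynomial (Fin 2) k)
    (h : f ∈ idealOfVars (Fin 2) k ^ m) : Polynomial.X ^ m ∣ degenLn α β f := by
  have h1 := Ideal.mem_map_of_mem (degenLn α β) h
  rw [Ideal.map_pow] at h1
  have h2 : Ideal.map (degenLn α β) (idealOfVars (Fin 2) k) ≤ Ideal.span {Polynomial.X} := by
    rw [Ideal.map_span, Ideal.span_le]
    rintro x ⟨y, ⟨i, rfl⟩, rfl⟩
    rw [SetLike.mem_coe, Ideal.mem_span_singleton]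
    fin_cases i <;> simp [degenLn]
  have h3 := Ideal.pow_right_mono h2 m h1
  rwa [Ideal.span_singleton_pow, Ideal.mem_span_singleton] at h3

private theorem order_Geq (h2 : (2 : k) ≠ 0) {a b : k} (hab : b ^ 2 = a ^ 3 + a) :
    ((degenTr a b (Geq k) : MvPolynomial (Fin 2) k) : MvPowerSeries (Fin 2) k).order ≤ 1 := by
  by_contra hlt
  rw [not_le] at hlt
  have hm : degenTr a b (Geq k) ∈ idealOfVars (Fin 2) k ^ 2 := by
    rw [mem_vars_iff_order]
    have := Order.add_one_le_of_lt hlt
    exact_mod_cast this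
  have key : ∀ α β : k, 2 * b * β - (3 * a ^ 2 + 1) * α = 0 := by
    intro α β
    obtain ⟨q, hq⟩ := degenLn_mem α β 2 _ hm
    have h3 : degenLn α β (degenTr a b (Geq k)) =
        (Polynomial.C β * Polynomial.X + Polynomial.C b) ^ 2 -
        (Polynomial.C α * Polynomial.X + Polynomial.C a) ^ 3 -
        (Polynomial.C α * Polynomial.X + Polynomial.C a) := by
      simp [degenLn, degenTr, Geq]
    rw [h3] at hq
    have h4 := congrArg (fun p => Polynomial.eval 0 (Polynomial.derivative p)) hq
    simp [Polynomial.derivative_pow] at h4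
    linear_combination h4
  have k1 := key 0 1
  have k2 := key 1 0
  have hb : b = 0 := by
    have : 2 * b = 0 := by linear_combination k1
    exact (mul_eq_zero.mp this).resolve_left h2
  have ha : 3 * a ^ 2 + 1 = 0 := by linear_combination - k2
  have h5 : a * (a ^ 2 + 1) = 0 := by
    rw [hb] at hab
    linear_combination - hab
  rcases mul_eq_zero.mp h5 with h6 | h6
  · rw [h6] at ha
    norm_num at ha
  · apply h2
    linear_combination 3 * h6 - ha

/-- Multiplicity is additive and `Geq` has multiplicity one at every point of the curve. -/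
theorem colon (h2 : (2 : k) ≠ 0) {a b : k} (hab : b ^ 2 = a ^ 3 + a) (j m : ℕ)
    {g : MvPolynomial (Fin 2) k} (h : Geq k ^ j * g ∈ ptIdeal a b ^ m) :
    g ∈ ptIdeal a b ^ (m - j) := by
  induction j generalizing g with
  | zero => simpa using h
  | succ j ih =>
    have h1 : Geq k * g ∈ ptIdeal a b ^ (m - j) := by
      apply ih
      rw [← mul_assoc, ← pow_succ]
      exact h
    rw [mem_pt_iff, mem_vars_iff_order, map_mul, MvPolynomial.coe_mul,
      MvPowerSeries.order_mul] at h1
    rw [mem_pt_iff, mem_vars_iff_order]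
    have h3 : ((m - j : ℕ) : ℕ∞) ≤
        1 + ((degenTr a b g : MvPolynomial (Fin 2) k) : MvPowerSeries (Fin 2) k).order :=
      h1.trans (add_le_add_left (order_Geq h2 hab) _)
    have h4 : (m - (j + 1) : ℕ) = (m - j) - 1 := by omega
    rw [h4]
    generalize ((degenTr a b g : MvPolynomial (Fin 2) k) : MvPowerSeries (Fin 2) k).order = o at h3
    generalize m - j = n at h3
    induction o using ENat.recTopCoe with
    | top => exact le_top
    | coe o =>
      have h5 : n ≤ 1 + o := by exact_mod_cast h3
      exact_mod_cast (show n - 1 ≤ o by omega)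

private theorem totalDegree_tr (a b : k) (g : MvPolynomial (Fin 2) k) :
    (degenTr a b g).totalDegree ≤ g.totalDegree := by
  conv_lhs => rw [g.as_sum, map_sum]
  apply totalDegree_finsetSum_le
  intro s hs
  have h1 : degenTr a b (monomial s (coeff s g)) =
      C (coeff s g) * ((X 0 + C a) ^ s 0 * (X 1 + C b) ^ s 1) := by
    rw [degenTr, aeval_monomial, algebraMap_eq, Finsupp.prod_fintype _ _ (by simp)]
    simp [Fin.prod_univ_two]
  rw [h1]
  have hX : ∀ (i : Fin 2) (c : k), (X i + C c : MvPolynomial (Fin 2) k).totalDegree ≤ 1 := by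
    intro i c
    refine (totalDegree_add _ _).trans ?_
    simp
  have h2 : ((X 0 + C a) ^ s 0 : MvPolynomial (Fin 2) k).totalDegree ≤ s 0 :=
    (totalDegree_pow _ _).trans (by simpa using Nat.mul_le_mul_left (s 0) (hX 0 a))
  have h3 : ((X 1 + C b) ^ s 1 : MvPolynomial (Fin 2) k).totalDegree ≤ s 1 :=
    (totalDegree_pow _ _).trans (by simpa using Nat.mul_le_mul_left (s 1) (hX 1 b))
  have h4 : s 0 + s 1 ≤ g.totalDegree := by
    have := le_totalDegree hs
    rwa [Finsupp.sum_fintype _ _ (by simp), Fin.sum_univ_two] at this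
  refine (totalDegree_mul _ _).trans ?_
  rw [totalDegree_C, zero_add]
  refine (totalDegree_mul _ _).trans ?_
  omega

/-- The multiplicity at a point is at most the degree. -/
theorem le_totalDegree {a b : k} {m : ℕ} {g : MvPolynomial (Fin 2) k} (hg : g ≠ 0)
    (h : g ∈ ptIdeal a b ^ m) : m ≤ g.totalDegree := by
  rw [mem_pt_iff, mem_pow_idealOfVars_iff] at h
  have h0 : degenTr a b g ≠ 0 := by
    intro h0
    apply hg
    rw [← degenTr_tr a b g, h0, map_zero]
  obtain ⟨s, hs⟩ := MvPolynomial.support_nonempty.mpr h0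
  refine (h s hs).trans (le_trans ?_ (totalDegree_tr a b g))
  exact MvPolynomial.le_totalDegree hs

/-- Restriction maps the ideal of a point of the plane on the curve to the ideal in `R0`. -/
theorem psi_mem {a b : k} {m : ℕ} {g : MvPolynomial (Fin 2) k} (h : g ∈ ptIdeal a b ^ m) :
    psi k g ∈ (WeierstrassCurve.Affine.CoordinateRing.XYIdeal (E0 k) a (Polynomial.C b)) ^ m := by
  have h1 := Ideal.mem_map_of_mem (psi k) h
  rw [Ideal.map_pow] at h1
  refine Ideal.pow_right_mono ?_ m h1
  rw [ptIdeal, Ideal.map_span, Ideal.span_le]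
  rintro x ⟨y, hy, rfl⟩
  rcases hy with rfl | rfl
  · apply Ideal.subset_span
    left
    rw [psi_eq_mk]
    simp [degenTo, WeierstrassCurve.Affine.CoordinateRing.XClass, Polynomial.algebraMap_apply]
  · apply Ideal.subset_span
    right
    rw [psi_eq_mk]
    simp [degenTo, WeierstrassCurve.Affine.CoordinateRing.YClass, Polynomial.algebraMap_apply]

/-- The order of a polynomial in a parameter `ξ` (with coefficients in `k[x,y]`) along the cubic,
where `ξ` and `Geq` have weight one. -/
theorem exists_w (f : Polynomial (MvPolynomial (Fin 2) k)) (hf : f ≠ 0) :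
    ∃ (w : ℕ) (g : ℕ → MvPolynomial (Fin 2) k), (∀ l, l ≤ w → f.coeff l = Geq k ^ (w - l) * g l) ∧
      ∃ l, l ≤ w ∧ ¬ Geq k ∣ g l := by
  classical
  obtain ⟨l0, hl0⟩ : ∃ l, f.coeff l ≠ 0 := by
    by_contra h
    push Not at h
    exact hf (Polynomial.ext (by simpa using h))
  have hbd : ∀ w, (∀ l, l ≤ w → Geq k ^ (w - l) ∣ f.coeff l) →
      w ≤ l0 + (f.coeff l0).totalDegree := by
    intro w hw
    by_contra hlt
    push Not at hlt
    obtain ⟨q, hq⟩ := hw l0 (by omega)
    have hq0 : q ≠ 0 := by
      rintro rfl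
      exact hl0 (by rw [hq, mul_zero])
    have h1 := totalDegree_Geq_pow_mul (w - l0) hq0
    rw [← hq] at h1
    omega
  let S : ℕ → Prop := fun w => ∀ l, l ≤ w → Geq k ^ (w - l) ∣ f.coeff l
  have hS0 : S 0 := by
    intro l hl
    simp [Nat.le_zero.mp hl]
  have hSw : S (Nat.findGreatest S (l0 + (f.coeff l0).totalDegree)) :=
    Nat.findGreatest_spec (Nat.zero_le _) hS0
  set w := Nat.findGreatest S (l0 + (f.coeff l0).totalDegree) with hw
  have hSw1 : ¬ S (w + 1) := by
    intro h
    have h1 := Nat.le_findGreatest (hbd _ h) h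
    rw [← hw] at h1
    omega
  have hch : ∀ l, ∃ q, l ≤ w → f.coeff l = Geq k ^ (w - l) * q := by
    intro l
    by_cases hl : l ≤ w
    · obtain ⟨q, hq⟩ := hSw l hl
      exact ⟨q, fun _ => hq⟩
    · exact ⟨0, fun h => absurd h hl⟩
  choose g hg using hch
  refine ⟨w, g, hg, ?_⟩
  by_contra hcon
  push Not at hcon
  apply hSw1
  intro l hl
  rcases Nat.lt_or_ge w l with h1 | h1
  · have : w + 1 - l = 0 := by omega
    rw [this, pow_zero]
    exact one_dvd _
  · obtain ⟨q, hq⟩ := hcon l h1
    rw [hg l h1, hq, ← mul_assoc, ← pow_succ]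
    have : w + 1 - l = w - l + 1 := by omega
    rw [this]
    exact dvd_mul_right _ _

end ShghE
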