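import Pool.Agent.ShghE.Sym

/-!
# The curves `C_m` and the inequality for all polynomials
-/

namespace ShghE

open Polynomial

namespace EField

variable {k K A : Type*} [Field k] [Field K] [Algebra k K] [AddCommGroup A]
variable (E : EField k K A) (n : Twist E)

/-- `F` is the curve `C_m`, `m = 2 g + 1`, `natDegree F = 2 g (g + 1) = (m² - 1)/2`. -/
structure IsC (v0 : k) (g : ℕ) (F : K[X]) : Prop where
  irr : Irreducible F
  deg : F.natDegree = 2 * g * (g + 1)
  b : E.b n F = 1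
  m : E.m v0 F = 2 * g + 1
  cls : E.cls n F = E.T + ((g * (g + 1) : ℕ) : ℤ) • n.s

private theorem Fm_assoc (v0 : k) {F G : K[X]} (hF : F ≠ 0) (h : Associated F G) :
    E.b n G = E.b n F ∧ E.m v0 G = E.m v0 F ∧ E.cls n G = E.cls n F ∧
      G.natDegree = F.natDegree := by
  obtain ⟨u, rfl⟩ := h
  obtain ⟨c, hc, hcu⟩ := Polynomial.isUnit_iff.mp u.isUnit
  have hc0 : c ≠ 0 := hc.ne_zero
  rw [← hcu]
  have hC : (C c : K[X]) ≠ 0 := C_ne_zero.mpr hc0
  refine ⟨?_, ?_, ?_, ?_⟩
  · rw [E.b_mul n hF hC, E.b_C n hc0, add_zero]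
  · rw [E.m_mul v0 hF hC, E.m_C v0 hc0, add_zero]
  · rw [E.cls_mul n hF hC, E.cls_C n hc0, add_zero]
  · rw [natDegree_mul hF hC, natDegree_C, add_zero]

private theorem Fm_unit (v0 : k) {F : K[X]} (hF : IsUnit F) :
    E.b n F = 0 ∧ E.m v0 F = 0 ∧ E.cls n F = 0 ∧ F.natDegree = 0 := by
  obtain ⟨c, hc, rfl⟩ := Polynomial.isUnit_iff.mp hF
  have hc0 : c ≠ 0 := hc.ne_zero
  exact ⟨E.b_C n hc0, E.m_C v0 hc0, E.cls_C n hc0, natDegree_C c⟩

private theorem Fm_coprime {p q : K[X]} (hp : Irreducible p) (hq : Irreducible q)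
    (h : ¬ Associated q p) : IsCoprime p q := by
  rw [hp.coprime_iff_not_dvd]
  intro hd
  exact h ((hp.associated_of_dvd hq hd).symm)

private theorem Fm_oo (v0 : k) (F : K[X]) :
    oo (E.v E.T) (algebraMap k K v0) F = E.m v0 F + E.w n E.T F := by
  unfold EField.m mu EField.w
  rw [n.nT]
  ring

private theorem Fm_m_monomial {v0 : k} (h0 : v0 ≠ 0) (j : ℕ) {c : K} (hc : c ≠ 0) :
    E.m v0 (monomial j c) = 0 := by
  rw [← C_mul_X_pow_eq_monomial]
  have hC : (C c : K[X]) ≠ 0 := C_ne_zero.mpr hc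
  have hX : ∀ j : ℕ, E.m v0 ((X : K[X]) ^ j) = 0 := by
    intro j
    induction j with
    | zero =>
      rw [pow_zero, ← C_1]
      exact E.m_C v0 one_ne_zero
    | succ j ih => rw [pow_succ, E.m_mul v0 (pow_ne_zero _ X_ne_zero) X_ne_zero, ih, E.m_X h0,
        add_zero]
  rw [E.m_mul v0 hC (pow_ne_zero _ X_ne_zero), E.m_C v0 hc, hX, add_zero]

private theorem Fm_cls_X_pow (j : ℕ) : E.cls n ((X : K[X]) ^ j) = (j : ℤ) • n.s := by
  induction j with
  | zero =>
    rw [pow_zero, ← C_1, E.cls_C n one_ne_zero]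
    simp
  | succ j ih =>
    rw [pow_succ, E.cls_mul n (pow_ne_zero _ X_ne_zero) X_ne_zero, ih, E.cls_X]
    rw [Nat.cast_succ, add_smul, one_smul]

private theorem Fm_dT_fin : (Function.support fun P => E.dT P).Finite := by
  refine (Set.finite_singleton E.T).subset ?_
  intro P hP
  by_contra h
  apply hP
  change E.dT P = 0
  unfold EField.dT
  rw [if_neg (fun hPT => h (Set.mem_singleton_iff.mpr hPT))]

private theorem Fm_sum_dT : ∑ᶠ P, E.dT P = 1 := by
  rw [finsum_eq_single _ E.T]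
  · unfold EField.dT
    rw [if_pos rfl]
  · intro P hP
    unfold EField.dT
    rw [if_neg hP]

private theorem Fm_sum_dT_smul : ∑ᶠ P, E.dT P • P = E.T := by
  rw [finsum_eq_single _ E.T]
  · unfold EField.dT
    rw [if_pos rfl, one_smul]
  · intro P hP
    unfold EField.dT
    rw [if_neg hP, zero_smul]

/-- Consequences of the bounds at all places. -/
private theorem Fm_bounds {F : K[X]} (hF : F ≠ 0) (h : ℤ)
    (hw : ∀ P, - E.dT P - h * n.n P ≤ E.w n P F) :
    E.w n E.T F ≤ - E.b n F ∧ E.b n F ≤ 1 ∧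
      (E.b n F = 1 → E.w n E.T F = - 1 ∧ E.cls n F = E.T + h • n.s) := by
  have hf1 : (Function.support fun P => E.w n P F).Finite := E.w_fin n hF
  have hf2 := E.Fm_dT_fin
  have hf3 : (Function.support fun P => h * n.n P).Finite := by
    refine n.fin.subset ?_
    intro P hP hP0
    apply hP
    change h * n.n P = 0
    rw [show n.n P = 0 from hP0, mul_zero]
  have hf12 : (Function.support fun P => E.w n P F + E.dT P).Finite := by
    refine (hf1.union hf2).subset ?_
    intro P hP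
    by_contra hc
    rw [Set.mem_union, not_or] at hc
    apply hP
    have h1 : E.w n P F = 0 := Function.notMem_support.mp hc.1
    have h2 : E.dT P = 0 := Function.notMem_support.mp hc.2
    change E.w n P F + E.dT P = 0
    rw [h1, h2, add_zero]
  have hsum : ∑ᶠ P, (E.w n P F + E.dT P + h * n.n P) = 1 - E.b n F := by
    rw [finsum_add_distrib hf12 hf3, finsum_add_distrib hf1 hf2, E.Fm_sum_dT,
      ← mul_finsum, n.deg, mul_zero]
    unfold EField.b
    ring
  have hfe : (Function.support fun P => E.w n P F + E.dT P + h * n.n P).Finite := by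
    refine (hf12.union hf3).subset ?_
    intro P hP
    by_contra hc
    rw [Set.mem_union, not_or] at hc
    apply hP
    have h1 : E.w n P F + E.dT P = 0 := Function.notMem_support.mp hc.1
    have h2 : h * n.n P = 0 := Function.notMem_support.mp hc.2
    change E.w n P F + E.dT P + h * n.n P = 0
    rw [h1, h2, add_zero]
  have hnn : ∀ P, 0 ≤ E.w n P F + E.dT P + h * n.n P := fun P => by
    have := hw P
    linarith
  have hle : ∀ P, E.w n P F + E.dT P + h * n.n P ≤ 1 - E.b n F := by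
    intro P
    rw [← hsum]
    exact single_le_finsum P hfe hnn
  have hT : E.dT E.T = 1 := by
    unfold EField.dT
    rw [if_pos rfl]
  refine ⟨?_, ?_, ?_⟩
  · have h1 := hle E.T
    rw [n.nT, hT] at h1
    linarith
  · have h1 := hle E.T
    have h2 := hnn E.T
    linarith
  · intro hb
    have hz : ∀ P, E.w n P F = - E.dT P - h * n.n P := by
      intro P
      have h1 := hle P
      have h2 := hnn P
      rw [hb] at h1
      linarith
    constructor
    · rw [hz, hT, n.nT]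
      ring
    · unfold EField.cls
      have h1 : ∀ P, E.w n P F • P = - (E.dT P • P + h • (n.n P • P)) := by
        intro P
        rw [hz, smul_smul, ← add_smul, ← neg_smul]
        congr 1
        ring
      rw [finsum_congr h1, finsum_neg_distrib, neg_neg]
      have hs2 : (Function.support fun P => E.dT P • P).Finite := by
        refine hf2.subset ?_
        intro P hP hP0
        apply hP
        have h2 : E.dT P = 0 := hP0
        change E.dT P • P = 0
        rw [h2, zero_smul]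
      have hs3 : (Function.support fun P => n.n P • P).Finite := by
        refine n.fin.subset ?_
        intro P hP hP0
        apply hP
        have h2 : n.n P = 0 := hP0
        change n.n P • P = 0
        rw [h2, zero_smul]
      have hs4 : (Function.support fun P => h • (n.n P • P)).Finite := by
        refine hs3.subset ?_
        intro P hP hP0
        apply hP
        have h2 : n.n P • P = 0 := hP0
        change h • (n.n P • P) = 0
        rw [h2, smul_zero]
      rw [finsum_add_distrib hs2 hs4, E.Fm_sum_dT_smul, ← smul_finsum' h hs3]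
      rfl

/-- Splitting off the irreducible factor with nontrivial content. -/
private theorem Fm_factor {F : K[X]} (hF : F ≠ 0) (hb : E.b n F = 1) :
    ∃ G H : K[X], Irreducible G ∧ H ≠ 0 ∧ F = G * H ∧ E.b n G = 1 ∧ E.b n H = 0 := by
  revert hb hF
  refine WfDvdMonoid.induction_on_irreducible (motive := fun F : K[X] => F ≠ 0 → E.b n F = 1 →
    ∃ G H : K[X], Irreducible G ∧ H ≠ 0 ∧ F = G * H ∧ E.b n G = 1 ∧ E.b n H = 0) F ?_ ?_ ?_
  · intro h
    exact absurd rfl h
  · intro u hu _ hb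
    obtain ⟨h1, -⟩ := E.Fm_unit n 0 hu
    rw [h1] at hb
    exact absurd hb (by norm_num)
  · intro a i ha hi ih _ hb
    rw [E.b_mul n hi.ne_zero ha] at hb
    have h1 := E.b_nonneg n hi.ne_zero
    have h2 := E.b_nonneg n ha
    rcases h2.eq_or_lt with h3 | h3
    · refine ⟨i, a, hi, ha, rfl, ?_, h3.symm⟩
      rw [← h3, add_zero] at hb
      exact hb
    · have h4 : E.b n a = 1 := by omega
      have h5 : E.b n i = 0 := by omega
      obtain ⟨G, H, hG, hH, rfl, hbG, hbH⟩ := ih ha h4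
      refine ⟨G, i * H, hG, mul_ne_zero hi.ne_zero hH, by ring, hbG, ?_⟩
      rw [E.b_mul n hi.ne_zero hH, h5, hbH, add_zero]

/-- The irreducible factor of the symmetric polynomial. -/
private theorem Fm_core {v0 : k} (h0 : v0 ≠ 0) (hsym : E.HasSym n v0) (B : ℕ)
    (hs : ∀ j : ℕ, 1 ≤ j → j ≤ B → j • n.s ≠ 0) (g : ℕ) (hg : 1 ≤ g) (hB : 2 * g * (g + 1) ≤ B) :
    ∃ G : K[X], Irreducible G ∧ Even G.natDegree ∧ G.natDegree ≤ 2 * g * (g + 1) ∧
      E.b n G = 1 ∧ 2 * (g : ℤ) + 1 ≤ E.m v0 G ∧ Odd (E.m v0 G) ∧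
      (G.natDegree = 2 * g * (g + 1) →
        E.cls n G = E.T + ((g * (g + 1) : ℕ) : ℤ) • n.s) := by
  obtain ⟨F, hF, hFdeg, hFev, hFw, hFoo, hFooev⟩ := hsym g
  have hdegF : F.natDegree ≤ 2 * g * (g + 1) := by
    rw [mul_assoc]
    exact hFdeg
  obtain ⟨hwT, hb1, hbeq⟩ := E.Fm_bounds n hF ((g * (g + 1) : ℕ) : ℤ) hFw
  have hb0 := E.b_nonneg n hF
  have hoo := E.Fm_oo n v0 F
  have hgZ : (1 : ℤ) ≤ (g : ℤ) := by exact_mod_cast hg
  have hbF : E.b n F = 1 := by
    rcases hb0.eq_or_lt with hb | hb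
    · exfalso
      obtain ⟨j, c, hjc⟩ := E.eq_monomial_of_b_eq_zero n hF hb.symm
        (fun j h1 h2 => hs j h1 (h2.trans (hdegF.trans hB)))
      have hc : c ≠ 0 := by
        rintro rfl
        rw [monomial_zero_right] at hjc
        exact hF hjc
      have hm : E.m v0 F = 0 := by
        rw [hjc]
        exact E.Fm_m_monomial h0 j hc
      rw [hm, zero_add] at hoo
      rw [← hb] at hwT
      linarith
    · omega
  obtain ⟨hwT1, hclsF⟩ := hbeq hbF
  obtain ⟨G, H, hG, hH, hFGH, hbG, hbH⟩ := E.Fm_factor n hF hbF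
  have hG0 : G ≠ 0 := hG.ne_zero
  have hdeg : F.natDegree = G.natDegree + H.natDegree := by rw [hFGH, natDegree_mul hG0 hH]
  obtain ⟨l, c, hlc⟩ := E.eq_monomial_of_b_eq_zero n hH hbH
    (fun j h1 h2 => hs j h1 (by omega))
  have hc : c ≠ 0 := by
    rintro rfl
    rw [monomial_zero_right] at hlc
    exact hH hlc
  have hHdeg : H.natDegree = l := by rw [hlc, natDegree_monomial_eq l hc]
  have hHtr : H.natTrailingDegree = l := by rw [hlc, natTrailingDegree_monomial hc]
  have hHm : E.m v0 H = 0 := by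
    rw [hlc]
    exact E.Fm_m_monomial h0 l hc
  have hHcls : E.cls n H = (l : ℤ) • n.s := by
    rw [hlc, ← C_mul_X_pow_eq_monomial,
      E.cls_mul n (C_ne_zero.mpr hc) (pow_ne_zero _ X_ne_zero), E.cls_C n hc, zero_add,
      E.Fm_cls_X_pow]
  have hGtr : G.natTrailingDegree = 0 := by
    rw [natTrailingDegree_eq_zero]
    right
    intro hGc
    have hd : X ∣ G := X_dvd_iff.mpr hGc
    have hassoc : Associated X G := irreducible_X.associated_of_dvd hG hd
    obtain ⟨h1, -⟩ := E.Fm_assoc n v0 X_ne_zero hassoc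
    rw [E.b_X, hbG] at h1
    exact absurd h1 (by norm_num)
  have htr : F.natTrailingDegree = l := by
    rw [hFGH, natTrailingDegree_mul hG0 hH, hGtr, hHtr, zero_add]
  have hmF : E.m v0 F = E.m v0 G := by rw [hFGH, E.m_mul v0 hG0 hH, hHm, add_zero]
  have hoo1 : oo (E.v E.T) (algebraMap k K v0) F = E.m v0 G - 1 := by
    rw [hoo, hmF, hwT1]
    ring
  refine ⟨G, hG, ?_, ?_, hbG, ?_, ?_, ?_⟩
  · rw [htr, hdeg, hHdeg] at hFev
    have h1 : G.natDegree + l + l = G.natDegree + 2 * l := by ring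
    rw [h1, Nat.even_add] at hFev
    exact hFev.mpr (even_two_mul l)
  · omega
  · rw [hoo1] at hFoo
    linarith
  · rw [hoo1] at hFooev
    have h1 := hFooev.add_one
    rwa [sub_add_cancel] at h1
  · intro hGd
    have hl : l = 0 := by omega
    have h1 : E.cls n F = E.cls n G + E.cls n H := by rw [hFGH, E.cls_mul n hG0 hH]
    rw [hHcls, hl, Nat.cast_zero, zero_smul, add_zero] at h1
    rw [← h1]
    exact hclsF

/-- Existence of `C_m` for all odd `m ≥ 3` in the range where the twist has no torsion. -/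
theorem exists_C {v0 : k} (h0 : v0 ≠ 0) (hsym : E.HasSym n v0) (B : ℕ)
    (hs : ∀ j : ℕ, 1 ≤ j → j ≤ B → j • n.s ≠ 0) (g : ℕ) (hg : 1 ≤ g) (hB : 2 * g * (g + 1) ≤ B) :
    ∃ F : K[X], E.IsC n v0 g F := by
  induction g, hg using Nat.le_induction with
  | base =>
    obtain ⟨G, hG, hev, hdeg, hb, hm, hodd, hcls⟩ := E.Fm_core n h0 hsym B hs 1 le_rfl hB
    have h1 := E.m_le_natDegree h0 hG.ne_zero
    have h2 : G.natDegree = 4 := by
      obtain ⟨r, hr⟩ := hev
      push_cast at hm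
      have h3 : (3 : ℤ) ≤ (G.natDegree : ℤ) := by linarith
      have h4 : 3 ≤ G.natDegree := by exact_mod_cast h3
      omega
    have h3 : E.m v0 G = 3 := by
      obtain ⟨r, hr⟩ := hodd
      rw [h2] at h1
      push_cast at hm h1
      omega
    refine ⟨G, hG, by rw [h2], hb, ?_, hcls (by rw [h2])⟩
    rw [h3]
    norm_num
  | succ g hg ih =>
    have hB' : 2 * g * (g + 1) ≤ B := by
      refine le_trans ?_ hB
      nlinarith
    obtain ⟨C', hC'⟩ := ih hB'
    obtain ⟨G, hG, hev, hdeg, hb, hm, hodd, hcls⟩ :=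
      E.Fm_core n h0 hsym B hs (g + 1) (by omega) hB
    have hgZ : (1 : ℤ) ≤ (g : ℤ) := by exact_mod_cast hg
    have hco : IsCoprime G C' := by
      refine Fm_coprime hG hC'.irr ?_
      intro ha
      obtain ⟨-, h1, -⟩ := E.Fm_assoc n v0 hC'.irr.ne_zero ha
      rw [hC'.m] at h1
      rw [h1] at hm
      push_cast at hm
      linarith
    have hres := E.res_ineq n h0 hG.ne_zero hC'.irr.ne_zero hco
    rw [hC'.m, hC'.b, hC'.deg, hb] at hres
    push_cast at hres hm
    have h1 : (2 * (g : ℤ) + 3) * (2 * g + 1) ≤ (G.natDegree : ℤ) + 2 * g * (g + 1) := by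
      nlinarith
    have h2 : G.natDegree = 2 * (g + 1) * (g + 1 + 1) := by
      refine le_antisymm hdeg ?_
      obtain ⟨r, hr⟩ := hev
      have h3 : 2 * (g : ℤ) * g + 6 * g + 3 ≤ (G.natDegree : ℤ) := by nlinarith
      have h4 : 2 * g * g + 6 * g + 3 ≤ G.natDegree := by
        have : ((2 * g * g + 6 * g + 3 : ℕ) : ℤ) ≤ (G.natDegree : ℤ) := by
          push_cast
          linarith
        exact_mod_cast this
      have h5 : 2 * (g + 1) * (g + 1 + 1) = 2 * (g * g + 3 * g + 2) := by ring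
      rw [h5]
      have h6 : 2 * g * g + 6 * g + 3 = 2 * (g * g + 3 * g + 1) + 1 := by ring
      rw [h6] at h4
      omega
    have h3 : E.m v0 G = 2 * (g : ℤ) + 3 := by
      obtain ⟨r, hr⟩ := hodd
      have h4 : E.m v0 G * (2 * (g : ℤ) + 1) ≤ 4 * ((g : ℤ) + 1) ^ 2 := by
        rw [h2] at hres
        push_cast at hres
        nlinarith
      have h5 : E.m v0 G < 2 * (g : ℤ) + 4 := by
        by_contra hcon
        push Not at hcon
        have : (2 * (g : ℤ) + 4) * (2 * g + 1) ≤ E.m v0 G * (2 * g + 1) := by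
          apply mul_le_mul_of_nonneg_right hcon
          linarith
        nlinarith
      omega
    refine ⟨G, hG, h2, hb, ?_, hcls h2⟩
    rw [h3]
    push_cast
    ring

/-- The two resultant inequalities for an irreducible polynomial. -/
private theorem Fm_irr {v0 : k} (h0 : v0 ≠ 0) (hsym : E.HasSym n v0) (B : ℕ)
    (hs : ∀ j : ℕ, 1 ≤ j → j ≤ B → j • n.s ≠ 0) (q : ℕ) (hq : 1 ≤ q)
    (hB : 2 * q * (q + 1) ≤ B) {p : K[X]} (hp : Irreducible p) :
    2 * (q : ℤ) * E.m v0 p ≤ 2 * (q : ℤ) ^ 2 * E.b n p + p.natDegree ∧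
    (2 * (q : ℤ) * E.m v0 p = 2 * (q : ℤ) ^ 2 * E.b n p + p.natDegree →
      (2 * ((2 * q * (q + 1) : ℕ) : ℤ)) • E.cls n p =
        (((2 * q * (q + 1) : ℕ) : ℤ) * p.natDegree) • n.s) := by
  have hT2 : (2 : ℤ) • E.T = 0 := by
    rw [two_smul]
    exact E.T_two
  obtain ⟨C₂, hC₂⟩ := E.exists_C n h0 hsym B hs q hq hB
  by_cases h2 : Associated C₂ p
  · obtain ⟨e1, e2, e3, e4⟩ := E.Fm_assoc n v0 hC₂.irr.ne_zero h2
    rw [e1, e2, e3, e4, hC₂.b, hC₂.m, hC₂.deg, hC₂.cls]
    refine ⟨le_of_eq ?_, fun _ => ?_⟩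
    · push_cast
      ring
    · rw [smul_add, smul_smul, mul_comm 2, mul_smul _ 2 E.T, hT2, smul_zero, zero_add]
      congr 1
      push_cast
      ring
  · have hco2 := Fm_coprime hp hC₂.irr h2
    have r2 := E.res_ineq n h0 hp.ne_zero hC₂.irr.ne_zero hco2
    -- the other inequality
    have r1 : E.m v0 p * (2 * (q : ℤ) - 1) ≤
        p.natDegree + (2 * ((q : ℤ) - 1) * q) * E.b n p ∨ (Associated p p ∧
        E.m v0 p = 2 * (q : ℤ) - 1 ∧ E.b n p = 1 ∧ (p.natDegree : ℤ) = 2 * ((q : ℤ) - 1) * q ∧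
        (2 : ℤ) • E.cls n p = (2 * (((q : ℤ) - 1) * q)) • n.s) := by
      rcases Nat.lt_or_ge 1 q with hq1 | hq1
      · obtain ⟨q', rfl⟩ : ∃ q', q = q' + 1 := ⟨q - 1, by omega⟩
        have hB1 : 2 * q' * (q' + 1) ≤ B := by
          refine le_trans ?_ hB
          nlinarith
        obtain ⟨C₁, hC₁⟩ := E.exists_C n h0 hsym B hs q' (by omega) hB1
        by_cases h1 : Associated C₁ p
        · right
          obtain ⟨e1, e2, e3, e4⟩ := E.Fm_assoc n v0 hC₁.irr.ne_zero h1
          refine ⟨Associated.refl p, ?_, ?_, ?_, ?_⟩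
          · rw [e2, hC₁.m]
            push_cast
            ring
          · rw [e1, hC₁.b]
          · rw [e4, hC₁.deg]
            push_cast
            ring
          · rw [e3, hC₁.cls, smul_add, hT2, zero_add, smul_smul]
            congr 1
            push_cast
            ring
        · left
          have hco1 := Fm_coprime hp hC₁.irr h1
          have r1 := E.res_ineq n h0 hp.ne_zero hC₁.irr.ne_zero hco1
          rw [hC₁.m, hC₁.b, hC₁.deg] at r1
          push_cast at r1 ⊢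
          nlinarith
      · left
        have hq' : q = 1 := by omega
        subst hq'
        have := E.m_le_natDegree h0 hp.ne_zero
        push_cast
        linarith
    rw [hC₂.m, hC₂.b, hC₂.deg] at r2
    rcases r1 with r1 | ⟨-, e2, e1, e4, e3⟩
    · have hsum : 2 * (2 * (q : ℤ) * E.m v0 p) ≤
          2 * (2 * (q : ℤ) ^ 2 * E.b n p + p.natDegree) := by
        push_cast at r2
        nlinarith
      refine ⟨by linarith, fun heq => ?_⟩
      have heq2 : E.m v0 p * E.m v0 C₂ =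
          p.natDegree * E.b n C₂ + C₂.natDegree * E.b n p := by
        rw [hC₂.m, hC₂.b, hC₂.deg]
        refine le_antisymm r2 ?_
        push_cast
        nlinarith
      have hcl := E.res_eq n h0 hp.ne_zero hC₂.irr.ne_zero hco2 heq2
      rw [hC₂.deg, hC₂.cls] at hcl
      have hcl2 := congrArg (fun z => (2 : ℤ) • z) hcl
      simp only [smul_add, smul_smul] at hcl2
      have hz : ∀ z : ℤ, (2 * z) • E.T = 0 := by
        intro z
        rw [mul_comm, mul_smul, hT2, smul_zero]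
      rw [hz, hz, zero_add, add_zero] at hcl2
      rw [eq_sub_of_add_eq hcl2, ← sub_smul]
      congr 1
      push_cast
      ring
    · refine ⟨le_of_eq ?_, fun _ => ?_⟩
      · rw [e1, e2, e4]
        ring
      · rw [mul_comm 2, mul_smul, e3, smul_smul, e4]
        congr 1
        ring

private theorem Fm_all {v0 : k} (h0 : v0 ≠ 0) (hsym : E.HasSym n v0) (B : ℕ)
    (hs : ∀ j : ℕ, 1 ≤ j → j ≤ B → j • n.s ≠ 0) (q : ℕ) (hq : 1 ≤ q)
    (hB : 2 * q * (q + 1) ≤ B) {F : K[X]} (hF : F ≠ 0) :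
    2 * (q : ℤ) * E.m v0 F ≤ 2 * (q : ℤ) ^ 2 * E.b n F + F.natDegree ∧
    (2 * (q : ℤ) * E.m v0 F = 2 * (q : ℤ) ^ 2 * E.b n F + F.natDegree →
      (2 * ((2 * q * (q + 1) : ℕ) : ℤ)) • E.cls n F =
        (((2 * q * (q + 1) : ℕ) : ℤ) * F.natDegree) • n.s) := by
  revert hF
  refine WfDvdMonoid.induction_on_irreducible (motive := fun F : K[X] => F ≠ 0 →
    2 * (q : ℤ) * E.m v0 F ≤ 2 * (q : ℤ) ^ 2 * E.b n F + F.natDegree ∧
    (2 * (q : ℤ) * E.m v0 F = 2 * (q : ℤ) ^ 2 * E.b n F + F.natDegree →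
      (2 * ((2 * q * (q + 1) : ℕ) : ℤ)) • E.cls n F =
        (((2 * q * (q + 1) : ℕ) : ℤ) * F.natDegree) • n.s)) F ?_ ?_ ?_
  · intro h
    exact absurd rfl h
  · intro u hu _
    obtain ⟨h1, h2, h3, h4⟩ := E.Fm_unit n v0 hu
    rw [h1, h2, h3, h4]
    simp
  · intro a i ha hi ih _
    obtain ⟨i1, i2⟩ := E.Fm_irr n h0 hsym B hs q hq hB hi
    obtain ⟨a1, a2⟩ := ih ha
    rw [E.m_mul v0 hi.ne_zero ha, E.b_mul n hi.ne_zero ha, E.cls_mul n hi.ne_zero ha,
      natDegree_mul hi.ne_zero ha]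
    refine ⟨?_, fun heq => ?_⟩
    · push_cast
      linarith
    · push_cast at heq
      have hi2 := i2 (by linarith)
      have ha2 := a2 (by linarith)
      rw [smul_add, hi2, ha2, ← add_smul]
      congr 1
      push_cast
      ring

/-- Main inequality: `2 q² b + a ≥ 2 q m`. -/
theorem main_even {v0 : k} (h0 : v0 ≠ 0) (hsym : E.HasSym n v0) (B : ℕ)
    (hs : ∀ j : ℕ, 1 ≤ j → j ≤ B → j • n.s ≠ 0) (q : ℕ) (hq : 1 ≤ q)
    (hB : 2 * q * (q + 1) ≤ B) {F : K[X]} (hF : F ≠ 0) (hdeg : F.natDegree ≤ B) :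
    2 * (q : ℤ) * E.m v0 F ≤ 2 * (q : ℤ) ^ 2 * E.b n F + F.natDegree :=
  (E.Fm_all n h0 hsym B hs q hq hB hF).1

/-- Equality in the main inequality. With `c = 2 (q-1) q` for `q ≥ 2` and `c = 4` for `q = 1`
(the degree of the curve `C_{2q-1}` resp. `C_3`): `2 c cls F = c a s`. -/
theorem main_even_eq {v0 : k} (h0 : v0 ≠ 0) (hsym : E.HasSym n v0) (B : ℕ)
    (hs : ∀ j : ℕ, 1 ≤ j → j ≤ B → j • n.s ≠ 0) (q : ℕ) (hq : 1 ≤ q)
    (hB : 2 * q * (q + 1) ≤ B) {F : K[X]} (hF : F ≠ 0) (hdeg : F.natDegree ≤ B)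
    (heq : 2 * (q : ℤ) * E.m v0 F = 2 * (q : ℤ) ^ 2 * E.b n F + F.natDegree) :
    ∃ c : ℕ, 1 ≤ c ∧ c ≤ 2 * q * (q + 1) ∧
      (2 * (c : ℤ)) • E.cls n F = ((c : ℤ) * F.natDegree) • n.s := by
  refine ⟨2 * q * (q + 1), ?_, le_rfl, (E.Fm_all n h0 hsym B hs q hq hB hF).2 heq⟩
  nlinarith

/-- Splitting off the curve `C_e`, `e = 2 g + 1`. -/
theorem split_C {v0 : k} (h0 : v0 ≠ 0) {g : ℕ} {C : K[X]} (hC : E.IsC n v0 g C) {F : K[X]}
    (hF : F ≠ 0) :
    ∃ (α : ℕ) (Q : K[X]), Q ≠ 0 ∧ F = C ^ α * Q ∧ IsCoprime Q C ∧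
      (2 * (g : ℤ) + 1) * E.m v0 Q ≤ Q.natDegree + (2 * (g : ℤ) * (g + 1)) * E.b n Q := by
  obtain ⟨Q, hFQ, hQ⟩ := (FiniteMultiplicity.of_not_isUnit hC.irr.not_isUnit
    hF).exists_eq_pow_mul_and_not_dvd
  have hQ0 : Q ≠ 0 := by
    rintro rfl
    exact hQ (dvd_zero C)
  have hco : IsCoprime Q C := ((hC.irr.coprime_iff_not_dvd).mpr hQ).symm
  refine ⟨_, Q, hQ0, hFQ, hco, ?_⟩
  have h1 := E.res_ineq n h0 hQ0 hC.irr.ne_zero hco
  rw [hC.m, hC.b, hC.deg] at h1
  push_cast at h1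
  linarith

end EField

end ShghE
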