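import Pool.Agent.ShghE.Gauss
import Pool.Agent.ShghE.CurveDefs

/-!
# The multiplicity of the limit at `(T, v0)`

`f ∈ k[x,y][ξ]` has multiplicity `≥ μ` at the moving point `(x, y) = (- v0 ξ, 0)`; its initial form
`F = Σ_j (g_{w-j}|curve) X^j` has order `≥ μ` at `(T, X = v0)`.

Proof. `O = {z ∈ K | z = 0 or v z ≥ 0}`, `S = O[u]`, `J_n = {F ∈ S | v (coeff_j F) ≥ n - j}` (with the
convention for zero coefficients), `J_a J_b ⊆ J_{a+b}`; `Ĵ_n = {power series in ξ over S with all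
coefficients in J_n}`. There is `x̃ ∈ S[[ξ]]` with constant term `x` and
`x̃ + x̃³ = y² - ξ V`, `V = u + v0 + v0³ ξ²` (Newton iteration, `1 + 3x²` is a unit of `O`).
The homomorphism `Θ : k[x,y][ξ] → S[[ξ]]`, `x ↦ x̃`, `y ↦ y`, `ξ ↦ ξ`, satisfies `Θ(Geq) = ξ V`.
`Z = x̃ + v0 ξ` satisfies `Z (1 + Z² - 3 v0 ξ Z + 3 v0² ξ²) = y² - ξ u ∈ Ĵ_1`, and the factor is a
unit, so `Θ` maps `(x + v0 ξ, y)^μ` into `Ĵ_μ`. Finally `Θ(f) = ξ^w F̃`, the constant term of `F̃`
being `Σ_j g_{w-j}| (u + v0)^j = taylor v0 F`.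
-/

namespace ShghE

open Polynomial

variable {k : Type*} [Field k]

namespace Thick

section filt

variable {K : Type*} [Field K] {v : K → ℤ}

/-- `0` or order at least `c` -/
def Vg (v : K → ℤ) (c : ℕ) (x : K) : Prop := x ≠ 0 → (c : ℤ) ≤ v x

theorem Vg.zero (c : ℕ) : Vg v c 0 := fun h => absurd rfl h

theorem Vg.mono {c c' : ℕ} (h : c' ≤ c) {x : K} (hx : Vg v c x) : Vg v c' x := fun h0 =>
  le_trans (by exact_mod_cast h) (hx h0)

theorem Vg.sum (hv : IsOrd v) {ι : Type*} (s : Finset ι) (f : ι → K) (c : ℕ)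
    (h : ∀ i ∈ s, Vg v c (f i)) : Vg v c (∑ i ∈ s, f i) := fun h0 =>
  hv.sum s f c (fun i hi => h i hi) h0

theorem Vg.add (hv : IsOrd v) {c : ℕ} {x y : K} (hx : Vg v c x) (hy : Vg v c y) :
    Vg v c (x + y) := by
  intro h
  by_cases h1 : x = 0
  · subst h1; simpa using hy (by simpa using h)
  by_cases h2 : y = 0
  · subst h2; simpa using hx (by simpa using h)
  exact le_trans (le_min (hx h1) (hy h2)) (hv.add h1 h2 h)

theorem Vg.neg (hv : IsOrd v) {c : ℕ} {x : K} (hx : Vg v c x) : Vg v c (-x) := by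
  intro h
  have h1 : x ≠ 0 := by simpa using h
  rw [hv.neg h1]; exact hx h1

theorem Vg.mul (hv : IsOrd v) {c c' : ℕ} {x y : K} (hx : Vg v c x) (hy : Vg v c' y) :
    Vg v (c + c') (x * y) := by
  intro h
  have h1 : x ≠ 0 := left_ne_zero_of_mul h
  have h2 : y ≠ 0 := right_ne_zero_of_mul h
  rw [hv.mul h1 h2]; push_cast
  exact add_le_add (hx h1) (hy h2)

/-- the filtration of `O[u]` -/
def Jm (v : K → ℤ) (n : ℕ) (F : K[X]) : Prop := ∀ j, Vg v (n - j) (F.coeff j)

theorem Jm.zero (n : ℕ) : Jm v n 0 := fun j => by simpa using Vg.zero _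

theorem Jm.mono {c c' : ℕ} (h : c' ≤ c) {x : K[X]} (hx : Jm v c x) : Jm v c' x := fun j =>
  (hx j).mono (by omega)

theorem Jm.add (hv : IsOrd v) {n : ℕ} {F G : K[X]} (hF : Jm v n F) (hG : Jm v n G) :
    Jm v n (F + G) := fun j => by
  rw [coeff_add]; exact (hF j).add hv (hG j)

theorem Jm.neg (hv : IsOrd v) {n : ℕ} {F : K[X]} (hF : Jm v n F) : Jm v n (-F) := fun j => by
  rw [coeff_neg]; exact (hF j).neg hv

theorem Jm.sum (hv : IsOrd v) {ι : Type*} (s : Finset ι) (f : ι → K[X]) (c : ℕ)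
    (h : ∀ i ∈ s, Jm v c (f i)) : Jm v c (∑ i ∈ s, f i) := fun j => by
  rw [finsetSum_coeff]; exact Vg.sum hv s _ _ (fun i hi => h i hi j)

theorem Jm.mul (hv : IsOrd v) {n m : ℕ} {F G : K[X]} (hF : Jm v n F) (hG : Jm v m G) :
    Jm v (n + m) (F * G) := fun j => by
  rw [coeff_mul]
  refine Vg.sum hv _ _ _ ?_
  rintro ⟨a, b⟩ hab
  have hab' : a + b = j := by simpa using hab
  exact ((hF a).mul hv (hG b)).mono (by omega)

theorem Jm.C {n : ℕ} {a : K} (ha : Vg v n a) : Jm v n (C a) := fun j => by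
  rw [coeff_C]
  split_ifs with h
  · subst h; simpa using ha
  · exact Vg.zero _

theorem Jm.X (hv : IsOrd v) : Jm v 1 (X : K[X]) := fun j => by
  rw [coeff_X]
  split_ifs with h
  · subst h; intro _; simp [hv.one]
  · exact Vg.zero _

/-- truncated filtration of `O[u][ξ]` -/
def Jt (v : K → ℤ) (N n : ℕ) (p : K[X][X]) : Prop := ∀ i, i < N → Jm v n (p.coeff i)

variable {N : ℕ}

theorem Jt.zero (n : ℕ) : Jt v N n 0 := fun j _ => by simpa using Jm.zero _

theorem Jt.mono {c c' : ℕ} (h : c' ≤ c) {x : K[X][X]} (hx : Jt v N c x) : Jt v N c' x :=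
  fun j hj => (hx j hj).mono h

theorem Jt.add (hv : IsOrd v) {n : ℕ} {F G : K[X][X]} (hF : Jt v N n F) (hG : Jt v N n G) :
    Jt v N n (F + G) := fun j hj => by
  rw [coeff_add]; exact (hF j hj).add hv (hG j hj)

theorem Jt.neg (hv : IsOrd v) {n : ℕ} {F : K[X][X]} (hF : Jt v N n F) : Jt v N n (-F) :=
  fun j hj => by
  rw [coeff_neg]; exact (hF j hj).neg hv

theorem Jt.sub (hv : IsOrd v) {n : ℕ} {F G : K[X][X]} (hF : Jt v N n F) (hG : Jt v N n G) :
    Jt v N n (F - G) := by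
  rw [sub_eq_add_neg]; exact hF.add hv (hG.neg hv)

theorem Jt.sum (hv : IsOrd v) {ι : Type*} (s : Finset ι) (f : ι → K[X][X]) (c : ℕ)
    (h : ∀ i ∈ s, Jt v N c (f i)) : Jt v N c (∑ i ∈ s, f i) := fun j hj => by
  rw [finsetSum_coeff]; exact Jm.sum hv s _ _ (fun i hi => h i hi j hj)

theorem Jt.mul (hv : IsOrd v) {n m : ℕ} {F G : K[X][X]} (hF : Jt v N n F) (hG : Jt v N m G) :
    Jt v N (n + m) (F * G) := fun j hj => by
  rw [coeff_mul]
  refine Jm.sum hv _ _ _ ?_
  rintro ⟨a, b⟩ hab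
  have hab' : a + b = j := by simpa using hab
  exact (hF a (by omega)).mul hv (hG b (by omega))

theorem Jt.C {n : ℕ} {a : K[X]} (ha : Jm v n a) : Jt v N n (C a) := fun j _ => by
  rw [coeff_C]
  split_ifs with h
  · exact ha
  · exact Jm.zero _

theorem Jt.one (hv : IsOrd v) : Jt v N 0 (1 : K[X][X]) := by
  rw [← Polynomial.C_1]
  refine Jt.C ?_
  rw [← Polynomial.C_1]
  refine Jm.C ?_
  intro _; simp [hv.one]

theorem Jt.X (hv : IsOrd v) : Jt v N 0 (X : K[X][X]) := fun j _ => by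
  rw [coeff_X]
  split_ifs with h
  · rw [← Polynomial.C_1]
    refine Jm.C ?_
    intro _; simp [hv.one]
  · exact Jm.zero _

theorem Jt.pow (hv : IsOrd v) {F : K[X][X]} (hF : Jt v N 0 F) (n : ℕ) : Jt v N 0 (F ^ n) := by
  induction n with
  | zero => simpa using Jt.one hv
  | succ n ih => rw [pow_succ]; exact ih.mul hv hF

/-- divisible by `X ^ N` means trivial for the truncation -/
theorem Jt.of_dvd {n : ℕ} {p : K[X][X]} (h : (Polynomial.X : K[X][X]) ^ N ∣ p) : Jt v N n p :=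
  fun j hj => by
  rw [X_pow_dvd_iff.1 h j hj]; exact Jm.zero _

end filt

section newton

variable {K : Type*} [Field K] {v : K → ℤ}

/-- Newton iteration -/
theorem newton (hv : IsOrd v) {x y c : K} (hx : Vg v 0 x) (hy : Vg v 0 y) (hc : Vg v 0 c)
    (h3 : c * (1 + 3 * x ^ 2) = 1) (hxy : y ^ 2 = x ^ 3 + x) (V : K[X][X])
    (hV : ∀ N, Jt v N 0 V) (n : ℕ) :
    ∃ z : K[X][X], (∀ N, Jt v N 0 z) ∧ (X : K[X][X]) ∣ z - C (C x) ∧
      (X : K[X][X]) ^ (n + 1) ∣ z ^ 3 + z - C (C y) ^ 2 + X * V := by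
  induction n with
  | zero =>
    refine ⟨C (C x), fun N => Jt.C (Jm.C hx), by simp, ?_⟩
    have : (C (C x) : K[X][X]) ^ 3 + C (C x) - C (C y) ^ 2 = 0 := by
      rw [← C_pow, ← C_pow, ← C_pow, ← C_pow, ← C_add, ← C_add, ← C_sub, ← C_sub, hxy]
      simp
    rw [this]; simp
  | succ n ih =>
    obtain ⟨z, hz, hzx, hP⟩ := ih
    set P : K[X][X] := z ^ 3 + z - C (C y) ^ 2 + X * V with hPdef
    have h3' : (C (C c) : K[X][X]) * (1 + 3 * C (C x) ^ 2) = 1 := by
      have : (C (C (c * (1 + 3 * x ^ 2))) : K[X][X]) = 1 := by rw [h3]; simp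
      have h3c : (C (C 3) : K[X][X]) = 3 := map_ofNat ((C : K[X] →+* K[X][X]).comp C) 3
      simpa only [C_mul, C_add, C_pow, C_1, h3c] using this
    have hPJ : ∀ N, Jt v N 0 P := fun N => by
      have h1 : Jt v N 0 (z ^ 3) := (hz N).pow hv 3
      have h2 : Jt v N 0 ((C (C y) : K[X][X]) ^ 2) := (Jt.C (Jm.C hy)).pow hv 2
      exact ((h1.add hv (hz N)).sub hv h2).add hv ((Jt.X hv).mul hv (hV N))
    refine ⟨z - C (C c) * P, fun N => (hz N).sub hv ((Jt.C (Jm.C hc)).mul hv (hPJ N)), ?_, ?_⟩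
    · have hXP : (X : K[X][X]) ∣ P := dvd_trans (dvd_pow_self _ (Nat.succ_ne_zero _)) hP
      have : z - C (C c) * P - C (C x) = (z - C (C x)) - C (C c) * P := by ring
      rw [this]
      exact dvd_sub hzx (dvd_mul_of_dvd_right hXP _)
    · have key : (z - C (C c) * P) ^ 3 + (z - C (C c) * P) - C (C y) ^ 2 + X * V =
          P * (C (C c) * 3 * (C (C x) + z) * (C (C x) - z)) +
            P ^ 2 * (3 * z * C (C c) ^ 2 - C (C c) ^ 3 * P) := by
        have e1 : (z - C (C c) * P) ^ 3 + (z - C (C c) * P) - C (C y) ^ 2 + X * V =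
          P - C (C c) * P * (1 + 3 * z ^ 2) +
            P ^ 2 * (3 * z * C (C c) ^ 2 - C (C c) ^ 3 * P) := by
          rw [hPdef]; ring
        rw [e1]
        have e2 : P = P * (C (C c) * (1 + 3 * C (C x) ^ 2)) := by rw [h3', mul_one]
        have e3 : P - C (C c) * P * (1 + 3 * z ^ 2) =
            P * (C (C c) * 3 * (C (C x) + z) * (C (C x) - z)) := by
          linear_combination e2
        rw [e3]
      rw [key]
      have d1 : (X : K[X][X]) ∣ C (C x) - z := by
        have := hzx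
        rw [← neg_sub]; exact (dvd_neg).2 hzx
      refine dvd_add ?_ ?_
      · rw [pow_succ]
        refine mul_dvd_mul hP ?_
        exact dvd_mul_of_dvd_right d1 _
      · refine dvd_mul_of_dvd_left ?_ _
        rw [pow_two]
        have : (X : K[X][X]) ^ (n + 1 + 1) ∣ X ^ (n + 1) * X ^ (n + 1) := by
          rw [← pow_add]; exact pow_dvd_pow _ (by omega)
        exact dvd_trans this (mul_dvd_mul hP hP)

end newton

section theta

variable {K : Type*} [Field K] {v : K → ℤ}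

/-- substitution of `z`, `y` -/
noncomputable def th0 (φ : k →+* K) (z : K[X][X]) (y : K) : MvPolynomial (Fin 2) k →+* K[X][X] :=
  MvPolynomial.eval₂Hom ((C.comp C).comp φ) ![z, C (C y)]

/-- substitution of `z`, `y`, `ξ` -/
noncomputable def th (φ : k →+* K) (z : K[X][X]) (y : K) :
    (MvPolynomial (Fin 2) k)[X] →+* K[X][X] :=
  Polynomial.eval₂RingHom (th0 φ z y) X

theorem th0_C (φ : k →+* K) (z : K[X][X]) (y : K) (a : k) :
    th0 φ z y (MvPolynomial.C a) = C (C (φ a)) := by simp [th0]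

theorem th0_X0 (φ : k →+* K) (z : K[X][X]) (y : K) : th0 φ z y (MvPolynomial.X 0) = z := by
  simp [th0]

theorem th0_X1 (φ : k →+* K) (z : K[X][X]) (y : K) :
    th0 φ z y (MvPolynomial.X 1) = C (C y) := by simp [th0]

theorem th_C (φ : k →+* K) (z : K[X][X]) (y : K) (a : MvPolynomial (Fin 2) k) :
    th φ z y (C a) = th0 φ z y a := by simp [th]

theorem th_X (φ : k →+* K) (z : K[X][X]) (y : K) : th φ z y X = X := by simp [th]

theorem th0_J (hv : IsOrd v) (φ : k →+* K) (hφ : ∀ a, Vg v 0 (φ a)) {z : K[X][X]} {y : K}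
    {N : ℕ} (hz : Jt v N 0 z) (hy : Vg v 0 y) (p : MvPolynomial (Fin 2) k) :
    Jt v N 0 (th0 φ z y p) := by
  induction p using MvPolynomial.induction_on with
  | C a => rw [th0_C]; exact Jt.C (Jm.C (hφ a))
  | add p q hp hq => rw [map_add]; exact hp.add hv hq
  | mul_X p i hp =>
    rw [map_mul]
    refine hp.mul hv (m := 0) ?_
    fin_cases i
    · simp only [Fin.zero_eta, th0_X0]; exact hz
    · simp only [Fin.mk_one, th0_X1]; exact Jt.C (Jm.C hy)

theorem th_J (hv : IsOrd v) (φ : k →+* K) (hφ : ∀ a, Vg v 0 (φ a)) {z : K[X][X]} {y : K}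
    {N : ℕ} (hz : Jt v N 0 z) (hy : Vg v 0 y) (p : (MvPolynomial (Fin 2) k)[X]) :
    Jt v N 0 (th φ z y p) := by
  induction p using Polynomial.induction_on' with
  | add p q hp hq => rw [map_add]; exact hp.add hv hq
  | monomial n a =>
    rw [← C_mul_X_pow_eq_monomial, map_mul, map_pow, th_X, th_C]
    exact (th0_J hv φ hφ hz hy a).mul hv ((Jt.X hv).pow hv n)

/-- the ideal of the moving point is mapped into the filtration, after multiplication by a unit -/
theorem th_ideal (hv : IsOrd v) (φ : k →+* K) (hφ : ∀ a, Vg v 0 (φ a)) {z D : K[X][X]} {y : K}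
    {N : ℕ} (hz : Jt v N 0 z) (hy : Vg v 1 y) (v0 : k)
    (hD : Jt v N 0 D) (hDz : Jt v N 1 (D * (z + C (C (φ v0)) * X)))
    (μ : ℕ) : ∀ (f : (MvPolynomial (Fin 2) k)[X]),
    f ∈ (Ideal.span {C (MvPolynomial.X 0) + C (MvPolynomial.C v0) * X,
      C (MvPolynomial.X 1)} : Ideal (MvPolynomial (Fin 2) k)[X]) ^ μ →
    Jt v N μ (D ^ μ * th φ z y f) := by
  have hy0 : Vg v 0 y := hy.mono (by omega)
  induction μ with
  | zero =>
    intro f _
    simpa using th_J hv φ hφ hz hy0 f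
  | succ μ ih =>
    intro f hf
    rw [Ideal.IsTwoSided.pow_succ] at hf
    refine Submodule.mul_induction_on hf ?_ ?_
    · intro a ha b hb
      have hb' := ih b hb
      have ha' : Jt v N 1 (D * th φ z y a) := by
        obtain ⟨p, q, rfl⟩ := Ideal.mem_span_pair.1 ha
        have e : D * th φ z y (p * (C (MvPolynomial.X 0) + C (MvPolynomial.C v0) * X) +
            q * C (MvPolynomial.X 1)) =
            th φ z y p * (D * (z + C (C (φ v0)) * X)) + th φ z y q * (D * C (C y)) := by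
          simp only [map_add, map_mul, th_C, th_X, th0_C, th0_X0, th0_X1]
          ring
        rw [e]
        refine Jt.add hv ?_ ?_
        · have := (th_J hv φ hφ hz hy0 p).mul hv hDz
          simpa using this
        · have h1 : Jt v N 1 (C (C y)) := Jt.C (Jm.C hy)
          have := (th_J hv φ hφ hz hy0 q).mul hv (hD.mul hv h1)
          simpa using this
      have e : D ^ (μ + 1) * th φ z y (a * b) = (D * th φ z y a) * (D ^ μ * th φ z y b) := by
        rw [map_mul]; ring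
      rw [e, add_comm μ 1]
      exact ha'.mul hv hb'
    · intro a b ha hb
      rw [map_add, mul_add]
      exact ha.add hv hb

end theta

section final

variable {K : Type*} [Field K] {v : K → ℤ}

theorem final (hv : IsOrd v) (φ : k →+* K) (hφ : ∀ a, Vg v 0 (φ a)) (x y : K)
    (hx1 : Vg v 1 x) (hy1 : Vg v 1 y) (hxy : y ^ 2 = x ^ 3 + x)
    (ψ : MvPolynomial (Fin 2) k →+* K) (hψC : ∀ a, ψ (MvPolynomial.C a) = φ a)
    (hψ0 : ψ (MvPolynomial.X 0) = x) (hψ1 : ψ (MvPolynomial.X 1) = y)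
    (v0 : k) (μ : ℕ) (f : (MvPolynomial (Fin 2) k)[X])
    (hf : f ∈ (Ideal.span {C (MvPolynomial.X 0) + C (MvPolynomial.C v0) * X,
      C (MvPolynomial.X 1)} : Ideal (MvPolynomial (Fin 2) k)[X]) ^ μ)
    (w : ℕ) (g : ℕ → MvPolynomial (Fin 2) k)
    (hg : ∀ l, l ≤ w → f.coeff l = Geq k ^ (w - l) * g l) (F : K[X])
    (hF : F = ∑ j ∈ Finset.range (w + 1), C (ψ (g (w - j))) * X ^ j)
    (hF0 : F ≠ 0) :
    (μ : ℤ) ≤ oo v (φ v0) F := by
  have hx0 : Vg v 0 x := hx1.mono (by omega)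
  have hy0 : Vg v 0 y := hy1.mono (by omega)
  have hone : Vg v 0 (1 : K) := fun _ => by simp [hv.one]
  -- units
  have hunit : ∀ a : K, Vg v 0 a → (1 + a * x ^ 2) ≠ 0 ∧ v (1 + a * x ^ 2) = 0 := by
    intro a ha
    have := hv.add_of_lt (x := 1) (y := a * x ^ 2) one_ne_zero (by
      intro h
      rw [hv.one]
      have h1 : Vg v (0 + (1 + 1)) (a * (x * x)) := ha.mul hv (hx1.mul hv hx1)
      have := h1 (by rwa [← pow_two])
      rw [← pow_two] at this
      push_cast at this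
      linarith)
    rw [hv.one] at this
    exact this
  obtain ⟨h3ne, h3v⟩ := hunit 3 (by
    have : Vg v 0 ((1 : K) + 1 + 1) := (hone.add hv hone).add hv hone
    have e : (3 : K) = 1 + 1 + 1 := by norm_num
    rw [e]; exact this)
  obtain ⟨h1ne, h1v⟩ := hunit 1 hone
  rw [one_mul] at h1ne h1v
  set c : K := (1 + 3 * x ^ 2)⁻¹ with hc
  have hcV : Vg v 0 c := by
    intro _
    rw [hc, hv.inv h3ne, h3v]; simp
  have hc3 : c * (1 + 3 * x ^ 2) = 1 := inv_mul_cancel₀ h3ne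
  set t : K[X] := C (φ v0) with ht
  have htJ : Jm v 0 t := Jm.C (hφ v0)
  set V : K[X][X] := C (X + t) + C (t ^ 3) * X ^ 2 with hVdef
  have ht3 : ∀ N, Jt v N 0 (C (t ^ 3) : K[X][X]) := fun N => by
    rw [C_pow]; exact (Jt.C htJ).pow hv 3
  have hV : ∀ N, Jt v N 0 V := fun N =>
    (Jt.C (((Jm.X hv).mono (by omega)).add hv htJ)).add hv
      ((ht3 N).mul hv ((Jt.X hv).pow hv 2))
  obtain ⟨z, hz, hzx, hE⟩ := newton hv hx0 hy0 hcV hc3 hxy V hV (w + 1)
  obtain ⟨E', hE'⟩ := hE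
  set N := w + 1 with hN
  set D : K[X][X] := 1 + z ^ 2 - C t * X * z + (C t * X) ^ 2 with hD
  have htX : ∀ N, Jt v N 0 (C t * X : K[X][X]) := fun N => (Jt.C htJ).mul hv (Jt.X hv)
  have hDJ : Jt v N 0 D :=
    (((Jt.one hv).add hv ((hz N).pow hv 2)).sub hv ((htX N).mul hv (hz N))).add hv
      ((htX N).pow hv 2)
  have hDz : D * (z + C t * X) = C (C y) ^ 2 - C X * X + X ^ (w + 1 + 1) * E' := by
    rw [← hE', hD, hVdef]
    simp only [C_add, C_pow]
    ring
  have hDzJ : Jt v N 1 (D * (z + C t * X)) := by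
    rw [hDz]
    refine Jt.add hv (Jt.sub hv ?_ ?_) (Jt.of_dvd ?_)
    · have h1 : Jt v N 1 (C (C y)) := Jt.C (Jm.C hy1)
      rw [pow_two]
      exact (h1.mul hv h1).mono (by omega)
    · exact (Jt.C (Jm.X hv)).mul hv (Jt.X hv)
    · exact dvd_mul_of_dvd_left (pow_dvd_pow _ (by omega)) _
  have hmem := th_ideal hv φ hφ (hz N) hy1 v0 hDJ hDzJ μ f hf
  -- the value of `Θ f`
  set Θ := th φ z y
  have hG : th0 φ z y (Geq k) = X * (V - X ^ (w + 1) * E') := by
    have : th0 φ z y (Geq k) = C (C y) ^ 2 - z ^ 3 - z := by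
      simp only [Geq, map_sub, map_pow, th0_X0, th0_X1]
    rw [this]
    have h := hE'
    rw [pow_succ] at h
    linear_combination -h
  have hψθ : ∀ p, (th0 φ z y p).coeff 0 = C (ψ p) := by
    intro p
    have : (Polynomial.constantCoeff : K[X][X] →+* K[X]).comp (th0 φ z y) = C.comp ψ := by
      refine MvPolynomial.ringHom_ext ?_ ?_
      · intro a
        simp only [RingHom.comp_apply, th0_C, hψC]; simp
      · intro i
        fin_cases i
        · simp only [Fin.zero_eta, RingHom.comp_apply, th0_X0, hψ0]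
          obtain ⟨q, hq⟩ := hzx
          have : z = C (C x) + X * q := by rw [← hq]; ring
          rw [this]; simp
        · simp only [Fin.mk_one, RingHom.comp_apply, th0_X1, hψ1]; simp
    have := RingHom.congr_fun this p
    simpa using this
  obtain ⟨q, hq⟩ : (X : (MvPolynomial (Fin 2) k)[X]) ^ (w + 1) ∣
      f - ∑ l ∈ Finset.range (w + 1), C (f.coeff l) * X ^ l := by
    rw [X_pow_dvd_iff]
    intro d hd
    simp only [coeff_sub, finsetSum_coeff, coeff_C_mul, coeff_X_pow]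
    simp [hd]
  set B : K[X][X] := (∑ l ∈ Finset.range (w + 1), (V - X ^ (w + 1) * E') ^ (w - l) *
    th0 φ z y (g l)) + X * Θ q with hB
  have hΘf : Θ f = X ^ w * B := by
    have e : f = (∑ l ∈ Finset.range (w + 1), C (f.coeff l) * X ^ l) + X ^ (w + 1) * q := by
      rw [← hq]; ring
    rw [e, map_add, map_sum, hB, mul_add, Finset.mul_sum]
    congr 1
    · refine Finset.sum_congr rfl fun l hl => ?_
      have hl' : l ≤ w := by simpa [Nat.lt_succ_iff] using hl
      rw [map_mul, map_pow, th_X, th_C, hg l hl', map_mul, map_pow, hG, mul_pow]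
      have : (X : K[X][X]) ^ w = X ^ (w - l) * X ^ l := by rw [← pow_add]; congr 1; omega
      rw [this]; ring
    · rw [map_mul, map_pow, th_X]; ring
  have hB0 : B.coeff 0 = taylor (φ v0) F := by
    have hVE : (V - X ^ (w + 1) * E').coeff 0 = X + t := by
      rw [hVdef]
      simp [coeff_zero_eq_eval_zero]
    have e1 : ∀ l, ((V - X ^ (w + 1) * E') ^ (w - l) * th0 φ z y (g l)).coeff 0 =
        (X + t) ^ (w - l) * C (ψ (g l)) := by
      intro l
      rw [mul_coeff_zero, hψθ, coeff_zero_eq_eval_zero, eval_pow, ← coeff_zero_eq_eval_zero, hVE]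
    rw [hB, coeff_add, finsetSum_coeff]
    simp only [e1]
    rw [mul_coeff_zero, coeff_X_zero, zero_mul, add_zero, hF, taylor_apply, Polynomial.sum_comp,
      ← Finset.sum_range_reflect]
    refine Finset.sum_congr rfl fun j hj => ?_
    have hj' : j ≤ w := by have := Finset.mem_range.1 hj; omega
    rw [mul_comp, C_comp, pow_comp, X_comp, mul_comm]
    congr 2
    omega
  have hD0 : D.coeff 0 = C (1 + x ^ 2) := by
    obtain ⟨r, hr⟩ := hzx
    have : z = C (C x) + X * r := by rw [← hr]; ring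
    rw [hD, this, coeff_zero_eq_eval_zero]
    simp
  have hcw : (D ^ μ * Θ f).coeff w = C ((1 + x ^ 2) ^ μ) * taylor (φ v0) F := by
    rw [hΘf]
    have : D ^ μ * (X ^ w * B) = X ^ w * (D ^ μ * B) := by ring
    rw [this]
    have h2 := coeff_X_pow_mul (D ^ μ * B) w 0
    rw [zero_add] at h2
    rw [h2, mul_coeff_zero, hB0, coeff_zero_eq_eval_zero, eval_pow, ← coeff_zero_eq_eval_zero,
      hD0, C_pow]
  have hJ : Jm v μ (C ((1 + x ^ 2) ^ μ) * taylor (φ v0) F) := by
    rw [← hcw]; exact hmem w (by omega)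
  have hT0 : taylor (φ v0) F ≠ 0 := by
    intro h
    exact hF0 ((taylor_injective (φ v0)) (by rw [h, map_zero]))
  unfold oo
  rw [le_gv_iff hT0]
  intro j hj
  have h1 := hJ j
  rw [coeff_C_mul] at h1
  have hp : (1 + x ^ 2) ^ μ ≠ 0 := pow_ne_zero _ h1ne
  have h2 := h1 (mul_ne_zero hp hj)
  rw [hv.mul hp hj, hv.pow h1ne, h1v, mul_zero, zero_add] at h2
  have : (μ : ℤ) - j ≤ ((μ - j : ℕ) : ℤ) := by omega
  linarith

end final

end Thick

theorem Thick.R0_rel : yR k ^ 2 = xR k ^ 3 + xR k := by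
  have h : WeierstrassCurve.Affine.CoordinateRing.mk (E0 k)
      (WeierstrassCurve.Affine.polynomial (E0 k)) = 0 := AdjoinRoot.mk_self
  simp only [WeierstrassCurve.Affine.polynomial, C_0, zero_mul, add_zero, C_1,
    one_mul, map_sub, map_pow] at h
  have h' := sub_eq_zero.1 h
  unfold yR xR
  rw [h', C_add, C_pow, map_add, map_pow]

theorem mult_limit (v : K0 k → ℤ) (hv : IsOrd v)
    (hk : ∀ c : k, c ≠ 0 → v (algebraMap k (K0 k) c) = 0)
    (hR : ∀ r : R0 k, r ≠ 0 → 0 ≤ v (algebraMap (R0 k) (K0 k) r))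
    (hx : 1 ≤ v (algebraMap (R0 k) (K0 k) (xR k))) (hy : 1 ≤ v (algebraMap (R0 k) (K0 k) (yR k)))
    (v0 : k) (μ : ℕ) (f : (MvPolynomial (Fin 2) k)[X])
    (hf : f ∈ (Ideal.span {C (MvPolynomial.X 0) + C (MvPolynomial.C v0) * X,
      C (MvPolynomial.X 1)} : Ideal (MvPolynomial (Fin 2) k)[X]) ^ μ)
    (w : ℕ) (g : ℕ → MvPolynomial (Fin 2) k)
    (hg : ∀ l, l ≤ w → f.coeff l = Geq k ^ (w - l) * g l) (F : (K0 k)[X])
    (hF : F = ∑ j ∈ Finset.range (w + 1), C (algebraMap (R0 k) (K0 k) (psi k (g (w - j)))) * X ^ j)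
    (hF0 : F ≠ 0) :
    (μ : ℤ) ≤ oo v (algebraMap k (K0 k) v0) F := by
  refine Thick.final hv (algebraMap k (K0 k)) ?_ (algebraMap (R0 k) (K0 k) (xR k))
    (algebraMap (R0 k) (K0 k) (yR k)) (fun _ => by exact_mod_cast hx)
    (fun _ => by exact_mod_cast hy) ?_ ((algebraMap (R0 k) (K0 k)).comp (psi k).toRingHom)
    ?_ ?_ ?_ v0 μ f hf w g hg F hF hF0
  · intro a ha
    have : a ≠ 0 := by rintro rfl; exact ha (map_zero _)
    rw [hk a this]; simp
  · rw [← map_pow, Thick.R0_rel, map_add, map_pow]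
  · intro a
    simp only [RingHom.comp_apply, AlgHom.toRingHom_eq_coe, RingHom.coe_coe, psi,
      MvPolynomial.aeval_C]
    exact (IsScalarTower.algebraMap_apply k (R0 k) (K0 k) a).symm
  · simp [psi]
  · simp [psi]

end ShghE
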