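import Pool.Agent.ShghE.CurveDefs

/-!
# Points of large order on `y² = x³ + x`

Doubling is surjective on points (char ≠ 2, algebraically closed): `x(2Q) = (x² - 1)² / (4 (x³ + x))`,
so there are points of order `2^n` for every `n`.
-/

namespace ShghE

open WeierstrassCurve WeierstrassCurve.Affine

variable {k : Type*} [Field k]

private theorem torsion_equation_iff (x y : k) : (E0 k).Equation x y ↔ y ^ 2 = x ^ 3 + x := by
  rw [equation_iff]
  simp

private theorem torsion_nonsingular (h2 : (2 : k) ≠ 0) {x y : k} (h : y ^ 2 = x ^ 3 + x) :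
    (E0 k).Nonsingular x y := by
  rw [nonsingular_iff']
  refine ⟨(torsion_equation_iff x y).2 h, ?_⟩
  by_contra hcon
  push Not at hcon
  obtain ⟨h3, h4⟩ := hcon
  simp only [zero_mul, mul_zero, add_zero, zero_sub, neg_eq_zero] at h3 h4
  have hy : y = 0 := (mul_eq_zero.1 h4).resolve_left h2
  subst hy
  have h5 : x * (x ^ 2 + 1) = 0 := by linear_combination -h
  rcases mul_eq_zero.1 h5 with h6 | h6
  · subst h6; simp at h3
  · apply h2
    linear_combination 3 * h6 - h3

private theorem torsion_double_surj [IsAlgClosed k] [DecidableEq k] (h2 : (2 : k) ≠ 0)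
    (P : (E0 k).Point) : ∃ Q : (E0 k).Point, Q + Q = P := by
  rcases P with _ | ⟨a, b, hab⟩
  · exact ⟨0, by rw [add_zero]; rfl⟩
  · -- the quartic
    have hdeg : ∃ x : k, x ^ 4 - 4 * a * x ^ 3 - 2 * x ^ 2 - 4 * a * x + 1 = 0 := by
      have hne : (Polynomial.X ^ 4 - Polynomial.C (4 * a) * Polynomial.X ^ 3 -
          Polynomial.C 2 * Polynomial.X ^ 2 - Polynomial.C (4 * a) * Polynomial.X + 1 :
          Polynomial k).degree ≠ 0 := by
        have : (Polynomial.X ^ 4 - Polynomial.C (4 * a) * Polynomial.X ^ 3 -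
          Polynomial.C 2 * Polynomial.X ^ 2 - Polynomial.C (4 * a) * Polynomial.X + 1 :
          Polynomial k).degree = 4 := by
          compute_degree!
        rw [this]
        decide
      obtain ⟨x, hx⟩ := IsAlgClosed.exists_root _ hne
      refine ⟨x, ?_⟩
      simpa [Polynomial.IsRoot.def] using hx
    obtain ⟨x, hx⟩ := hdeg
    have hx0 : x ≠ 0 := by
      rintro rfl
      simp at hx
    have hx1 : x ^ 2 + 1 ≠ 0 := by
      intro h
      have h4 : (2 : k) * 2 = 0 := by
        linear_combination hx - (x ^ 2 + 1 - 4 * a * x - 4) * h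
      rcases mul_eq_zero.1 h4 with h5 | h5 <;> exact h2 h5
    obtain ⟨y, hy⟩ := IsAlgClosed.exists_pow_nat_eq (x ^ 3 + x) (n := 2) (by norm_num)
    have hy0 : y ≠ 0 := by
      rintro rfl
      have : x * (x ^ 2 + 1) = 0 := by linear_combination -hy
      rcases mul_eq_zero.1 this with h | h
      · exact hx0 h
      · exact hx1 h
    have hns := torsion_nonsingular h2 hy
    have hyne : y ≠ (E0 k).negY x y := by
      simp only [negY, zero_mul, sub_zero]
      intro h
      apply hy0
      have : (2 : k) * y = 0 := by linear_combination h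
      exact (mul_eq_zero.1 this).resolve_left h2
    have hslope : (E0 k).slope x x y y = (3 * x ^ 2 + 1) / (2 * y) := by
      rw [slope_of_Y_ne rfl hyne]
      simp only [negY, zero_mul, mul_zero, sub_zero, add_zero]
      congr 1
      ring
    have hX : (E0 k).addX x x ((E0 k).slope x x y y) = a := by
      rw [hslope]
      simp only [addX, zero_mul, add_zero, sub_zero]
      have h2y : (2 * y) ≠ 0 := mul_ne_zero h2 hy0
      have h4 : (4 : k) * y ^ 2 ≠ 0 := by
        have : (4 : k) * y ^ 2 = (2 * y) ^ 2 := by ring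
        rw [this]
        exact pow_ne_zero 2 h2y
      rw [div_pow]
      have : ((3 * x ^ 2 + 1) ^ 2 / (2 * y) ^ 2 : k) = a + 2 * x := by
        rw [div_eq_iff (pow_ne_zero 2 h2y)]
        linear_combination hx - 4 * (a + 2 * x) * hy
      rw [this]
      ring
    have hadd := Point.add_self_of_Y_ne (h₁ := hns) hyne
    -- the sum is P or -P
    have hcase : Point.some x y hns + Point.some x y hns = Point.some a b hab ∨
        Point.some x y hns + Point.some x y hns = - Point.some a b hab := by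
      rw [hadd]
      apply Point.X_eq_iff.1
      exact hX
    rcases hcase with h | h
    · exact ⟨_, h⟩
    · refine ⟨- Point.some x y hns, ?_⟩
      rw [← neg_add, h, neg_neg]

private theorem torsion_T_ns (h2 : (2 : k) ≠ 0) : (E0 k).Nonsingular 0 0 :=
  torsion_nonsingular h2 (by simp)

private theorem torsion_exists_order_pow [IsAlgClosed k] [DecidableEq k] (h2 : (2 : k) ≠ 0)
    (n : ℕ) : ∃ U : (E0 k).Point, addOrderOf U = 2 ^ (n + 1) := by
  have key : ∀ n : ℕ, ∃ U : (E0 k).Point, 2 ^ n • U = Point.some 0 0 (torsion_T_ns h2) := by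
    intro n
    induction n with
    | zero => exact ⟨_, by rw [pow_zero, one_smul]⟩
    | succ n ih =>
      obtain ⟨U, hU⟩ := ih
      obtain ⟨V, hV⟩ := torsion_double_surj h2 U
      refine ⟨V, ?_⟩
      rw [pow_succ, mul_smul, two_smul, hV, hU]
  obtain ⟨U, hU⟩ := key n
  refine ⟨U, addOrderOf_eq_prime_pow ?_ ?_⟩
  · rw [hU]
    exact Point.some_ne_zero _
  · rw [pow_succ', mul_smul, hU, two_smul]
    apply Point.add_self_of_Y_eq
    simp [negY]

theorem exists_large_order [IsAlgClosed k] [DecidableEq k] (h2 : (2 : k) ≠ 0) (B : ℕ) :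
    ∃ U : (E0 k).Point, ∀ j : ℕ, 1 ≤ j → j ≤ B → j • U ≠ 0 := by
  obtain ⟨U, hU⟩ := torsion_exists_order_pow h2 B
  refine ⟨U, fun j hj hjB h => ?_⟩
  have h1 := addOrderOf_dvd_of_nsmul_eq_zero h
  have h3 := Nat.le_of_dvd (by omega) h1
  rw [hU] at h3
  have h4 : B + 1 < 2 ^ (B + 1) := Nat.lt_two_pow_self
  omega

/-- Balanced digits: a vanishing sum in base `N > 2 B` has vanishing digits. -/
private theorem torsion_digits (N B : ℤ) (hN : B < N) (hN0 : 0 < N) :
    ∀ (n : ℕ) (c : Fin n → ℤ), (∀ i, |c i| ≤ B) → ∑ i, c i * N ^ (i : ℕ) = 0 → c = 0 := by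
  intro n
  induction n with
  | zero => intro c _ _; exact Subsingleton.elim _ _
  | succ n ih =>
    intro c hc hsum
    rw [Fin.sum_univ_succ] at hsum
    have h1 : ∑ i : Fin n, c i.succ * N ^ ((i.succ : Fin (n + 1)) : ℕ) =
        N * ∑ i : Fin n, c i.succ * N ^ (i : ℕ) := by
      rw [Finset.mul_sum]
      refine Finset.sum_congr rfl fun i _ => ?_
      rw [Fin.val_succ, pow_succ]
      ring
    rw [h1] at hsum
    simp only [Fin.val_zero, pow_zero, mul_one] at hsum
    have h0 : c 0 = 0 := by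
      apply Int.eq_zero_of_abs_lt_dvd (m := N)
      · exact ⟨- ∑ i : Fin n, c i.succ * N ^ (i : ℕ), by linear_combination hsum⟩
      · exact lt_of_le_of_lt (hc 0) hN
    have h2 : (fun i : Fin n => c i.succ) = 0 := by
      apply ih _ (fun i => hc i.succ)
      rw [h0, zero_add] at hsum
      exact (mul_eq_zero.1 hsum).resolve_left hN0.ne'
    funext i
    refine Fin.cases h0 (fun j => ?_) i
    exact congrFun h2 j

private theorem torsion_bound (N B : ℤ) (hB : 0 ≤ B) (hN : N = 2 * B + 1) :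
    ∀ (n : ℕ) (c : Fin n → ℤ), (∀ i, |c i| ≤ B) → 2 * |∑ i, c i * N ^ (i : ℕ)| + 1 ≤ N ^ n := by
  intro n
  induction n with
  | zero => intro c _; simp
  | succ n ih =>
    intro c hc
    rw [Fin.sum_univ_castSucc]
    have h1 := ih (fun i => c i.castSucc) (fun i => hc _)
    have h2 : |∑ i : Fin n, c i.castSucc * N ^ ((i.castSucc : Fin (n + 1)) : ℕ) +
        c (Fin.last n) * N ^ ((Fin.last n : Fin (n + 1)) : ℕ)| ≤
        |∑ i : Fin n, c i.castSucc * N ^ (i : ℕ)| + B * N ^ n := by
      refine (abs_add_le _ _).trans (add_le_add le_rfl ?_)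
      rw [abs_mul, Fin.val_last, abs_of_nonneg (pow_nonneg (by omega) n : (0 : ℤ) ≤ N ^ n)]
      exact mul_le_mul_of_nonneg_right (hc _) (pow_nonneg (by omega) n)
    have h3 : N ^ (n + 1) = N ^ n + 2 * B * N ^ n := by rw [pow_succ, hN]; ring
    rw [h3]
    linarith

/-- Nine points which are independent up to `B`, also modulo the 2-torsion point `T`. -/
theorem exists_indep [IsAlgClosed k] [DecidableEq k] (h2 : (2 : k) ≠ 0) (T : (E0 k).Point)
    (hT : T + T = 0) (B : ℕ) :
    ∃ P : Fin 9 → (E0 k).Point, ∀ c : Fin 9 → ℤ, (∀ i, |c i| ≤ B) → ∀ ε : ℤ,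
      ∑ i, c i • P i = ε • T → c = 0 := by
  set N : ℤ := 2 * (B : ℤ) + 1 with hN
  obtain ⟨U, hU⟩ := exists_large_order (k := k) h2 ((2 * B + 1) ^ 9)
  refine ⟨fun i => N ^ (i : ℕ) • U, fun c hc ε hsum => ?_⟩
  have h1 : (∑ i, c i * N ^ (i : ℕ)) • U = ε • T := by
    rw [Finset.sum_smul, ← hsum]
    refine Finset.sum_congr rfl fun i _ => ?_
    rw [mul_smul]
  have h3 : (2 * ∑ i, c i * N ^ (i : ℕ)) • U = 0 := by
    rw [mul_smul, h1, smul_comm, two_smul, hT, smul_zero]
  have h4 : (2 * ∑ i, c i * N ^ (i : ℕ)).natAbs • U = 0 := by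
    rcases Int.natAbs_eq (2 * ∑ i, c i * N ^ (i : ℕ)) with h | h
    · rw [h, natCast_zsmul] at h3
      exact h3
    · rw [h, neg_smul, neg_eq_zero, natCast_zsmul] at h3
      exact h3
  have h5 := torsion_bound N B (by positivity) hN 9 c hc
  have h6 : ∑ i, c i * N ^ (i : ℕ) = 0 := by
    by_contra hne
    refine hU _ ?_ ?_ h4
    · have : (2 * ∑ i, c i * N ^ (i : ℕ)) ≠ 0 := mul_ne_zero two_ne_zero hne
      have := Int.natAbs_pos.2 this
      omega
    · have h7 : ((2 * ∑ i, c i * N ^ (i : ℕ)).natAbs : ℤ) ≤ (((2 * B + 1) ^ 9 : ℕ) : ℤ) := by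
        rw [Int.natCast_natAbs, abs_mul, abs_of_pos (by norm_num : (0 : ℤ) < 2)]
        have h8 : (((2 * B + 1) ^ 9 : ℕ) : ℤ) = N ^ 9 := by
          rw [hN]; push_cast; ring
        rw [h8]
        linarith
      exact_mod_cast h7
  exact torsion_digits N B (by omega) (by omega) 9 c hc h6

end ShghE
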