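import Pool.Agent.ShghE.SMain
import Pool.Agent.ShghE.Curve
import Pool.Agent.ShghE.Torsion
import Pool.Agent.ShghE.Degen
import Pool.Agent.ShghE.Thick
import Pool.Agent.ShghE.Transfer

/-!
# Main theorem
-/

namespace ShghE

open MvPolynomial

section divf

variable {A : Type*} [AddCommGroup A]

open Classical in
/-- The divisor `c0 [0] + Σ c_i [p_i]`. -/
noncomputable def divf (c0 : ℤ) (c : Fin 9 → ℤ) (p : Fin 9 → A) (P : A) : ℤ :=
  c0 * (if P = 0 then 1 else 0) + ∑ i, c i * (if P = p i then 1 else 0)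

variable (c0 : ℤ) (c : Fin 9 → ℤ) (p : Fin 9 → A)

theorem divf_eq_zero {P : A} (h0 : P ≠ 0) (h : ∀ i, P ≠ p i) : divf c0 c p P = 0 := by
  unfold divf
  rw [if_neg h0, Finset.sum_eq_zero]
  · simp
  · intro i _
    rw [if_neg (h i)]
    simp

open Classical in
theorem divf_support :
    Function.support (divf c0 c p) ⊆ ((insert 0 (Finset.univ.image p) : Finset A) : Set A) := by
  intro P hP
  by_contra h
  apply hP
  simp only [Finset.coe_insert, Finset.coe_image, Finset.coe_univ, Set.image_univ,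
    Set.mem_insert_iff, Set.mem_range, not_or, not_exists] at h
  exact divf_eq_zero c0 c p h.1 (fun i e => h.2 i e.symm)

theorem divf_fin : (Function.support (divf c0 c p)).Finite := by
  classical
  exact (Finset.finite_toSet _).subset (divf_support c0 c p)

theorem divf_sum : ∑ᶠ P, divf c0 c p P = c0 + ∑ i, c i := by
  classical
  rw [finsum_eq_sum_of_support_subset _ (divf_support c0 c p)]
  have h1 : ∑ x ∈ insert 0 (Finset.image p Finset.univ), (c0 * if x = 0 then 1 else 0) = c0 := by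
    rw [Finset.sum_eq_single 0]
    · simp
    · intro b _ hb
      simp [hb]
    · intro h
      exact absurd (Finset.mem_insert_self _ _) h
  have h2 : ∑ x ∈ insert 0 (Finset.image p Finset.univ), ∑ i, (c i * if x = p i then 1 else 0) =
      ∑ i, c i := by
    rw [Finset.sum_comm]
    refine Finset.sum_congr rfl fun i _ => ?_
    rw [Finset.sum_eq_single (p i)]
    · simp
    · intro b _ hb
      simp [hb]
    · intro h
      exfalso
      apply h
      simp
  unfold divf
  rw [Finset.sum_add_distrib, h1, h2]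

theorem divf_sum_smul : ∑ᶠ P, divf c0 c p P • P = ∑ i, c i • p i := by
  classical
  rw [finsum_eq_sum_of_support_subset (s := insert 0 (Finset.univ.image p))]
  · unfold divf
    simp only [add_smul, Finset.sum_add_distrib, Finset.sum_smul]
    rw [Finset.sum_comm]
    have h1 : ∑ x ∈ insert 0 (Finset.image p Finset.univ), (c0 * if x = 0 then 1 else 0) • x = 0 := by
      refine Finset.sum_eq_zero fun x _ => ?_
      by_cases hx : x = 0
      · simp [hx]
      · simp [hx]
    rw [h1, zero_add]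
    refine Finset.sum_congr rfl fun i _ => ?_
    rw [Finset.sum_eq_single (p i)]
    · simp
    · intro b _ hb
      simp [hb]
    · intro h
      exfalso
      apply h
      simp
  · refine Set.Subset.trans ?_ (divf_support c0 c p)
    intro P hP h
    apply hP
    simp only [h, zero_smul]

theorem divf_zero (h : ∀ i, p i ≠ 0) : divf c0 c p 0 = c0 := by
  unfold divf
  rw [Finset.sum_eq_zero]
  · simp
  · intro i _
    rw [if_neg (fun e => h i e.symm)]
    simp

theorem divf_apply (h : ∀ i, p i ≠ 0) (hp : Function.Injective p) (i : Fin 9) :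
    divf c0 c p (p i) = c i := by
  unfold divf
  rw [if_neg (h i), Finset.sum_eq_single i]
  · simp
  · intro j _ hj
    rw [if_neg (fun e => hj (hp e).symm)]
    simp
  · simp

end divf

section indep

variable {A : Type*} [AddCommGroup A] {p : Fin 9 → A} {T : A} {B : ℕ}

/-- independence up to `B` modulo `T` -/
def Indep (p : Fin 9 → A) (T : A) (B : ℕ) : Prop :=
  ∀ c : Fin 9 → ℤ, (∀ i, |c i| ≤ B) → ∀ ε : ℤ, ∑ i, c i • p i = ε • T → c = 0

theorem Indep.ne_zero (h : Indep p T B) (hB : 1 ≤ B) (i : Fin 9) : p i ≠ 0 := by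
  intro e
  have := h (Pi.single i 1) (fun j => ?_) 0 ?_
  · simpa using congrFun this i
  · by_cases hj : j = i
    · subst hj; simpa using hB
    · simp [hj]
  · rw [Finset.sum_eq_single i]
    · simp [e]
    · intro j _ hj
      simp [hj]
    · simp

theorem Indep.ne_T (h : Indep p T B) (hB : 1 ≤ B) (i : Fin 9) : p i ≠ T := by
  intro e
  have := h (Pi.single i 1) (fun j => ?_) 1 ?_
  · simpa using congrFun this i
  · by_cases hj : j = i
    · subst hj; simpa using hB
    · simp [hj]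
  · rw [Finset.sum_eq_single i]
    · simp [e]
    · intro j _ hj
      simp [hj]
    · simp

theorem Indep.inj (h : Indep p T B) (hB : 1 ≤ B) : Function.Injective p := by
  intro i j e
  by_contra hij
  have := h (Pi.single i 1 - Pi.single j 1) (fun l => ?_) 0 ?_
  · have := congrFun this i
    simp [hij] at this
  · by_cases hl : l = i
    · subst hl; simpa [Pi.single_apply, hij] using hB
    · by_cases hl' : l = j
      · subst hl'; simpa [Pi.single_apply, hl] using hB
      · simp [hl, hl']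
  · simp only [Pi.sub_apply, sub_smul, Finset.sum_sub_distrib, zero_smul]
    rw [Finset.sum_eq_single i, Finset.sum_eq_single j]
    · simp [e]
    · intro l _ hl
      simp [hl]
    · simp
    · intro l _ hl
      simp [hl]
    · simp

end indep

section core

open WeierstrassCurve WeierstrassCurve.Affine

variable {k : Type*} [Field k]

theorem xR_mem : xR k ∈ (CoordinateRing.XYIdeal (E0 k) 0 (Polynomial.C 0)) ^ 1 := by
  rw [pow_one]
  refine Ideal.subset_span ?_
  left
  simp [xR, CoordinateRing.XClass]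

theorem yR_mem : yR k ∈ (CoordinateRing.XYIdeal (E0 k) 0 (Polynomial.C 0)) ^ 1 := by
  rw [pow_one]
  refine Ideal.subset_span ?_
  right
  simp [yR, CoordinateRing.YClass]

theorem core [IsAlgClosed k] [DecidableEq k] (h2 : (2 : k) ≠ 0)
    (P : Fin 10 → Fin 2 → k)
    (hP : AlgebraicIndependent (⊥ : Subfield k) (fun ij : Fin 10 × Fin 2 => P ij.1 ij.2))
    (f : MvPolynomial (Fin 2) k) (hf : f ≠ 0) (δ : ℕ) (hdeg : f.totalDegree ≤ δ) (μ : Fin 10 → ℕ)
    (hμ : ∀ i, f ∈ ptIdeal (P i 0) (P i 1) ^ μ i) (B : ℕ) (hB : 1 ≤ B) :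
    ∃ (E : EField k (K0 k) (E0 k).Point) (p : Fin 9 → (E0 k).Point) (n : E.Twist) (v0 : k)
      (F : Polynomial (K0 k)) (M : (E0 k).Point → ℤ),
      v0 ≠ 0 ∧ E.HasSym n v0 ∧ Indep p E.T B ∧ n.s = - ∑ i, p i ∧ (∀ i, n.n (p i) = -1) ∧
      F ≠ 0 ∧ (Function.support M).Finite ∧ M E.T = 0 ∧ (∀ Q, 0 ≤ M Q + E.w n Q F) ∧
      (μ (Fin.last 9) : ℤ) ≤ oo (E.v E.T) (algebraMap k (K0 k) v0) F ∧
      ∑ᶠ Q, M Q = 3 * (δ : ℤ) - ∑ i : Fin 9, (μ i.castSucc : ℤ) ∧
      ∑ᶠ Q, M Q • Q = ∑ i : Fin 9, (-(μ i.castSucc : ℤ)) • p i ∧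
      (∀ i : Fin 9, M (p i) = - (μ i.castSucc : ℤ)) ∧
      (∀ i, 0 ≤ E.v (p i) F.leadingCoeff) ∧
      μ 0 + 2 * F.natDegree ≤ δ ∧ 3 * F.natDegree ≤ δ := by
  obtain ⟨CD⟩ := exists_curveData h2
  obtain ⟨p, hp⟩ := exists_indep h2 CD.E.T CD.E.T_two B
  have hI : Indep p CD.E.T B := hp
  have hp0 := hI.ne_zero hB
  have hpT := hI.ne_T hB
  have hpi := hI.inj hB
  have hT0 : CD.E.T ≠ 0 := by
    rw [CD.T_eq]
    exact Point.some_ne_zero _
  have hcoord : ∀ i, ∃ (a b : k) (h : (E0 k).Nonsingular a b), p i = .some a b h := by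
    intro i
    have := hp0 i
    revert this
    rcases p i with _ | ⟨a, b, h⟩
    · intro h
      exact absurd rfl h
    · intro _
      exact ⟨a, b, h, rfl⟩
  choose a b hns hpab using hcoord
  have hab : ∀ i, b i ^ 2 = a i ^ 3 + a i := fun i => eq_of_nonsingular (hns i)
  let n : CD.E.Twist :=
    { n := divf 9 (fun _ => -1) p
      fin := divf_fin _ _ _
      deg := by rw [divf_sum]; simp
      nT := divf_eq_zero _ _ _ hT0 (fun i => (hpT i).symm) }
  obtain ⟨v0, hv0, hsym⟩ := CD.E.exists_sym n h2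
  obtain ⟨F0, hF0, hF0d, hF0m, hF0J⟩ :=
    transfer_special P hP (fun i => ![a i, b i]) v0 δ μ ⟨f, hf, hdeg, hμ⟩
  obtain ⟨w, g, hg, l0, hl0, hl0G⟩ := exists_w F0 hF0
  set al := algebraMap (R0 k) (K0 k) with hal
  have halinj : Function.Injective al := IsFractionRing.injective (R0 k) (K0 k)
  obtain ⟨F, hFdef⟩ : ∃ F : Polynomial (K0 k), F = ∑ j ∈ Finset.range (w + 1),
    Polynomial.C (al (psi k (g (w - j)))) * Polynomial.X ^ j := ⟨_, rfl⟩
  have hcoeff : ∀ j, F.coeff j = if j ≤ w then al (psi k (g (w - j))) else 0 := by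
    intro j
    rw [hFdef, Polynomial.finsetSum_coeff]
    simp only [Polynomial.coeff_C_mul, Polynomial.coeff_X_pow]
    by_cases hj : j ≤ w
    · rw [if_pos hj, Finset.sum_eq_single j]
      · simp
      · intro b _ hb
        simp [Ne.symm hb]
      · intro h
        exact absurd (Finset.mem_range.mpr (by omega)) h
    · rw [if_neg hj, Finset.sum_eq_zero]
      intro b hb
      have : b < w + 1 := Finset.mem_range.mp hb
      have : j ≠ b := by omega
      simp [this]
  -- facts about the coefficients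
  have key : ∀ j, F.coeff j ≠ 0 → j ≤ w ∧ g (w - j) ≠ 0 ∧ psi k (g (w - j)) ≠ 0 ∧
      F.coeff j = al (psi k (g (w - j))) ∧ 3 * j + (g (w - j)).totalDegree ≤ δ ∧
      ∀ i, g (w - j) ∈ ptIdeal (a i) (b i) ^ (μ i.castSucc - j) := by
    intro j hj
    rw [hcoeff] at hj
    by_cases hjw : j ≤ w
    · rw [if_pos hjw] at hj
      have h1 : psi k (g (w - j)) ≠ 0 := by
        intro h
        apply hj
        rw [h, map_zero]
      have h2' : g (w - j) ≠ 0 := by
        intro h
        apply h1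
        rw [h, map_zero]
      have h3 : F0.coeff (w - j) = Geq k ^ j * g (w - j) := by
        rw [hg (w - j) (by omega)]
        congr 2
        omega
      refine ⟨hjw, h2', h1, by rw [hcoeff, if_pos hjw], ?_, ?_⟩
      · rw [← totalDegree_Geq_pow_mul j h2', ← h3]
        exact hF0d _
      · intro i
        refine colon h2 (hab i) j _ ?_
        rw [← h3]
        simpa using hF0m (w - j) i
    · rw [if_neg hjw] at hj
      exact absurd rfl hj
  have hFne : F ≠ 0 := by
    intro h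
    have h1 := hcoeff (w - l0)
    rw [h, Polynomial.coeff_zero, if_pos (Nat.sub_le _ _)] at h1
    have h3 : psi k (g (w - (w - l0))) = 0 := by
      apply halinj
      rw [← h1, map_zero]
    rw [show w - (w - l0) = l0 by omega, psi_eq_zero_iff] at h3
    exact hl0G h3
  have hRint : ∀ (x y : k) (h : (E0 k).Nonsingular x y) (r : R0 k), r ≠ 0 →
      0 ≤ CD.E.v (.some x y h) (al r) := by
    intro x y h r hr
    have := CD.aff x y h r 0 hr (by simp)
    simpa using this
  refine ⟨CD.E, p, n, v0, F, divf (3 * δ) (fun i => -(μ i.castSucc : ℤ)) p, hv0, hsym, hI, ?_, ?_,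
    hFne, divf_fin _ _ _, divf_eq_zero _ _ _ hT0 (fun i => (hpT i).symm), ?_, ?_, ?_, ?_, ?_, ?_,
    ?_, ?_⟩
  · change ∑ᶠ Q, divf 9 (fun _ => -1) p Q • Q = _
    rw [divf_sum_smul]
    simp
  · intro i
    exact divf_apply _ _ _ hp0 hpi i
  · intro Q
    have : - (divf (3 * δ) (fun i => -(μ i.castSucc : ℤ)) p Q) ≤ CD.E.w n Q F := by
      unfold EField.w
      rw [le_gv_iff hFne]
      intro j hj
      obtain ⟨hjw, hgj, hpj, hcj, hdj, hmj⟩ := key j hj
      rw [hcj]
      rcases Q with _ | ⟨x, y, hxy⟩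
      · have e1 : divf (3 * (δ : ℤ)) (fun i => -(μ i.castSucc : ℤ)) p Point.zero = 3 * δ :=
          divf_zero _ _ _ hp0
        have e2 : n.n Point.zero = 9 := divf_zero _ _ _ hp0
        have e3 := CD.inf (g (w - j)) hpj
        rw [e1, e2]
        have e4 : (3 * (j : ℤ) + ((g (w - j)).totalDegree : ℤ)) ≤ δ := by exact_mod_cast hdj
        have e5 : CD.E.v Point.zero (al (psi k (g (w - j)))) = CD.E.v 0 (al (psi k (g (w - j)))) := rfl
        rw [e5]
        linarith
      · by_cases hQ : ∃ i, (Point.some x y hxy : (E0 k).Point) = p i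
        · obtain ⟨i, hi⟩ := hQ
          rw [hi, divf_apply _ _ _ hp0 hpi, show n.n (p i) = -1 from divf_apply _ _ _ hp0 hpi i,
            hpab i]
          have := CD.aff (a i) (b i) (hns i) (psi k (g (w - j))) (μ i.castSucc - j) hpj
            (psi_mem (hmj i))
          have h5 : (μ i.castSucc : ℤ) - j ≤ ((μ i.castSucc - j : ℕ) : ℤ) := by omega
          linarith
        · push Not at hQ
          have h0 : (Point.some x y hxy : (E0 k).Point) ≠ 0 := Point.some_ne_zero _
          rw [divf_eq_zero _ _ _ h0 hQ,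
            show n.n (Point.some x y hxy) = 0 from divf_eq_zero _ _ _ h0 hQ]
          have := hRint x y hxy _ hpj
          simpa using this
    linarith
  · refine mult_limit (CD.E.v CD.E.T) (CD.E.ord _) (fun c hc => CD.E.const c hc _) ?_ ?_ ?_ v0
      (μ (Fin.last 9)) F0 hF0J w g hg F hFdef hFne
    · intro r hr
      rw [CD.T_eq]
      exact hRint _ _ _ r hr
    · rw [CD.T_eq]
      have := CD.aff 0 0 CD.T_ns (xR k) 1 ?_ xR_mem
      · exact_mod_cast this
      · intro h
        have h3 : psi k (X 0) = 0 := by simpa [psi] using h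
        rw [psi_eq_zero_iff] at h3
        obtain ⟨c, hc⟩ := h3
        have hc0 : c ≠ 0 := by
          rintro rfl
          rw [mul_zero] at hc
          exact X_ne_zero _ hc
        have h4 := totalDegree_Geq_pow_mul (k := k) 1 hc0
        rw [pow_one, ← hc, totalDegree_X] at h4
        omega
    · rw [← CD.pi_eq, CD.E.pi_v]
  · rw [divf_sum]
    simp [sub_eq_add_neg]
  · rw [divf_sum_smul]
  · intro i
    exact divf_apply _ _ _ hp0 hpi i
  · intro i
    have hlc : F.coeff F.natDegree ≠ 0 := by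
      rw [Polynomial.coeff_natDegree]
      exact Polynomial.leadingCoeff_ne_zero.mpr hFne
    obtain ⟨hjw, hgj, hpj, hcj, hdj, hmj⟩ := key _ hlc
    rw [← Polynomial.coeff_natDegree, hcj, hpab i]
    exact hRint _ _ _ _ hpj
  · have hlc : F.coeff F.natDegree ≠ 0 := by
      rw [Polynomial.coeff_natDegree]
      exact Polynomial.leadingCoeff_ne_zero.mpr hFne
    obtain ⟨hjw, hgj, hpj, hcj, hdj, hmj⟩ := key _ hlc
    have := le_totalDegree hgj (hmj 0)
    have e : (0 : Fin 9).castSucc = (0 : Fin 10) := rfl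
    rw [e] at this
    omega
  · have hlc : F.coeff F.natDegree ≠ 0 := by
      rw [Polynomial.coeff_natDegree]
      exact Polynomial.leadingCoeff_ne_zero.mpr hFne
    obtain ⟨hjw, hgj, hpj, hcj, hdj, hmj⟩ := key _ hlc
    omega

end core

section final

/-- Even classes `(12 q² + 1; 4 q² + 1, (4 q²)^8, 4 q)`. -/
theorem main_class_even (k : Type*) [Field k] [IsAlgClosed k] (h2 : (2 : k) ≠ 0)
    (P : Fin 10 → Fin 2 → k)
    (hP : AlgebraicIndependent (⊥ : Subfield k) (fun ij : Fin 10 × Fin 2 => P ij.1 ij.2))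
    (q : ℕ) (hq : 1 ≤ q) (f : MvPolynomial (Fin 2) k) (hf : f ≠ 0) (δ : ℕ) (hδ : 1 ≤ δ)
    (hdeg : f.totalDegree ≤ δ) (μ : Fin 10 → ℕ)
    (hμ : ∀ i, f ∈ ptIdeal (P i 0) (P i 1) ^ μ i) :
    μ 0 + 4 * q ^ 2 * (∑ i : Fin 9, μ i.castSucc) + 4 * q * μ (Fin.last 9) <
      (12 * q ^ 2 + 1) * δ := by
  classical
  set S : ℕ := ∑ i : Fin 9, μ i.castSucc with hS
  set B0 : ℕ := 2 * q * (q + 1) + δ with hB0
  set B : ℕ := B0 + 2 * q * (q + 1) * (2 * S + δ) with hB
  have hB1 : 1 ≤ B := by omega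
  obtain ⟨E, p, n, v0, F, M, hv0, hsym, hI, hns, hnp, hF, hMf, hMT, hMw, hμ10, hM1, hM2, hMp, hlc,
    hd1, hd2⟩ := core h2 P hP f hf δ hdeg μ hμ B hB1
  have htors : ∀ j : ℕ, 1 ≤ j → j ≤ B0 → j • n.s ≠ 0 := by
    intro j hj hjB h
    have h1 : ∑ i, (j : ℤ) • p i = (0 : ℤ) • E.T := by
      rw [hns, smul_neg, neg_eq_zero] at h
      rw [← Finset.smul_sum, zero_smul, ← h, natCast_zsmul]
    have h3 := hI (fun _ => (j : ℤ)) (fun i => by rw [abs_of_nonneg (by positivity)]; exact_mod_cast (by omega : j ≤ B)) 0 h1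
    have := congrFun h3 0
    simp at this
    omega
  have hmain := E.sec_even n hv0 hsym B0 htors q hq (by omega) hF (by omega) M hMf hMT hMw _ hμ10
  have hS' : ∑ i : Fin 9, (μ i.castSucc : ℤ) = (S : ℤ) := by rw [hS]; push_cast; rfl
  rw [hM1, hS'] at hmain
  by_contra hcon
  push Not at hcon
  have hcon' : (12 * (q : ℤ) ^ 2 + 1) * δ ≤ μ 0 + 4 * (q : ℤ) ^ 2 * S + 4 * q * μ (Fin.last 9) := by
    exact_mod_cast hcon
  have hd1' : (μ 0 : ℤ) + 2 * F.natDegree ≤ δ := by exact_mod_cast hd1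
  have hd2' : 3 * (F.natDegree : ℤ) ≤ δ := by exact_mod_cast hd2
  have heq1 : (μ 0 : ℤ) + 2 * F.natDegree = δ := by linarith
  have heq2 : 2 * (q : ℤ) * μ (Fin.last 9) = 2 * (q : ℤ) ^ 2 * (3 * δ - S) + F.natDegree := by
    linarith
  obtain ⟨c, hc1, hc2, hc3⟩ := E.sec_even_eq n hv0 hsym B0 htors q hq (by omega) hF (by omega) M hMf
    hMT hMw _ hμ10 (by rw [hM1, hS']; exact heq2)
  rw [hM2, hns] at hc3
  have hrel : ∑ i : Fin 9, ((c : ℤ) * F.natDegree - 2 * c * μ i.castSucc) • p i = (0 : ℤ) • E.T := by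
    rw [zero_smul]
    have e1 : ∑ i : Fin 9, ((c : ℤ) * F.natDegree - 2 * c * μ i.castSucc) • p i =
        (2 * (c : ℤ)) • (∑ i : Fin 9, (-(μ i.castSucc : ℤ)) • p i) -
          ((c : ℤ) * F.natDegree) • (- ∑ i, p i) := by
      rw [smul_neg, sub_neg_eq_add, Finset.smul_sum, Finset.smul_sum, ← Finset.sum_add_distrib]
      refine Finset.sum_congr rfl fun i _ => ?_
      rw [smul_smul, ← add_smul]
      congr 1
      ring
    rw [e1, hc3, sub_self]
  have hbound : ∀ i : Fin 9, |(c : ℤ) * F.natDegree - 2 * c * μ i.castSucc| ≤ (B : ℤ) := by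
    intro i
    have hμS : μ i.castSucc ≤ S := by
      rw [hS]
      exact Finset.single_le_sum (f := fun i : Fin 9 => μ i.castSucc) (fun _ _ => Nat.zero_le _)
        (Finset.mem_univ i)
    have h4 : F.natDegree ≤ δ := by omega
    have hcB : (c : ℤ) ≤ 2 * q * (q + 1) := by exact_mod_cast hc2
    have h5 : (0 : ℤ) ≤ c * F.natDegree := by positivity
    have h6 : (0 : ℤ) ≤ 2 * c * μ i.castSucc := by positivity
    have h7 : (c : ℤ) * F.natDegree ≤ 2 * q * (q + 1) * δ := by
      have : (F.natDegree : ℤ) ≤ δ := by exact_mod_cast h4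
      exact mul_le_mul hcB this (by positivity) (by positivity)
    have h8 : (c : ℤ) * μ i.castSucc ≤ 2 * q * (q + 1) * S := by
      have : (μ i.castSucc : ℤ) ≤ S := by exact_mod_cast hμS
      exact mul_le_mul hcB this (by positivity) (by positivity)
    have h9 : (B : ℤ) = B0 + 2 * q * (q + 1) * (2 * S + δ) := by rw [hB]; push_cast; ring
    have h10 : (0 : ℤ) ≤ B0 := by positivity
    have h11 : (0 : ℤ) ≤ 2 * q * (q + 1) * S := by positivity
    have h12 : (0 : ℤ) ≤ 2 * q * (q + 1) * δ := by positivity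
    rw [abs_le]
    constructor <;> linarith
  have hzero := hI _ hbound 0 hrel
  have h0 := congrFun hzero 0
  simp only [Pi.zero_apply] at h0
  have e : (0 : Fin 9).castSucc = (0 : Fin 10) := rfl
  rw [e] at h0
  have hc' : (1 : ℤ) ≤ c := by exact_mod_cast hc1
  have h13 : (F.natDegree : ℤ) = 2 * μ 0 := by
    have : (c : ℤ) * (F.natDegree - 2 * μ 0) = 0 := by linarith
    rcases mul_eq_zero.mp this with h | h
    · omega
    · linarith
  have hδ' : (1 : ℤ) ≤ δ := by exact_mod_cast hδ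
  have : (0 : ℤ) ≤ μ 0 := by positivity
  omega

/-- Odd classes `e = 2 g + 1`, `t = 2 g (g + 1) + 1`: `(3 t; t^8, t - 1, e)`. -/
theorem main_class_odd (k : Type*) [Field k] [IsAlgClosed k] (h2 : (2 : k) ≠ 0)
    (P : Fin 10 → Fin 2 → k)
    (hP : AlgebraicIndependent (⊥ : Subfield k) (fun ij : Fin 10 × Fin 2 => P ij.1 ij.2))
    (g : ℕ) (hg : 1 ≤ g) (f : MvPolynomial (Fin 2) k) (hf : f ≠ 0) (δ : ℕ) (hδ : 1 ≤ δ)
    (hdeg : f.totalDegree ≤ δ) (μ : Fin 10 → ℕ)
    (hμ : ∀ i, f ∈ ptIdeal (P i 0) (P i 1) ^ μ i) :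
    (2 * g * (g + 1) + 1) * (∑ i : Fin 9, μ i.castSucc) + (2 * g + 1) * μ (Fin.last 9) <
      3 * (2 * g * (g + 1) + 1) * δ + μ 8 := by
  classical
  set S : ℕ := ∑ i : Fin 9, μ i.castSucc with hS
  set B0 : ℕ := 2 * g * (g + 1) + δ with hB0
  set B : ℕ := B0 + 2 * g * (g + 1) * (S + 3 * δ) + (4 * δ + S) + 1 with hB
  have hB1 : 1 ≤ B := by omega
  obtain ⟨E, p, n, v0, F, M, hv0, hsym, hI, hns, hnp, hF, hMf, hMT, hMw, hμ10, hM1, hM2, hMp, hlc,
    hd1, hd2⟩ := core h2 P hP f hf δ hdeg μ hμ B hB1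
  have htors : ∀ j : ℕ, 1 ≤ j → j ≤ B0 → j • n.s ≠ 0 := by
    intro j hj hjB h
    have h1 : ∑ i, (j : ℤ) • p i = (0 : ℤ) • E.T := by
      rw [hns, smul_neg, neg_eq_zero] at h
      rw [← Finset.smul_sum, zero_smul, ← h, natCast_zsmul]
    have h3 := hI (fun _ => (j : ℤ)) (fun i => by rw [abs_of_nonneg (by positivity)]; exact_mod_cast (by omega : j ≤ B)) 0 h1
    have := congrFun h3 0
    simp at this
    omega
  have hQT : p 8 ≠ E.T := hI.ne_T hB1 8
  have hQe : p 8 ≠ E.T - ((g * (g + 1) : ℕ) : ℤ) • n.s := by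
    intro h
    have h1 : ∑ i : Fin 9, (((g * (g + 1) : ℕ) : ℤ) - if i = 8 then 1 else 0) • p i =
        (-1 : ℤ) • E.T := by
      simp only [sub_smul, Finset.sum_sub_distrib, ite_smul, one_smul, zero_smul,
        Finset.sum_ite_eq', Finset.mem_univ, if_true, ← Finset.smul_sum]
      rw [h, hns]
      simp
    have h3 := hI _ (fun i => ?_) (-1) h1
    · have := congrFun h3 0
      simp at this
      omega
    · have h4 : (0 : ℤ) ≤ (g * (g + 1) : ℕ) := by positivity
      have h5 : ((g * (g + 1) : ℕ) : ℤ) + 1 ≤ B := by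
        have : g * (g + 1) + 1 ≤ B := by
          have : g * (g + 1) ≤ 2 * g * (g + 1) := by nlinarith
          omega
        exact_mod_cast this
      rw [abs_le]
      split_ifs <;> constructor <;> linarith
  have hS' : ∑ i : Fin 9, (μ i.castSucc : ℤ) = (S : ℤ) := by rw [hS]; push_cast; rfl
  have hM8 : M (p 8) = - (μ 8 : ℤ) := hMp 8
  have hBle : 2 * g * (g + 1) ≤ B0 := by omega
  have hdegB : F.natDegree ≤ B0 := by omega
  have hmain := E.sec_odd n hv0 hsym B0 htors g hg hBle hF hdegB M hMf hMT hMw _ hμ10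
    (p 8) (hnp 8) (hlc 8) hQT hQe
  rw [hM1, hS', hM8] at hmain
  by_contra hcon
  push Not at hcon
  have hcon' : 3 * (2 * (g : ℤ) * (g + 1) + 1) * δ + μ 8 ≤
      (2 * (g : ℤ) * (g + 1) + 1) * S + (2 * g + 1) * μ (Fin.last 9) := by
    exact_mod_cast hcon
  have heq : (2 * (g : ℤ) + 1) * μ (Fin.last 9) =
      (2 * (g : ℤ) * (g + 1) + 1) * (∑ᶠ Q, M Q) - M (p 8) := by
    rw [hM1, hS', hM8]
    linarith
  obtain ⟨α, β, h1, h3, h4, h5⟩ := E.sec_odd_eq n hv0 hsym B0 htors g hg hBle hF hdegB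
    M hMf hMT hMw _ hμ10 (p 8) (hnp 8) (hlc 8) hQT hQe heq
  rw [hM1, hS'] at h1
  rw [hM8] at h3
  rw [hM2, hns] at h4 h5
  have hμS : ∀ i : Fin 9, (μ i.castSucc : ℤ) ≤ S := by
    intro i
    have : μ i.castSucc ≤ S := by
      rw [hS]
      exact Finset.single_le_sum (f := fun i : Fin 9 => μ i.castSucc) (fun _ _ => Nat.zero_le _)
        (Finset.mem_univ i)
    exact_mod_cast this
  have hα : (α : ℤ) ≤ 3 * δ := by
    have : (0 : ℤ) ≤ β := by positivity
    have : (0 : ℤ) ≤ S := by positivity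
    linarith
  have hβ : (β : ℤ) ≤ 3 * δ := by
    have : (0 : ℤ) ≤ α := by positivity
    have : (0 : ℤ) ≤ S := by positivity
    linarith
  have hα0 : (0 : ℤ) ≤ α := by positivity
  have hβ0 : (0 : ℤ) ≤ β := by positivity
  have hS0 : (0 : ℤ) ≤ S := by positivity
  have hδ0 : (1 : ℤ) ≤ δ := by exact_mod_cast hδ
  have hF0 : (0 : ℤ) ≤ F.natDegree := by positivity
  have hFδ : (F.natDegree : ℤ) ≤ δ := by exact_mod_cast (by omega : F.natDegree ≤ δ)
  have hgg : (1 : ℤ) ≤ g * (g + 1) := by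
    have : (1 : ℤ) ≤ g := by exact_mod_cast hg
    nlinarith
  have hBz : (B : ℤ) = (2 * g * (g + 1) + δ) + 2 * g * (g + 1) * (S + 3 * δ) + (4 * δ + S) + 1 := by
    rw [hB, hB0]
    push_cast
    ring
  -- first relation
  have hrel : ∑ i : Fin 9, ((F.natDegree : ℤ) - μ i.castSucc - α * (g * (g + 1)) -
      if i = 8 then (β : ℤ) else 0) • p i = (α : ℤ) • E.T := by
    have e0 : ∑ i : Fin 9, ((F.natDegree : ℤ) - μ i.castSucc - α * (g * (g + 1)) -
        if i = 8 then (β : ℤ) else 0) • p i =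
        (∑ i : Fin 9, (-(μ i.castSucc : ℤ)) • p i) - (F.natDegree : ℤ) • (- ∑ i, p i) -
          ((α * (g * (g + 1)) : ℤ) • ∑ i, p i) - (β : ℤ) • p 8 := by
      rw [smul_neg, sub_neg_eq_add, Finset.smul_sum, Finset.smul_sum, ← Finset.sum_add_distrib,
        ← Finset.sum_sub_distrib]
      have e2 : (β : ℤ) • p 8 = ∑ i : Fin 9, (if i = 8 then (β : ℤ) else 0) • p i := by
        simp
      rw [e2, ← Finset.sum_sub_distrib]
      refine Finset.sum_congr rfl fun i _ => ?_
      rw [← add_smul, ← sub_smul, ← sub_smul]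
      congr 1
      ring
    rw [e0, h4, smul_sub, smul_neg, smul_neg, sub_neg_eq_add, smul_smul]
    push_cast
    abel
  have hz1 := hI _ (fun i => ?_) _ hrel
  swap
  · have hb1 : (0 : ℤ) ≤ α * (g * (g + 1)) := by positivity
    have hb2 : (α : ℤ) * (g * (g + 1)) ≤ 3 * δ * (g * (g + 1)) :=
      mul_le_mul_of_nonneg_right hα (by positivity)
    have hb3 := hμS i
    have hb4 : (0 : ℤ) ≤ μ i.castSucc := by positivity
    have hb5 : (0 : ℤ) ≤ (g : ℤ) * (g + 1) * S := by positivity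
    have hb6 : (0 : ℤ) ≤ (g : ℤ) * (g + 1) * δ := by positivity
    have hb7 : (0 : ℤ) ≤ (g : ℤ) * (g + 1) := by positivity
    rw [hBz, abs_le]
    split_ifs <;> constructor <;> linarith
  have hz18 := congrFun hz1 8
  have hz10 := congrFun hz1 0
  have e8 : (8 : Fin 9).castSucc = (8 : Fin 10) := rfl
  have e0' : (0 : Fin 9).castSucc = (0 : Fin 10) := rfl
  simp only [Pi.zero_apply, if_true, e8] at hz18
  have h08 : (0 : Fin 9) ≠ 8 := by decide
  simp only [Pi.zero_apply, e0', if_neg h08] at hz10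
  have hαz : (α : ℤ) = 0 := by
    have : (α : ℤ) * (g * (g + 1)) = 0 := by linarith
    rcases mul_eq_zero.mp this with h | h
    · exact h
    · exfalso
      linarith
  have hαn : α = 0 := by exact_mod_cast hαz
  -- second relation
  have h6 := h5 hαn
  have hrel2 : ∑ i : Fin 9, ((F.natDegree : ℤ) * (g * (g + 1)) -
      2 * (g : ℤ) * (g + 1) * μ i.castSucc) • p i =
      ((F.natDegree : ℤ) + μ (Fin.last 9) * (2 * g + 1)) • E.T := by
    have e1 : ∑ i : Fin 9, ((F.natDegree : ℤ) * (g * (g + 1)) -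
        2 * (g : ℤ) * (g + 1) * μ i.castSucc) • p i =
        (2 * (g : ℤ) * (g + 1)) • (∑ i : Fin 9, (-(μ i.castSucc : ℤ)) • p i) -
          ((F.natDegree : ℤ) * (g * (g + 1))) • (- ∑ i, p i) := by
      rw [smul_neg, sub_neg_eq_add, Finset.smul_sum, Finset.smul_sum, ← Finset.sum_add_distrib]
      refine Finset.sum_congr rfl fun i _ => ?_
      rw [smul_smul, ← add_smul]
      congr 1
      ring
    rw [e1, h6]
    abel
  have hz2 := hI _ (fun i => ?_) _ hrel2
  swap
  · have hb3 := hμS i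
    have hb4 : (0 : ℤ) ≤ μ i.castSucc := by positivity
    have hb7 : (0 : ℤ) ≤ (g : ℤ) * (g + 1) := by positivity
    have hb8 : (F.natDegree : ℤ) * (g * (g + 1)) ≤ δ * (g * (g + 1)) :=
      mul_le_mul_of_nonneg_right hFδ hb7
    have hb9 : (0 : ℤ) ≤ (F.natDegree : ℤ) * (g * (g + 1)) := by positivity
    have hb10 : (g : ℤ) * (g + 1) * μ i.castSucc ≤ g * (g + 1) * S :=
      mul_le_mul_of_nonneg_left hb3 hb7
    have hb11 : (0 : ℤ) ≤ (g : ℤ) * (g + 1) * μ i.castSucc := by positivity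
    have hb5 : (0 : ℤ) ≤ (g : ℤ) * (g + 1) * S := by positivity
    have hb6 : (0 : ℤ) ≤ (g : ℤ) * (g + 1) * δ := by positivity
    rw [hBz, abs_le]
    constructor <;> linarith
  have hz20 := congrFun hz2 0
  simp only [Pi.zero_apply, e0'] at hz20
  have hF00 : (F.natDegree : ℤ) = 0 := by
    have h7 : (μ 0 : ℤ) = F.natDegree := by
      rw [hαz] at hz10
      linarith
    rw [h7] at hz20
    have : (F.natDegree : ℤ) * (g * (g + 1)) = 0 := by linarith
    rcases mul_eq_zero.mp this with h | h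
    · exact h
    · exfalso
      linarith
  -- all multiplicities vanish
  have hμ8 : (μ 8 : ℤ) = 0 ∧ (β : ℤ) = 0 := by
    have : (0 : ℤ) ≤ μ 8 := by positivity
    constructor <;> linarith
  have hSz : (S : ℤ) = 0 := by
    rw [← hS']
    refine Finset.sum_eq_zero fun i _ => ?_
    have h8 := congrFun hz1 i
    simp only [Pi.zero_apply, hαz, hμ8.2, hF00] at h8
    simp only [ite_self, zero_mul, sub_zero] at h8
    linarith
  rw [hSz, hαz, hμ8.2] at h1
  linarith

end final

end ShghE
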