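import Pool.Agent.ShghE.Fm

/-!
# The two inequalities for sections with prescribed bounds

`F ∈ K[X]` is a section of a line bundle with divisor data `M : A → ℤ`, i.e. `0 ≤ M P + w P F` at all
places, `M T = 0`; `μ` is a lower bound of the multiplicity at `(T, v0)`.
-/

namespace ShghE

open Polynomial

namespace EField

variable {k K A : Type*} [Field k] [Field K] [Algebra k K] [AddCommGroup A]
variable (E : EField k K A) (n : Twist E)

/-! ### finite sums -/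

private lemma SMain_pair {f : A → ℤ} (hf : (Function.support f).Finite) (h0 : ∀ P, 0 ≤ f P)
    {P Q : A} (hPQ : P ≠ Q) : f P + f Q ≤ ∑ᶠ R, f R := by
  classical
  have h1 : ∑ᶠ R, f R = ∑ R ∈ hf.toFinset ∪ {P, Q}, f R := by
    apply finsum_eq_sum_of_support_subset
    intro R hR
    simp only [Finset.coe_union, Set.Finite.coe_toFinset]
    exact Or.inl hR
  rw [h1]
  have h2 : f P + f Q = ∑ R ∈ ({P, Q} : Finset A), f R := by
    rw [Finset.sum_pair hPQ]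
  rw [h2]
  exact Finset.sum_le_sum_of_subset_of_nonneg Finset.subset_union_right (fun R _ _ => h0 R)

private lemma SMain_single {f : A → ℤ} (hf : (Function.support f).Finite) (h0 : ∀ P, 0 ≤ f P)
    (P : A) : f P ≤ ∑ᶠ R, f R := by
  classical
  have h1 : ∑ᶠ R, f R = ∑ R ∈ hf.toFinset ∪ {P}, f R := by
    apply finsum_eq_sum_of_support_subset
    intro R hR
    simp only [Finset.coe_union, Set.Finite.coe_toFinset]
    exact Or.inl hR
  rw [h1]
  have h2 : f P = ∑ R ∈ ({P} : Finset A), f R := by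
    rw [Finset.sum_singleton]
  conv_lhs => rw [h2]
  exact Finset.sum_le_sum_of_subset_of_nonneg Finset.subset_union_right (fun R _ _ => h0 R)

private lemma SMain_smul_fin {f : A → ℤ} (hf : (Function.support f).Finite) :
    (Function.support fun P => f P • P).Finite := by
  apply hf.subset
  intro P hP
  rw [Function.mem_support] at hP ⊢
  intro h0
  exact hP (by rw [h0, zero_smul])

/-- a function which vanishes off one place -/
private lemma SMain_finsum_smul {f : A → ℤ} {Q : A} (h : ∀ P, P ≠ Q → f P = 0) :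
    ∑ᶠ P, f P • P = f Q • Q := by
  rw [finsum_eq_single (fun P => f P • P) Q]
  intro P hP
  simp only [h P hP, zero_smul]

/-! ### the excess -/

private lemma SMain_oo (v0 : k) (F : K[X]) :
    oo (E.v E.T) (algebraMap k K v0) F = E.m v0 F + E.w n E.T F := by
  unfold EField.m mu EField.w
  rw [n.nT]
  ring

variable {M : A → ℤ} {F : K[X]}

private lemma SMain_e_fin (hM : (Function.support M).Finite) (hF : F ≠ 0) :
    (Function.support fun P => M P + E.w n P F).Finite := by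
  apply (hM.union (E.w_fin n hF)).subset
  intro P hP
  rw [Set.mem_union, Function.mem_support, Function.mem_support]
  rw [Function.mem_support] at hP
  by_contra hcon
  push Not at hcon
  apply hP
  rw [hcon.1, hcon.2, add_zero]

private lemma SMain_sum (hM : (Function.support M).Finite) (hF : F ≠ 0) :
    ∑ᶠ P, (M P + E.w n P F) = (∑ᶠ P, M P) - E.b n F := by
  rw [finsum_add_distrib hM (E.w_fin n hF)]
  unfold EField.b
  ring

private lemma SMain_sum_smul (hM : (Function.support M).Finite) (hF : F ≠ 0) :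
    ∑ᶠ P, M P • P = ∑ᶠ P, (M P + E.w n P F) • P + E.cls n F := by
  have h1 : ∑ᶠ P, (M P + E.w n P F) • P = ∑ᶠ P, M P • P + ∑ᶠ P, E.w n P F • P := by
    rw [← finsum_add_distrib (SMain_smul_fin hM) (SMain_smul_fin (E.w_fin n hF))]
    apply finsum_congr
    intro P
    rw [add_smul]
  rw [h1]
  unfold EField.cls
  abel

private lemma SMain_two_T (a : ℤ) : (2 * a) • E.T = 0 := by
  rw [mul_comm, mul_smul, two_smul, E.T_two, smul_zero]

theorem sec_even {v0 : k} (h0 : v0 ≠ 0) (hsym : E.HasSym n v0) (B : ℕ)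
    (hs : ∀ j : ℕ, 1 ≤ j → j ≤ B → j • n.s ≠ 0) (q : ℕ) (hq : 1 ≤ q)
    (hB : 2 * q * (q + 1) ≤ B) {F : K[X]} (hF : F ≠ 0) (hdeg : F.natDegree ≤ B)
    (M : A → ℤ) (hM : (Function.support M).Finite) (hMT : M E.T = 0)
    (hMw : ∀ P, 0 ≤ M P + E.w n P F) (μ : ℤ) (hμ : μ ≤ oo (E.v E.T) (algebraMap k K v0) F) :
    2 * (q : ℤ) * μ ≤ 2 * (q : ℤ) ^ 2 * (∑ᶠ P, M P) + F.natDegree := by
  have h1 := E.main_even n h0 hsym B hs q hq hB hF hdeg
  have h2 := SMain_single (SMain_e_fin E n hM hF) hMw E.T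
  rw [SMain_sum E n hM hF] at h2
  simp only [hMT, zero_add] at h2
  have h3 := hMw E.T
  rw [hMT, zero_add] at h3
  rw [SMain_oo E n v0 F] at hμ
  have hq' : (1 : ℤ) ≤ q := by exact_mod_cast hq
  have h4 : 2 * (q : ℤ) * μ ≤ 2 * q * (E.m v0 F + E.w n E.T F) :=
    mul_le_mul_of_nonneg_left hμ (by positivity)
  have h5 : 2 * (q : ℤ) * E.w n E.T F ≤ 2 * (q : ℤ) ^ 2 * E.w n E.T F := by
    have : 2 * (q : ℤ) ≤ 2 * (q : ℤ) ^ 2 := by nlinarith
    exact mul_le_mul_of_nonneg_right this h3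
  have h6 : 2 * (q : ℤ) ^ 2 * E.w n E.T F ≤ 2 * (q : ℤ) ^ 2 * ((∑ᶠ P, M P) - E.b n F) :=
    mul_le_mul_of_nonneg_left h2 (by positivity)
  linarith

theorem sec_even_eq {v0 : k} (h0 : v0 ≠ 0) (hsym : E.HasSym n v0) (B : ℕ)
    (hs : ∀ j : ℕ, 1 ≤ j → j ≤ B → j • n.s ≠ 0) (q : ℕ) (hq : 1 ≤ q)
    (hB : 2 * q * (q + 1) ≤ B) {F : K[X]} (hF : F ≠ 0) (hdeg : F.natDegree ≤ B)
    (M : A → ℤ) (hM : (Function.support M).Finite) (hMT : M E.T = 0)
    (hMw : ∀ P, 0 ≤ M P + E.w n P F) (μ : ℤ) (hμ : μ ≤ oo (E.v E.T) (algebraMap k K v0) F)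
    (heq : 2 * (q : ℤ) * μ = 2 * (q : ℤ) ^ 2 * (∑ᶠ P, M P) + F.natDegree) :
    ∃ c : ℕ, 1 ≤ c ∧ c ≤ 2 * q * (q + 1) ∧
      (2 * (c : ℤ)) • (∑ᶠ P, M P • P) = ((c : ℤ) * F.natDegree) • n.s := by
  have h1 := E.main_even n h0 hsym B hs q hq hB hF hdeg
  have hfin := SMain_e_fin E n hM hF
  have h2 := SMain_single hfin hMw E.T
  have hsum := SMain_sum E n hM hF
  rw [hsum] at h2
  simp only [hMT, zero_add] at h2
  have h3 := hMw E.T
  rw [hMT, zero_add] at h3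
  rw [SMain_oo E n v0 F] at hμ
  have hq' : (1 : ℤ) ≤ q := by exact_mod_cast hq
  have h4 : 2 * (q : ℤ) * μ ≤ 2 * q * (E.m v0 F + E.w n E.T F) :=
    mul_le_mul_of_nonneg_left hμ (by positivity)
  have h5 : 2 * (q : ℤ) * E.w n E.T F ≤ 2 * (q : ℤ) ^ 2 * E.w n E.T F := by
    have : 2 * (q : ℤ) ≤ 2 * (q : ℤ) ^ 2 := by nlinarith
    exact mul_le_mul_of_nonneg_right this h3
  have h6 : 2 * (q : ℤ) ^ 2 * E.w n E.T F ≤ 2 * (q : ℤ) ^ 2 * ((∑ᶠ P, M P) - E.b n F) :=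
    mul_le_mul_of_nonneg_left h2 (by positivity)
  have h7 : 2 * (q : ℤ) * E.m v0 F = 2 * (q : ℤ) ^ 2 * E.b n F + F.natDegree := by linarith
  have h8 : 2 * (q : ℤ) ^ 2 * E.w n E.T F = 2 * (q : ℤ) ^ 2 * ((∑ᶠ P, M P) - E.b n F) := by
    linarith
  have h9 : E.w n E.T F = (∑ᶠ P, M P) - E.b n F := by
    have : (2 * (q : ℤ) ^ 2) ≠ 0 := by positivity
    exact mul_left_cancel₀ this h8
  have h10 : ∀ P, P ≠ E.T → M P + E.w n P F = 0 := by
    intro P hP
    have h11 := SMain_pair hfin hMw hP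
    rw [hsum, ← h9] at h11
    simp only [hMT, zero_add] at h11
    have h12 := hMw P
    linarith
  obtain ⟨c, hc1, hc2, hc3⟩ := E.main_even_eq n h0 hsym B hs q hq hB hF hdeg h7
  refine ⟨c, hc1, hc2, ?_⟩
  rw [SMain_sum_smul E n hM hF, SMain_finsum_smul (f := fun P => M P + E.w n P F) h10, smul_add,
    hc3, smul_smul, mul_assoc, SMain_two_T, zero_add]

/-- everything about the odd case -/
private lemma SMain_odd {v0 : k} (h0 : v0 ≠ 0) (hsym : E.HasSym n v0) (B : ℕ)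
    (hs : ∀ j : ℕ, 1 ≤ j → j ≤ B → j • n.s ≠ 0) (g : ℕ) (hg : 1 ≤ g)
    (hB : 2 * g * (g + 1) ≤ B) {F : K[X]} (hF : F ≠ 0)
    (M : A → ℤ)
    (Q : A) (hQn : n.n Q = -1) (hQv : 0 ≤ E.v Q F.leadingCoeff)
    (hQe : Q ≠ E.T - ((g * (g + 1) : ℕ) : ℤ) • n.s) :
    ∃ (C G : K[X]) (α : ℕ), E.IsC n v0 g C ∧ G ≠ 0 ∧ F = C ^ α * G ∧ IsCoprime G C ∧
      (2 * (g : ℤ) + 1) * E.m v0 G ≤ G.natDegree + (2 * (g : ℤ) * (g + 1)) * E.b n G ∧
      E.m v0 F = α * (2 * (g : ℤ) + 1) + E.m v0 G ∧ E.b n F = α + E.b n G ∧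
      (F.natDegree : ℤ) = α * (2 * (g : ℤ) * (g + 1)) + G.natDegree ∧
      (∀ P, E.tau n P F = α * E.tau n P C + E.tau n P G) ∧
      (∀ P, P ≠ E.T - ((g * (g + 1) : ℕ) : ℤ) • n.s → E.tau n P C = 0) ∧
      E.tau n (E.T - ((g * (g + 1) : ℕ) : ℤ) • n.s) C = 1 ∧
      E.v Q F.leadingCoeff + F.natDegree + M Q = (M Q + E.w n Q F) + E.tau n Q G := by
  obtain ⟨C, hC⟩ := E.exists_C n h0 hsym B hs g hg hB
  obtain ⟨α, G, hG, hFG, hcop, hineq⟩ := E.split_C n h0 hC hF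
  have hC0 : C ≠ 0 := hC.irr.ne_zero
  have hpow : ∀ j : ℕ, C ^ j ≠ 0 := fun j => pow_ne_zero j hC0
  -- powers
  have hmp : ∀ j : ℕ, E.m v0 (C ^ j) = j * (2 * (g : ℤ) + 1) := by
    intro j
    induction j with
    | zero =>
      rw [pow_zero, show (1 : K[X]) = Polynomial.C 1 from (map_one _).symm,
        E.m_C v0 one_ne_zero]
      simp
    | succ j ih =>
      rw [pow_succ, E.m_mul v0 (hpow j) hC0, ih, hC.m]
      push_cast
      ring
  have hbp : ∀ j : ℕ, E.b n (C ^ j) = j := by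
    intro j
    induction j with
    | zero =>
      rw [pow_zero, show (1 : K[X]) = Polynomial.C 1 from (map_one _).symm,
        E.b_C n one_ne_zero]
      simp
    | succ j ih =>
      rw [pow_succ, E.b_mul n (hpow j) hC0, ih, hC.b]
      push_cast
      ring
  have htp : ∀ (P : A) (j : ℕ), E.tau n P (C ^ j) = j * E.tau n P C := by
    intro P j
    induction j with
    | zero =>
      have h1 := E.tau_mul n P (one_ne_zero (α := K[X])) (one_ne_zero (α := K[X]))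
      rw [mul_one] at h1
      rw [pow_zero]
      push_cast
      linarith
    | succ j ih =>
      rw [pow_succ, E.tau_mul n P (hpow j) hC0, ih]
      push_cast
      ring
  have hm : E.m v0 F = α * (2 * (g : ℤ) + 1) + E.m v0 G := by
    rw [hFG, E.m_mul v0 (hpow α) hG, hmp]
  have hb : E.b n F = α + E.b n G := by
    rw [hFG, E.b_mul n (hpow α) hG, hbp]
  have hd : (F.natDegree : ℤ) = α * (2 * (g : ℤ) * (g + 1)) + G.natDegree := by
    rw [hFG, Polynomial.natDegree_mul (hpow α) hG, Polynomial.natDegree_pow, hC.deg]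
    push_cast
    ring
  have ht : ∀ P, E.tau n P F = α * E.tau n P C + E.tau n P G := by
    intro P
    rw [hFG, E.tau_mul n P (hpow α) hG, htp]
  -- the end point of the curve
  have hfin := E.tau_fin n hC0
  have hsum := E.sum_tau n hC0
  rw [hC.b] at hsum
  have hz : ∃ z, E.tau n z C = 1 ∧ ∀ P, P ≠ z → E.tau n P C = 0 := by
    have h1 : ∃ z, 0 < E.tau n z C := by
      by_contra hcon
      push Not at hcon
      have h2 : ∀ P, E.tau n P C = 0 := fun P => le_antisymm (hcon P) (E.tau_nonneg n P hC0)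
      simp only [h2, finsum_zero] at hsum
      exact zero_ne_one hsum
    obtain ⟨z, hz⟩ := h1
    have h2 := SMain_single hfin (fun P => E.tau_nonneg n P hC0) z
    rw [hsum] at h2
    have h3 : E.tau n z C = 1 := by omega
    refine ⟨z, h3, fun P hP => ?_⟩
    have h4 := SMain_pair hfin (fun P => E.tau_nonneg n P hC0) hP
    rw [hsum, h3] at h4
    have h5 := E.tau_nonneg n P hC0
    linarith
  obtain ⟨z, hz1, hz2⟩ := hz
  have hzeq : z = E.T - ((g * (g + 1) : ℕ) : ℤ) • n.s := by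
    have h1 := E.sum_tau_smul n hC0
    rw [SMain_finsum_smul (f := fun P => E.tau n P C) hz2, hC.cls, hC.deg] at h1
    simp only [hz1, one_smul] at h1
    rw [h1]
    have h2 : ((2 * g * (g + 1) : ℕ) : ℤ) = ((g * (g + 1) : ℕ) : ℤ) + ((g * (g + 1) : ℕ) : ℤ) := by
      push_cast
      ring
    rw [h2, add_smul]
    abel
  rw [hzeq] at hz1 hz2
  refine ⟨C, G, α, hC, hG, hFG, hcop, hineq, hm, hb, hd, ht, hz2, hz1, ?_⟩
  have h1 := ht Q
  rw [hz2 Q hQe, mul_zero, zero_add] at h1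
  rw [← h1]
  unfold EField.tau
  rw [hQn]
  ring

/-- Odd case, `e = 2 g + 1`, `a_e = 2 g (g + 1)`, `t = a_e + 1`; `Q` is a place with `n Q = -1`,
where the leading coefficient of `F` is regular, and which is not the end point of `C_e`. -/
theorem sec_odd {v0 : k} (h0 : v0 ≠ 0) (hsym : E.HasSym n v0) (B : ℕ)
    (hs : ∀ j : ℕ, 1 ≤ j → j ≤ B → j • n.s ≠ 0) (g : ℕ) (hg : 1 ≤ g)
    (hB : 2 * g * (g + 1) ≤ B) {F : K[X]} (hF : F ≠ 0) (hdeg : F.natDegree ≤ B)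
    (M : A → ℤ) (hM : (Function.support M).Finite) (hMT : M E.T = 0)
    (hMw : ∀ P, 0 ≤ M P + E.w n P F) (μ : ℤ) (hμ : μ ≤ oo (E.v E.T) (algebraMap k K v0) F)
    (Q : A) (hQn : n.n Q = -1) (hQv : 0 ≤ E.v Q F.leadingCoeff) (hQT : Q ≠ E.T)
    (hQe : Q ≠ E.T - ((g * (g + 1) : ℕ) : ℤ) • n.s) :
    (2 * (g : ℤ) + 1) * μ ≤ (2 * (g : ℤ) * (g + 1) + 1) * (∑ᶠ P, M P) - M Q := by
  obtain ⟨C, G, α, hC, hG, hFG, hcop, hineq, hm, hb, hd, ht, hz2, hz1, hQ⟩ :=
    SMain_odd E n h0 hsym B hs g hg hB hF M Q hQn hQv hQe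
  have hfin := SMain_e_fin E n hM hF
  have hsum := SMain_sum E n hM hF
  have h2 := SMain_pair hfin hMw hQT
  rw [hsum] at h2
  simp only [hMT, zero_add] at h2
  have h3 := hMw E.T
  rw [hMT, zero_add] at h3
  have h4 := hMw Q
  rw [SMain_oo E n v0 F] at hμ
  have h5 := SMain_single (E.tau_fin n hG) (fun P => E.tau_nonneg n P hG) Q
  rw [E.sum_tau n hG] at h5
  have hg' : (1 : ℤ) ≤ g := by exact_mod_cast hg
  have hbG := E.b_nonneg n hG
  have h6 : (2 * (g : ℤ) + 1) * μ ≤ (2 * (g : ℤ) + 1) * (E.m v0 F + E.w n E.T F) :=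
    mul_le_mul_of_nonneg_left hμ (by positivity)
  set w0 := E.w n E.T F with hw0
  set eQ := M Q + E.w n Q F with heQ
  set mG := E.m v0 G with hmG
  set bG := E.b n G with hbG'
  set tQ := E.tau n Q G with htQ
  set S := ∑ᶠ P, M P with hS
  have h7 : (2 * (g : ℤ) * (g + 1) + 1) * (eQ + w0) ≤
      (2 * (g : ℤ) * (g + 1) + 1) * (S - E.b n F) :=
    mul_le_mul_of_nonneg_left h2 (by positivity)
  have h8 : 0 ≤ (2 * (g : ℤ) * (g + 1)) * eQ := mul_nonneg (by positivity) h4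
  have h9 : 0 ≤ (2 * (g : ℤ) ^ 2) * w0 := mul_nonneg (by positivity) h3
  rw [hm] at h6
  rw [hb] at h7
  nlinarith [h6, h7, h8, h9, hineq, hd, hQ, h5, hQv]

theorem sec_odd_eq {v0 : k} (h0 : v0 ≠ 0) (hsym : E.HasSym n v0) (B : ℕ)
    (hs : ∀ j : ℕ, 1 ≤ j → j ≤ B → j • n.s ≠ 0) (g : ℕ) (hg : 1 ≤ g)
    (hB : 2 * g * (g + 1) ≤ B) {F : K[X]} (hF : F ≠ 0) (hdeg : F.natDegree ≤ B)
    (M : A → ℤ) (hM : (Function.support M).Finite) (hMT : M E.T = 0)
    (hMw : ∀ P, 0 ≤ M P + E.w n P F) (μ : ℤ) (hμ : μ ≤ oo (E.v E.T) (algebraMap k K v0) F)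
    (Q : A) (hQn : n.n Q = -1) (hQv : 0 ≤ E.v Q F.leadingCoeff) (hQT : Q ≠ E.T)
    (hQe : Q ≠ E.T - ((g * (g + 1) : ℕ) : ℤ) • n.s)
    (heq : (2 * (g : ℤ) + 1) * μ = (2 * (g : ℤ) * (g + 1) + 1) * (∑ᶠ P, M P) - M Q) :
    ∃ α β : ℕ, (∑ᶠ P, M P) = α + β ∧ (F.natDegree : ℤ) + M Q = β ∧
      (∑ᶠ P, M P • P) - (F.natDegree : ℤ) • n.s =
        (α : ℤ) • (E.T - ((g * (g + 1) : ℕ) : ℤ) • n.s) + (β : ℤ) • Q ∧
      (α = 0 → (2 * (g : ℤ) * (g + 1)) • (∑ᶠ P, M P • P) =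
        ((F.natDegree : ℤ) * (g * (g + 1))) • n.s + ((F.natDegree : ℤ) + μ * (2 * g + 1)) • E.T) := by
  obtain ⟨C, G, α, hC, hG, hFG, hcop, hineq, hm, hb, hd, ht, hz2, hz1, hQ⟩ :=
    SMain_odd E n h0 hsym B hs g hg hB hF M Q hQn hQv hQe
  have hfin := SMain_e_fin E n hM hF
  have hsum := SMain_sum E n hM hF
  have hcls := SMain_sum_smul E n hM hF
  have h2 := SMain_pair hfin hMw hQT
  rw [hsum] at h2
  simp only [hMT, zero_add] at h2
  have h3 := hMw E.T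
  rw [hMT, zero_add] at h3
  have h4 := hMw Q
  rw [SMain_oo E n v0 F] at hμ
  have h5 := SMain_single (E.tau_fin n hG) (fun P => E.tau_nonneg n P hG) Q
  rw [E.sum_tau n hG] at h5
  have hg' : (1 : ℤ) ≤ g := by exact_mod_cast hg
  have hbG := E.b_nonneg n hG
  have h6 : (2 * (g : ℤ) + 1) * μ ≤ (2 * (g : ℤ) + 1) * (E.m v0 F + E.w n E.T F) :=
    mul_le_mul_of_nonneg_left hμ (by positivity)
  obtain ⟨w0, hw0⟩ : ∃ w0, w0 = E.w n E.T F := ⟨_, rfl⟩
  obtain ⟨eQ, heQ⟩ : ∃ eQ, eQ = M Q + E.w n Q F := ⟨_, rfl⟩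
  obtain ⟨S, hS⟩ : ∃ S, S = ∑ᶠ P, M P := ⟨_, rfl⟩
  rw [← hw0] at h2 h3 hμ h6
  rw [← heQ] at h2 h4 hQ
  rw [← hS] at h2 heq hsum
  have h7 : (2 * (g : ℤ) * (g + 1) + 1) * (eQ + w0) ≤
      (2 * (g : ℤ) * (g + 1) + 1) * (S - E.b n F) :=
    mul_le_mul_of_nonneg_left h2 (by positivity)
  have h8 : 0 ≤ (2 * (g : ℤ) * (g + 1)) * eQ := mul_nonneg (by positivity) h4
  have h9 : 0 ≤ (2 * (g : ℤ) ^ 2) * w0 := mul_nonneg (by positivity) h3
  have hm' := hm
  have hb' := hb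
  rw [hm] at h6
  rw [hb] at h7
  -- all the slacks vanish
  obtain ⟨mG, hmG⟩ : ∃ mG, mG = E.m v0 G := ⟨_, rfl⟩
  obtain ⟨bG, hbG'⟩ : ∃ bG, bG = E.b n G := ⟨_, rfl⟩
  obtain ⟨tQ, htQ⟩ : ∃ tQ, tQ = E.tau n Q G := ⟨_, rfl⟩
  obtain ⟨vQ, hvQ⟩ : ∃ vQ, vQ = E.v Q F.leadingCoeff := ⟨_, rfl⟩
  rw [← hmG] at h6 hineq hm'
  rw [← hbG'] at h7 hineq h5 hbG hb'
  rw [← htQ] at hQ h5
  rw [← hvQ] at hQ hQv
  have key : ((2 * (g : ℤ) + 1) * (α * (2 * (g : ℤ) + 1) + mG + w0) - (2 * (g : ℤ) + 1) * μ)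
      + ((2 * (g : ℤ) * (g + 1) + 1) * (S - (α + bG)) -
        (2 * (g : ℤ) * (g + 1) + 1) * (eQ + w0))
      + (2 * (g : ℤ) * (g + 1)) * eQ + (2 * (g : ℤ) ^ 2) * w0
      + (G.natDegree + (2 * (g : ℤ) * (g + 1)) * bG - (2 * (g : ℤ) + 1) * mG)
      + (bG - tQ) + vQ = 0 := by
    linear_combination (-1) * heq + hQ - hd
  have u1 := sub_nonneg.mpr h6
  have u2 := sub_nonneg.mpr h7
  have u3 := sub_nonneg.mpr hineq
  have u4 := sub_nonneg.mpr h5
  have s1 : (2 * (g : ℤ) + 1) * μ = (2 * (g : ℤ) + 1) * (α * (2 * (g : ℤ) + 1) + mG + w0) := by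
    apply le_antisymm h6
    apply le_of_sub_nonpos
    linarith only [key, u1, u2, u3, u4, h8, h9, hQv]
  have s2 : (2 * (g : ℤ) * (g + 1) + 1) * (eQ + w0) =
      (2 * (g : ℤ) * (g + 1) + 1) * (S - (α + bG)) := by
    apply le_antisymm h7
    apply le_of_sub_nonpos
    linarith only [key, u1, u2, u3, u4, h8, h9, hQv]
  have s3 : (2 * (g : ℤ) * (g + 1)) * eQ = 0 := by
    apply le_antisymm _ h8
    linarith only [key, u1, u2, u3, u4, h8, h9, hQv]
  have s4 : (2 * (g : ℤ) ^ 2) * w0 = 0 := by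
    apply le_antisymm _ h9
    linarith only [key, u1, u2, u3, u4, h8, h9, hQv]
  have s5 : (2 * (g : ℤ) + 1) * mG = G.natDegree + (2 * (g : ℤ) * (g + 1)) * bG := by
    apply le_antisymm hineq
    apply le_of_sub_nonpos
    linarith only [key, u1, u2, u3, u4, h8, h9, hQv]
  have s6 : tQ = bG := by
    apply le_antisymm h5
    apply le_of_sub_nonpos
    linarith only [key, u1, u2, u3, u4, h8, h9, hQv]
  have s7 : vQ = 0 := by
    apply le_antisymm _ hQv
    linarith only [key, u1, u2, u3, u4, h8, h9, hQv]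
  have t1 : eQ = 0 := by
    rcases mul_eq_zero.mp s3 with h | h
    · exfalso
      have : (0 : ℤ) < 2 * (g : ℤ) * (g + 1) := by positivity
      linarith
    · exact h
  have t2 : w0 = 0 := by
    rcases mul_eq_zero.mp s4 with h | h
    · exfalso
      have : (0 : ℤ) < 2 * (g : ℤ) ^ 2 := by positivity
      linarith
    · exact h
  have t3 : S = α + bG := by
    have : (2 * (g : ℤ) * (g + 1) + 1) ≠ 0 := by positivity
    have h := mul_left_cancel₀ this s2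
    rw [t1, t2] at h
    linarith
  have t4 : μ = E.m v0 F := by
    have : (2 * (g : ℤ) + 1) ≠ 0 := by positivity
    have h := mul_left_cancel₀ this s1
    rw [h, hm', t2]
    ring
  obtain ⟨β, hβ⟩ := Int.eq_ofNat_of_zero_le hbG
  -- all excesses vanish
  have hall : ∀ P, M P + E.w n P F = 0 := by
    intro P
    have h10 := SMain_single hfin hMw P
    rw [hsum, t3, hb'] at h10
    have h11 := hMw P
    linarith
  have hcls' : ∑ᶠ P, M P • P = E.cls n F := by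
    rw [hcls]
    simp only [hall, zero_smul, finsum_zero, zero_add]
  have hzero : ∀ P, P ≠ Q → E.tau n P G = 0 := by
    intro P hP
    have h10 := SMain_pair (E.tau_fin n hG) (fun P => E.tau_nonneg n P hG) hP
    rw [E.sum_tau n hG, ← htQ, ← hbG', s6] at h10
    have h11 := E.tau_nonneg n P hG
    linarith
  refine ⟨α, β, ?_, ?_, ?_, ?_⟩
  · rw [← hS, t3, hβ]
  · rw [s7, t1, s6, hβ] at hQ
    linarith
  · rw [hcls', ← E.sum_tau_smul n hF]
    have e1 : ∑ᶠ P, E.tau n P F • P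
        = ∑ᶠ P, (α * E.tau n P C) • P + ∑ᶠ P, E.tau n P G • P := by
      rw [← finsum_add_distrib]
      · apply finsum_congr
        intro P
        rw [ht P, add_smul]
      · apply SMain_smul_fin
        apply (E.tau_fin n hC.irr.ne_zero).subset
        intro P hP
        rw [Function.mem_support] at hP ⊢
        intro h
        exact hP (by rw [h, mul_zero])
      · exact SMain_smul_fin (E.tau_fin n hG)
    rw [e1, SMain_finsum_smul (f := fun P => E.tau n P G) hzero,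
      SMain_finsum_smul (f := fun P => α * E.tau n P C)
        (Q := E.T - ((g * (g + 1) : ℕ) : ℤ) • n.s) (fun P hP => by simp only [hz2 P hP, mul_zero])]
    simp only [hz1, ← htQ, s6, hβ, mul_one]
  · intro hα
    have hFG' : F = G := by rw [hFG, hα, pow_zero, one_mul]
    have hcop' : IsCoprime F C := by rw [hFG']; exact hcop
    have h10 := E.res_eq n h0 hF hC.irr.ne_zero hcop' (by
      rw [hC.m, hC.b, hC.deg, hFG', ← hmG, ← hbG']
      push_cast
      linarith)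
    rw [hC.deg, hC.cls, hC.m, ← hcls', ← t4] at h10
    have e2 : ((2 * g * (g + 1) : ℕ) : ℤ) = 2 * (g : ℤ) * (g + 1) := by push_cast; ring
    rw [e2] at h10
    have e3 : (2 * (g : ℤ) * (g + 1)) • (∑ᶠ P, M P • P)
        = ((F.natDegree : ℤ) * (2 * (g : ℤ) * (g + 1))) • n.s + (μ * (2 * (g : ℤ) + 1)) • E.T
          - (F.natDegree : ℤ) • (E.T + ((g * (g + 1) : ℕ) : ℤ) • n.s) := by
      rw [← h10]
      abel
    rw [e3, smul_add, smul_smul]
    have e4 : ((F.natDegree : ℤ) * (2 * (g : ℤ) * (g + 1)))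
        = (F.natDegree : ℤ) * ((g * (g + 1) : ℕ) : ℤ) + (F.natDegree : ℤ) * (g * (g + 1)) := by
      push_cast
      ring
    have e5 : (F.natDegree : ℤ) + μ * (2 * (g : ℤ) + 1)
        = μ * (2 * (g : ℤ) + 1) - F.natDegree + 2 * (F.natDegree : ℤ) := by ring
    rw [e4, e5, add_smul, add_smul, sub_smul, SMain_two_T]
    abel

end EField

end ShghE
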