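import Pool.Agent.ShghE.Gauss

/-!
# Lower bounds for the order of a resultant

`Polynomial.resultant F G = (sylvester F G m n).det`, `m = natDegree F`, `n = natDegree G`.
(1) If `v (F.coeff i) ≥ α + i N` and `v (G.coeff j) ≥ β + j N` for all nonzero coefficients then
`v (Res) ≥ n α + m β + m n N`  (the resultant is isobaric: scale rows and columns of the Sylvester
matrix).
(2) If `v (F.coeff i) ≥ α + max (μ - i) 0`, `v (G.coeff j) ≥ β + max (ν - j) 0` then
`v (Res) ≥ n α + m β + μ ν`. Proof: in the Sylvester matrix give column `c` the weight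
`(μ + ν - c)^+`, the row of `X^r F` the weight `(ν - r)^+` and the row of `X^r G` the weight
`(μ - r)^+`; then `v (entry) ≥ α (or β) + (column weight) - (row weight)` because
`(x + y)^+ ≤ x^+ + y^+`. Hence every term of the determinant has order at least
`n α + m β + Σ_{c<m+n} (μ+ν-c)^+ - Σ_{r<n} (ν-r)^+ - Σ_{r<m} (μ-r)^+ ≥ n α + m β + μ ν`
(use `μ ≤ m`, `ν ≤ n`, or argue with general `m`, `n`).
-/

namespace ShghE

open Polynomial

variable {K : Type*} [Field K] {v : K → ℤ}

private theorem sylv_prod (hv : IsOrd v) {ι : Type*} (s : Finset ι) (f : ι → K)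
    (h : ∀ i ∈ s, f i ≠ 0) : v (∏ i ∈ s, f i) = ∑ i ∈ s, v (f i) := by
  classical
  induction s using Finset.induction_on with
  | empty => simpa using hv.one
  | insert a s ha ih =>
    rw [Finset.prod_insert ha, Finset.sum_insert ha, hv.mul (h a (Finset.mem_insert_self a s))
      (Finset.prod_ne_zero_iff.mpr fun i hi => h i (Finset.mem_insert_of_mem hi)),
      ih fun i hi => h i (Finset.mem_insert_of_mem hi)]

private theorem sylv_det (hv : IsOrd v) {ι : Type*} [Fintype ι] [DecidableEq ι]
    (M : Matrix ι ι K) (a b : ι → ℤ) (h : ∀ i j, M i j ≠ 0 → a i + b j ≤ v (M i j))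
    (hdet : M.det ≠ 0) : ∑ i, a i + ∑ j, b j ≤ v M.det := by
  rw [Matrix.det_apply] at hdet ⊢
  refine hv.sum _ _ _ (fun σ _ hσ => ?_) hdet
  have hprod : ∏ i, M (σ i) i ≠ 0 := by
    intro h0
    apply hσ
    rw [h0, smul_zero]
  have hne : ∀ i ∈ Finset.univ, M (σ i) i ≠ 0 := fun i hi => Finset.prod_ne_zero_iff.mp hprod i hi
  have hv1 : v (Equiv.Perm.sign σ • ∏ i, M (σ i) i) = v (∏ i, M (σ i) i) := by
    rcases Int.units_eq_one_or (Equiv.Perm.sign σ) with h1 | h1
    · rw [h1, one_smul]
    · rw [h1, Units.neg_smul, one_smul, hv.neg hprod]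
  rw [hv1, sylv_prod hv _ _ hne]
  calc ∑ i, a i + ∑ j, b j = ∑ i, a (σ i) + ∑ j, b j := by rw [Equiv.sum_comp σ a]
    _ = ∑ i, (a (σ i) + b i) := by rw [Finset.sum_add_distrib]
    _ ≤ ∑ i, v (M (σ i) i) := Finset.sum_le_sum fun i hi => h _ _ (hne i hi)

/-- General weighted bound for the Sylvester determinant. -/
private theorem sylv_general (hv : IsOrd v) (F G : K[X]) (m n : ℕ) (a : ℕ → ℤ) (bF bG : ℕ → ℤ)
    (hF : ∀ i r : ℕ, r ≤ i → F.coeff (i - r) ≠ 0 → a i + bF r ≤ v (F.coeff (i - r)))
    (hG : ∀ i r : ℕ, r ≤ i → G.coeff (i - r) ≠ 0 → a i + bG r ≤ v (G.coeff (i - r)))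
    (h : resultant F G m n ≠ 0) :
    ∑ i ∈ Finset.range (m + n), a i + ∑ r ∈ Finset.range m, bG r + ∑ r ∈ Finset.range n, bF r ≤
      v (resultant F G m n) := by
  have key := sylv_det hv (sylvester F G m n) (fun i => a i)
    (fun j => j.addCases (fun j₁ => bG j₁) (fun j₁ => bF j₁)) ?_ h
  · have h1 : ∑ i : Fin (m + n), a i = ∑ i ∈ Finset.range (m + n), a i :=
      Fin.sum_univ_eq_sum_range a (m + n)
    have h2 : ∑ j : Fin (m + n), (j.addCases (fun j₁ => bG j₁) (fun j₁ => bF j₁) : ℤ) =
        ∑ r ∈ Finset.range m, bG r + ∑ r ∈ Finset.range n, bF r := by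
      rw [Fin.sum_univ_add]
      simp only [Fin.addCases_left, Fin.addCases_right]
      rw [Fin.sum_univ_eq_sum_range bG m, Fin.sum_univ_eq_sum_range bF n]
    rw [h1, h2] at key
    rw [add_assoc]
    exact key
  · intro i j
    induction j using Fin.addCases with
    | left j =>
      simp only [sylvester, Matrix.of_apply, Fin.addCases_left]
      split_ifs with hij
      · intro h0
        exact hG i j hij.1 h0
      · intro h0
        exact absurd rfl h0
    | right j =>
      simp only [sylvester, Matrix.of_apply, Fin.addCases_right]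
      split_ifs with hij
      · intro h0
        exact hF i j hij.1 h0
      · intro h0
        exact absurd rfl h0

private theorem sylv_sum_range (N : ℕ) : ∑ i ∈ Finset.range N, (i : ℤ) * 2 = N * (N - 1) := by
  induction N with
  | zero => simp
  | succ N ih => rw [Finset.sum_range_succ, ih]; push_cast; ring

theorem resultant_gv (hv : IsOrd v) (N : ℤ) {F G : K[X]} (hF : F ≠ 0) (hG : G ≠ 0)
    (h : resultant F G ≠ 0) :
    (G.natDegree : ℤ) * gv v N F + F.natDegree * gv v N G + F.natDegree * G.natDegree * N ≤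
      v (resultant F G) := by
  have key := sylv_general hv F G F.natDegree G.natDegree (fun i => (i : ℤ) * N)
    (fun r => gv v N F - r * N) (fun r => gv v N G - r * N) ?_ ?_ h
  · refine le_trans (le_of_eq ?_) key
    simp only [Finset.sum_sub_distrib, Finset.sum_const, Finset.card_range, nsmul_eq_mul,
      ← Finset.sum_mul]
    have e1 := sylv_sum_range (F.natDegree + G.natDegree)
    have e2 := sylv_sum_range F.natDegree
    have e3 := sylv_sum_range G.natDegree
    rw [← Finset.sum_mul] at e1 e2 e3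
    push_cast at e1
    have e4 : ∑ i ∈ Finset.range (F.natDegree + G.natDegree), (i : ℤ) =
        ∑ i ∈ Finset.range F.natDegree, (i : ℤ) + ∑ i ∈ Finset.range G.natDegree, (i : ℤ) +
        F.natDegree * G.natDegree := by nlinarith
    rw [e4]
    ring
  · intro i r hr h0
    have := gv_le (v := v) (n := N) h0
    push_cast [hr] at this
    linarith
  · intro i r hr h0
    have := gv_le (v := v) (n := N) h0
    push_cast [hr] at this
    linarith

private theorem sylv_sum_pos (μ N : ℕ) (h : μ ≤ N) :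
    2 * ∑ i ∈ Finset.range N, max ((μ : ℤ) - i) 0 = μ * (μ + 1) := by
  induction μ generalizing N with
  | zero =>
    rw [Finset.sum_eq_zero]
    · simp
    · intro i _
      rw [max_eq_right]
      push_cast
      linarith [Int.natCast_nonneg i]
  | succ μ ih =>
    obtain ⟨N, rfl⟩ : ∃ N', N = N' + 1 := ⟨N - 1, by omega⟩
    rw [Finset.sum_range_succ']
    have e : ∀ i ∈ Finset.range N, max (((μ + 1 : ℕ) : ℤ) - ((i + 1 : ℕ) : ℤ)) 0 =
        max ((μ : ℤ) - i) 0 := by
      intro i _
      congr 1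
      push_cast
      ring
    rw [Finset.sum_congr rfl e, mul_add, ih N (by omega)]
    rw [max_eq_left (by push_cast; linarith [Int.natCast_nonneg μ])]
    push_cast
    ring

private theorem sylv_coeff (hv : IsOrd v) {c : K} (hc : c ≠ 0 → 0 ≤ v c) {F : K[X]} (hF : F ≠ 0)
    {j : ℕ} (hj : (taylor c F).coeff j ≠ 0) :
    gv v 0 F + max (mu v c F - j) 0 ≤ v ((taylor c F).coeff j) := by
  have h1 := gv_le (v := v) (n := -1) hj
  have h2 := gv_le (v := v) (n := 0) hj
  rw [gv_taylor hv hc hF] at h2
  rw [← max_add_add_left]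
  refine max_le ?_ (by linarith)
  unfold mu oo
  linarith

theorem resultant_mu (hv : IsOrd v) {c : K} (hc : c ≠ 0 → 0 ≤ v c) {F G : K[X]} (hF : F ≠ 0)
    (hG : G ≠ 0) (h : resultant F G ≠ 0) :
    (G.natDegree : ℤ) * gv v 0 F + F.natDegree * gv v 0 G + mu v c F * mu v c G ≤
      v (resultant F G) := by
  obtain ⟨μ, hμ⟩ := Int.eq_ofNat_of_zero_le (mu_nonneg hv hc hF)
  obtain ⟨ν, hν⟩ := Int.eq_ofNat_of_zero_le (mu_nonneg hv hc hG)
  have hμm : μ ≤ F.natDegree := by
    have := mu_le_natDegree hv hc hF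
    rw [hμ] at this
    exact_mod_cast this
  have hνn : ν ≤ G.natDegree := by
    have := mu_le_natDegree hv hc hG
    rw [hν] at this
    exact_mod_cast this
  have hres : resultant (taylor c F) (taylor c G) F.natDegree G.natDegree = resultant F G := by
    have := resultant_taylor F G c
    rwa [natDegree_taylor, natDegree_taylor] at this
  rw [← hres] at h ⊢
  have key := sylv_general hv (taylor c F) (taylor c G) F.natDegree G.natDegree
    (fun i => max (((μ + ν : ℕ) : ℤ) - i) 0)
    (fun r => gv v 0 F - max ((ν : ℤ) - r) 0) (fun r => gv v 0 G - max ((μ : ℤ) - r) 0) ?_ ?_ h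
  · refine le_trans (le_of_eq ?_) key
    simp only [Finset.sum_sub_distrib, Finset.sum_const, Finset.card_range, nsmul_eq_mul]
    have e1 := sylv_sum_pos (μ + ν) (F.natDegree + G.natDegree) (by omega)
    have e2 := sylv_sum_pos μ F.natDegree hμm
    have e3 := sylv_sum_pos ν G.natDegree hνn
    rw [hμ, hν]
    push_cast at e1 e2 e3 ⊢
    linarith
  · intro i r hr h0
    have h1 := sylv_coeff hv hc hF h0
    rw [hμ] at h1
    push_cast [hr] at h1 ⊢
    rcases le_total ((μ : ℤ) - (i - r)) 0 with h2 | h2 <;>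
      rcases le_total ((ν : ℤ) - r) 0 with h3 | h3 <;>
      rcases le_total ((μ : ℤ) + ν - i) 0 with h4 | h4 <;>
      simp only [h2, h3, h4, max_eq_left, max_eq_right] at h1 ⊢ <;> linarith
  · intro i r hr h0
    have h1 := sylv_coeff hv hc hG h0
    rw [hν] at h1
    push_cast [hr] at h1 ⊢
    rcases le_total ((ν : ℤ) - (i - r)) 0 with h2 | h2 <;>
      rcases le_total ((μ : ℤ) - r) 0 with h3 | h3 <;>
      rcases le_total ((μ : ℤ) + ν - i) 0 with h4 | h4 <;>
      simp only [h2, h3, h4, max_eq_left, max_eq_right] at h1 ⊢ <;> linarith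

end ShghE
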