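import Pool.Agent.ShghE.SymB

/-!
# Symmetric polynomials with a point of high multiplicity
-/

namespace ShghE

open Polynomial

namespace EField

variable {k K A : Type*} [Field k] [Field K] [Algebra k K] [AddCommGroup A]
variable (E : EField k K A) (n : Twist E)

/-- The symmetric polynomial `Σ_i c_i (e_i X^{h-i} + iota(e_i) Π^{-i} X^{h+i})` (only once for `i = 0`). -/
noncomputable def Phi (Pi : K) (e : ℕ → K) (h : ℕ) : (Fin (h + 1) → k) →ₗ[k] K[X] where
  toFun c := ∑ i : Fin (h + 1), algebraMap k K (c i) •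
    (if (i : ℕ) = 0 then X ^ h
     else C (e i) * X ^ (h - i) + C (E.iota (e i) * (Pi ^ (i : ℕ))⁻¹) * X ^ (h + i))
  map_add' c d := by
    simp only [_root_.Pi.add_apply, map_add, add_smul, Finset.sum_add_distrib]
  map_smul' a c := by
    simp only [_root_.Pi.smul_apply, smul_eq_mul, map_mul, mul_smul, RingHom.id_apply, Finset.smul_sum,
      algebraMap_smul]

theorem Phi_apply (Pi : K) (e : ℕ → K) (h : ℕ) (c : Fin (h + 1) → k) :
    E.Phi Pi e h c = ∑ i : Fin (h + 1), algebraMap k K (c i) •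
    (if (i : ℕ) = 0 then X ^ h
     else C (e i) * X ^ (h - i) + C (E.iota (e i) * (Pi ^ (i : ℕ))⁻¹) * X ^ (h + i)) := rfl

theorem Sym_coeff_term (Pi : K) (e : ℕ → K) (h : ℕ) (i : Fin (h + 1)) (j : ℕ) :
    (if (i : ℕ) = 0 then (X ^ h : K[X])
     else C (e i) * X ^ (h - i) + C (E.iota (e i) * (Pi ^ (i : ℕ))⁻¹) * X ^ (h + i)).coeff j =
    if (i : ℕ) = 0 then (if j = h then 1 else 0)
    else (if j = h - i then e i else 0) +
      (if j = h + i then E.iota (e i) * (Pi ^ (i : ℕ))⁻¹ else 0) := by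
  by_cases h0 : (i : ℕ) = 0
  · rw [if_pos h0, if_pos h0, coeff_X_pow]
  · rw [if_neg h0, if_neg h0, coeff_add, coeff_C_mul_X_pow, coeff_C_mul_X_pow]

theorem Sym_coeff_low (Pi : K) (e : ℕ → K) (h : ℕ) (c : Fin (h + 1) → k) (i : Fin (h + 1)) :
    (E.Phi Pi e h c).coeff (h - i) =
      algebraMap k K (c i) * (if (i : ℕ) = 0 then 1 else e i) := by
  rw [Phi_apply, finsetSum_coeff, Finset.sum_eq_single i]
  · rw [coeff_smul, Sym_coeff_term, smul_eq_mul]
    congr 1
    by_cases h0 : (i : ℕ) = 0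
    · simp [h0]
    · rw [if_neg h0, if_neg h0, if_pos rfl, if_neg (by omega), add_zero]
  · intro l _ hl
    have hl' : (l : ℕ) ≠ i := fun hh => hl (Fin.ext hh)
    rw [coeff_smul, Sym_coeff_term, smul_eq_mul]
    have : (if (l : ℕ) = 0 then (if h - (i : ℕ) = h then (1 : K) else 0)
      else (if h - (i : ℕ) = h - l then e l else 0) +
        (if h - (i : ℕ) = h + l then E.iota (e l) * (Pi ^ (l : ℕ))⁻¹ else 0)) = 0 := by
      have := l.2
      have := i.2
      by_cases h0 : (l : ℕ) = 0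
      · rw [if_pos h0, if_neg (by omega)]
      · rw [if_neg h0, if_neg (by omega), if_neg (by omega), add_zero]
    rw [this, mul_zero]
  · intro h; exact absurd (Finset.mem_univ _) h

theorem Sym_coeff_high (Pi : K) (e : ℕ → K) (h : ℕ) (c : Fin (h + 1) → k) (i : Fin (h + 1))
    (hi : (i : ℕ) ≠ 0) :
    (E.Phi Pi e h c).coeff (h + i) =
      algebraMap k K (c i) * (E.iota (e i) * (Pi ^ (i : ℕ))⁻¹) := by
  rw [Phi_apply, finsetSum_coeff, Finset.sum_eq_single i]
  · rw [coeff_smul, Sym_coeff_term, smul_eq_mul]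
    congr 1
    rw [if_neg hi, if_neg (by omega), if_pos rfl, zero_add]
  · intro l _ hl
    have hl' : (l : ℕ) ≠ i := fun hh => hl (Fin.ext hh)
    rw [coeff_smul, Sym_coeff_term, smul_eq_mul]
    have : (if (l : ℕ) = 0 then (if h + (i : ℕ) = h then (1 : K) else 0)
      else (if h + (i : ℕ) = h - l then e l else 0) +
        (if h + (i : ℕ) = h + l then E.iota (e l) * (Pi ^ (l : ℕ))⁻¹ else 0)) = 0 := by
      have := l.2
      have := i.2
      by_cases h0 : (l : ℕ) = 0
      · rw [if_pos h0, if_neg (by omega)]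
      · rw [if_neg h0, if_neg (by omega), if_neg (by omega), add_zero]
    rw [this, mul_zero]
  · intro h; exact absurd (Finset.mem_univ _) h

theorem Sym_coeff_big (Pi : K) (e : ℕ → K) (h : ℕ) (c : Fin (h + 1) → k) (j : ℕ)
    (hj : 2 * h < j) : (E.Phi Pi e h c).coeff j = 0 := by
  rw [Phi_apply, finsetSum_coeff]
  refine Finset.sum_eq_zero fun l _ => ?_
  have := l.2
  rw [coeff_smul, Sym_coeff_term, smul_eq_mul]
  by_cases h0 : (l : ℕ) = 0
  · rw [if_pos h0, if_neg (by omega), mul_zero]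
  · rw [if_neg h0, if_neg (by omega), if_neg (by omega), add_zero, mul_zero]

/-- Every exponent `≤ 2h` is of one of the two forms. -/
theorem Sym_cases (h j : ℕ) (hj : j ≤ 2 * h) :
    (∃ i : Fin (h + 1), j = h - i) ∨ (∃ i : Fin (h + 1), (i : ℕ) ≠ 0 ∧ j = h + i) := by
  by_cases h1 : j ≤ h
  · exact Or.inl ⟨⟨h - j, by omega⟩, by simp only; omega⟩
  · exact Or.inr ⟨⟨j - h, by omega⟩, by simp only; omega, by simp only; omega⟩

theorem Phi_injective (Pi : K) (e : ℕ → K) (he : ∀ i, e i ≠ 0) (h : ℕ) :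
    Function.Injective (E.Phi (k := k) Pi e h) := by
  rw [← LinearMap.ker_eq_bot, LinearMap.ker_eq_bot']
  intro c hc
  funext i
  have h1 := E.Sym_coeff_low Pi e h c i
  rw [hc, coeff_zero] at h1
  have h2 : (if (i : ℕ) = 0 then (1 : K) else e i) ≠ 0 := by
    split_ifs
    · exact one_ne_zero
    · exact he _
  have h3 := (mul_eq_zero.mp h1.symm).resolve_right h2
  rw [← map_zero (algebraMap k K)] at h3
  exact (algebraMap k K).injective h3

theorem Sym_Phi_ne_zero (Pi : K) (e : ℕ → K) (he : ∀ i, e i ≠ 0) (h : ℕ) {c : Fin (h + 1) → k}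
    (hc : c ≠ 0) : E.Phi Pi e h c ≠ 0 := by
  intro h0
  exact hc (E.Phi_injective Pi e he h (by rw [h0, map_zero]))

theorem Sym_iota_ne_zero {x : K} (hx : x ≠ 0) : E.iota x ≠ 0 := by
  intro h0
  exact hx (by rw [← E.iota_iota x, h0, map_zero])

theorem natDegree_Phi (Pi : K) (hPi : Pi ≠ 0) (e : ℕ → K) (he : ∀ i, e i ≠ 0) (h : ℕ)
    (c : Fin (h + 1) → k) (hc : c ≠ 0) :
    (E.Phi Pi e h c).natDegree ≤ 2 * h ∧
      (E.Phi Pi e h c).natDegree + (E.Phi Pi e h c).natTrailingDegree = 2 * h := by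
  have hne := E.Sym_Phi_ne_zero Pi e he h hc
  have h1 : (E.Phi Pi e h c).natDegree ≤ 2 * h := by
    rw [natDegree_le_iff_coeff_eq_zero]
    exact fun j hj => E.Sym_coeff_big Pi e h c j hj
  refine ⟨h1, ?_⟩
  have hsym : ∀ j ≤ 2 * h, (E.Phi Pi e h c).coeff j ≠ 0 →
      (E.Phi Pi e h c).coeff (2 * h - j) ≠ 0 := by
    intro j hj hj0
    rcases Sym_cases h j hj with ⟨i, rfl⟩ | ⟨i, hi, rfl⟩
    · rw [Sym_coeff_low] at hj0
      have hi2 := i.2
      by_cases hi : (i : ℕ) = 0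
      · have h3 : 2 * h - (h - (i : ℕ)) = h - i := by omega
        rw [h3, Sym_coeff_low]
        exact hj0
      · have h3 : 2 * h - (h - (i : ℕ)) = h + i := by omega
        rw [h3, Sym_coeff_high _ _ _ _ _ _ hi]
        exact mul_ne_zero (left_ne_zero_of_mul hj0)
          (mul_ne_zero (E.Sym_iota_ne_zero (he _)) (inv_ne_zero (pow_ne_zero _ hPi)))
    · rw [Sym_coeff_high _ _ _ _ _ _ hi] at hj0
      have hi2 := i.2
      have h3 : 2 * h - (h + (i : ℕ)) = h - i := by omega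
      rw [h3, Sym_coeff_low, if_neg hi]
      exact mul_ne_zero (left_ne_zero_of_mul hj0) (he _)
  have h2 : (E.Phi Pi e h c).natTrailingDegree ≤ 2 * h - (E.Phi Pi e h c).natDegree := by
    apply natTrailingDegree_le_of_ne_zero
    exact hsym _ h1 (by rw [coeff_natDegree]; exact leadingCoeff_ne_zero.mpr hne)
  have h3 : 2 * h - (E.Phi Pi e h c).natTrailingDegree ≤ (E.Phi Pi e h c).natDegree := by
    apply le_natDegree_of_ne_zero
    exact hsym _ ((natTrailingDegree_le_natDegree _).trans h1)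
      (by rw [← trailingCoeff]; exact trailingCoeff_nonzero_iff_nonzero.mpr hne)
  omega

theorem Sym_coeff_rho (Pi : K) (h : ℕ) (F : K[X]) (j : ℕ) :
    (E.rho Pi h F).coeff j =
      (Pi ^ h)⁻¹ * (E.iota (F.coeff (revAt (2 * h) j)) * Pi ^ (revAt (2 * h) j)) := by
  rw [rho, coeff_C_mul, coeff_reflect, comp_C_mul_X_coeff, coeff_map]

theorem rho_Phi {Pi : K} (hPi : Pi ≠ 0) (hi : E.iota Pi = Pi) (e : ℕ → K) (h : ℕ)
    (c : Fin (h + 1) → k) : E.rho Pi h (E.Phi Pi e h c) = E.Phi Pi e h c := by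
  ext j
  rw [Sym_coeff_rho]
  by_cases hj : j ≤ 2 * h
  · rw [revAt_le hj]
    rcases Sym_cases h j hj with ⟨i, rfl⟩ | ⟨i, hi0, rfl⟩
    · have hi2 := i.2
      rw [Sym_coeff_low]
      by_cases hi0 : (i : ℕ) = 0
      · have h3 : 2 * h - (h - (i : ℕ)) = h - i := by omega
        rw [h3, Sym_coeff_low, if_pos hi0, map_mul, E.iota_const, map_one, hi0, Nat.sub_zero,
          mul_one]
        field_simp
      · have h3 : 2 * h - (h - (i : ℕ)) = h + i := by omega
        rw [h3, Sym_coeff_high _ _ _ _ _ _ hi0, if_neg hi0, map_mul, map_mul, E.iota_const,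
          E.iota_iota, map_inv₀, map_pow, hi, pow_add]
        field_simp
    · have hi2 := i.2
      have h3 : 2 * h - (h + (i : ℕ)) = h - i := by omega
      rw [Sym_coeff_high _ _ _ _ _ _ hi0, h3, Sym_coeff_low, if_neg hi0, map_mul, E.iota_const]
      have h4 : Pi ^ h = Pi ^ (h - (i : ℕ)) * Pi ^ (i : ℕ) := by
        rw [← pow_add]; congr 1; omega
      rw [h4]
      field_simp
  · push Not at hj
    rw [revAt_eq_self_of_lt hj, E.Sym_coeff_big Pi e h c j hj, map_zero, zero_mul, mul_zero]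

theorem Sym_dT_nonneg (P : A) : 0 ≤ E.dT P := by
  unfold dT; split_ifs <;> norm_num

theorem Sym_neg_T : -E.T = E.T := neg_eq_of_add_eq_zero_left E.T_two

theorem Sym_dT_neg (P : A) : E.dT (-P) = E.dT P := by
  unfold dT
  have : (-P = E.T) ↔ (P = E.T) := by
    rw [neg_eq_iff_eq_neg, Sym_neg_T]
  by_cases h : P = E.T
  · rw [if_pos h, if_pos (this.mpr h)]
  · rw [if_neg h, if_neg (fun h' => h (this.mp h'))]

theorem Sym_v_const_mul (P : A) {a : k} {x : K} (h : algebraMap k K a * x ≠ 0) :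
    E.v P (algebraMap k K a * x) = E.v P x := by
  have h1 := left_ne_zero_of_mul h
  have h2 := right_ne_zero_of_mul h
  have ha : a ≠ 0 := by
    rintro rfl
    exact h1 (map_zero _)
  rw [(E.ord P).mul h1 h2, E.const a ha, zero_add]

theorem w_Phi {Pi : K} (hPi : Pi ≠ 0) (hPiv : ∀ P, E.v P Pi = - (n.n P + n.n (-P)))
    (e : ℕ → K) (he : ∀ i, e i ≠ 0) (hev : ∀ (i : ℕ) (P : A), - E.dT P - (i : ℤ) * n.n P ≤ E.v P (e i))
    (h : ℕ) (c : Fin (h + 1) → k) (hc : c ≠ 0) (P : A) :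
    - E.dT P - (h : ℤ) * n.n P ≤ E.w n P (E.Phi Pi e h c) := by
  rw [w, le_gv_iff (E.Sym_Phi_ne_zero Pi e he h hc)]
  intro j hj
  have hj2 : j ≤ 2 * h := by
    by_contra hh
    exact hj (E.Sym_coeff_big Pi e h c j (by omega))
  have hd := E.Sym_dT_nonneg P
  rcases Sym_cases h j hj2 with ⟨i, rfl⟩ | ⟨i, hi0, rfl⟩
  · have hi2 := i.2
    rw [Sym_coeff_low] at hj ⊢
    rw [E.Sym_v_const_mul P hj]
    by_cases hi0 : (i : ℕ) = 0
    · rw [if_pos hi0, (E.ord P).one, hi0, Nat.sub_zero]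
      linarith
    · rw [if_neg hi0]
      have h1 := hev i P
      have h2 : ((h - (i : ℕ) : ℕ) : ℤ) = (h : ℤ) - i := by
        rw [Nat.cast_sub (by omega)]
      rw [h2]
      linarith
  · have hi2 := i.2
    rw [Sym_coeff_high _ _ _ _ _ _ hi0] at hj ⊢
    rw [E.Sym_v_const_mul P hj, (E.ord P).mul (E.Sym_iota_ne_zero (he _))
      (inv_ne_zero (pow_ne_zero _ hPi)), (E.ord P).inv (pow_ne_zero _ hPi), (E.ord P).pow hPi,
      E.iota_v P _ (he _), hPiv]
    have h1 := hev i (-P)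
    rw [E.Sym_dT_neg] at h1
    push_cast
    linarith

/-- Coefficients with order at least `i`. -/
noncomputable def VV (Pi : K) (e : ℕ → K) (h : ℕ) (v0 : k) (i : ℕ) :
    Submodule k (Fin (h + 1) → k) where
  carrier := {c | E.FW v0 i (C E.pi * E.Phi Pi e h c)}
  add_mem' := by
    intro c d hc hd
    simp only [Set.mem_ofPred_eq, map_add, mul_add] at *
    exact hc.add hd
  zero_mem' := by
    simp only [Set.mem_ofPred_eq, map_zero, mul_zero]
    exact FW.zero _
  smul_mem' := by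
    intro a c hc
    simp only [Set.mem_ofPred_eq] at *
    have h1 : C E.pi * E.Phi Pi e h (a • c) =
        C (algebraMap k K a) * (C E.pi * E.Phi Pi e h c) := by
      rw [map_smul, ← algebraMap_smul K a, smul_eq_C_mul]
      ring
    rw [h1]
    have h2 : E.FW v0 0 (C (algebraMap k K a)) := by
      refine FW.const ?_
      intro ha
      have ha' : a ≠ 0 := by
        rintro rfl
        exact ha (map_zero _)
      rw [E.const a ha']
    have h3 := h2.mul hc
    rwa [zero_add] at h3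

theorem Sym_mem_VV {Pi : K} {e : ℕ → K} {h : ℕ} {v0 : k} {i : ℕ} {c : Fin (h + 1) → k} :
    c ∈ E.VV Pi e h v0 i ↔ E.FW v0 i (C E.pi * E.Phi Pi e h c) := Iff.rfl

/-- The coefficients of `pi Phi` are integral at `T`. -/
theorem Sym_int (Pi : K) (hPi : Pi ≠ 0) (hPi0 : E.v E.T Pi = 0) (e : ℕ → K)
    (heT : ∀ i, e i ≠ 0 → - 1 ≤ E.v E.T (e i)) (h : ℕ) (c : Fin (h + 1) → k) (j : ℕ)
    (hj : (C E.pi * E.Phi Pi e h c).coeff j ≠ 0) :
    0 ≤ E.v E.T ((C E.pi * E.Phi Pi e h c).coeff j) := by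
  rw [coeff_C_mul] at hj ⊢
  have hj1 := right_ne_zero_of_mul hj
  rw [(E.ord E.T).mul (left_ne_zero_of_mul hj) hj1, E.pi_v]
  have hj2 : j ≤ 2 * h := by
    by_contra hh
    exact hj1 (E.Sym_coeff_big Pi e h c j (by omega))
  have : -1 ≤ E.v E.T ((E.Phi Pi e h c).coeff j) := by
    rcases Sym_cases h j hj2 with ⟨i, rfl⟩ | ⟨i, hi0, rfl⟩
    · rw [Sym_coeff_low] at hj1 ⊢
      rw [E.Sym_v_const_mul _ hj1]
      have hj3 := right_ne_zero_of_mul hj1
      by_cases hi0 : (i : ℕ) = 0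
      · rw [if_pos hi0, (E.ord E.T).one]; norm_num
      · rw [if_neg hi0] at hj3 ⊢
        exact heT _ hj3
    · rw [Sym_coeff_high _ _ _ _ _ _ hi0] at hj1 ⊢
      rw [E.Sym_v_const_mul _ hj1]
      have hj3 := right_ne_zero_of_mul hj1
      have hj4 := left_ne_zero_of_mul hj3
      have hj5 : e i ≠ 0 := by
        intro h0
        exact hj4 (by rw [h0, map_zero])
      rw [(E.ord E.T).mul hj4 (right_ne_zero_of_mul hj3), (E.ord E.T).inv (pow_ne_zero _ hPi),
        (E.ord E.T).pow hPi, hPi0, E.vT_iota hj5]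
      have := heT _ hj5
      linarith
  linarith

/-- The coefficients of the expansion at `v0` are integral at `T`. -/
theorem Sym_int_taylor (Pi : K) (hPi : Pi ≠ 0) (hPi0 : E.v E.T Pi = 0) (e : ℕ → K)
    (heT : ∀ i, e i ≠ 0 → - 1 ≤ E.v E.T (e i)) (h : ℕ) {v0 : k} (hv0 : v0 ≠ 0)
    (c : Fin (h + 1) → k) (j : ℕ)
    (hj : (taylor (algebraMap k K v0) (C E.pi * E.Phi Pi e h c)).coeff j ≠ 0) :
    0 ≤ E.v E.T ((taylor (algebraMap k K v0) (C E.pi * E.Phi Pi e h c)).coeff j) := by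
  have hF : C E.pi * E.Phi Pi e h c ≠ 0 := by
    intro h0
    exact hj (by rw [h0, map_zero, coeff_zero])
  have h1 : 0 ≤ gv (E.v E.T) 0 (C E.pi * E.Phi Pi e h c) := by
    rw [le_gv_iff hF]
    intro l hl
    have := E.Sym_int Pi hPi hPi0 e heT h c l hl
    linarith
  rw [← gv_taylor (E.ord E.T) (c := algebraMap k K v0)
    (fun _ => by rw [E.const v0 hv0]) hF] at h1
  have h2 := gv_le (v := E.v E.T) (n := 0) hj
  linarith

/-- Functions vanishing at `T`. -/
noncomputable def SymM : Submodule k K where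
  carrier := {x | x ≠ 0 → 1 ≤ E.v E.T x}
  add_mem' := by
    intro x y hx hy h
    simp only [Set.mem_ofPred_eq] at hx hy
    by_cases hx0 : x = 0
    · subst hx0
      rw [zero_add] at h ⊢
      exact hy h
    by_cases hy0 : y = 0
    · subst hy0
      rw [add_zero] at h ⊢
      exact hx h
    exact (le_min (hx hx0) (hy hy0)).trans ((E.ord E.T).add hx0 hy0 h)
  zero_mem' := fun h => absurd rfl h
  smul_mem' := by
    intro a x hx h
    simp only [Set.mem_ofPred_eq] at hx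
    rw [Algebra.smul_def] at h ⊢
    rw [E.Sym_v_const_mul _ h]
    exact hx (right_ne_zero_of_mul h)

theorem Sym_mem_M {x : K} : x ∈ E.SymM ↔ (x ≠ 0 → 1 ≤ E.v E.T x) := Iff.rfl

/-- The normalised coefficients of the expansion. -/
noncomputable def SymL (Pi : K) (e : ℕ → K) (h : ℕ) (v0 : k) (i j : ℕ) :
    (Fin (h + 1) → k) →ₗ[k] K where
  toFun c := (taylor (algebraMap k K v0) (C E.pi * E.Phi Pi e h c)).coeff j * (E.pi ^ (i - j))⁻¹
  map_add' c d := by
    simp only [map_add, mul_add, coeff_add, add_mul]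
  map_smul' a c := by
    have h1 : C E.pi * E.Phi Pi e h (a • c) =
        C (algebraMap k K a) * (C E.pi * E.Phi Pi e h c) := by
      rw [map_smul, ← algebraMap_smul K a, smul_eq_C_mul]
      ring
    rw [h1, taylor_mul, taylor_C, coeff_C_mul, RingHom.id_apply, Algebra.smul_def, mul_assoc]

theorem SymL_apply (Pi : K) (e : ℕ → K) (h : ℕ) (v0 : k) (i j : ℕ) (c : Fin (h + 1) → k) :
    E.SymL Pi e h v0 i j c =
      (taylor (algebraMap k K v0) (C E.pi * E.Phi Pi e h c)).coeff j * (E.pi ^ (i - j))⁻¹ := rfl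

/-- Leading forms: at most `i + 1` conditions (residues of `f_j / pi^(i-j)`, `j ≤ i`, `f_j` the
coefficient of `(X - v0)^j`; the coefficients are integral at `T`, hence no condition for `j > i`). -/
theorem finrank_VV (Pi : K) (hPi : Pi ≠ 0) (hPi0 : E.v E.T Pi = 0) (e : ℕ → K)
    (heT : ∀ i, e i ≠ 0 → - 1 ≤ E.v E.T (e i)) (h : ℕ) {v0 : k} (hv0 : v0 ≠ 0) (i : ℕ) :
    Module.finrank k (E.VV Pi e h v0 i) ≤ Module.finrank k (E.VV Pi e h v0 (i + 1)) + (i + 1) := by
  classical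
  -- the map to the product of the residue spaces
  let q : K →ₗ[k] (K ⧸ E.SymM) := E.SymM.mkQ
  let L : E.VV Pi e h v0 i →ₗ[k] (Fin (i + 1) → (K ⧸ E.SymM)) :=
    LinearMap.pi fun j => q ∘ₗ (E.SymL Pi e h v0 i j) ∘ₗ (E.VV Pi e h v0 i).subtype
  have hL : ∀ c j, L c j = q (E.SymL Pi e h v0 i j c) := fun c j => rfl
  -- order of the normalised coefficients
  have hint : ∀ (c : E.VV Pi e h v0 i) (j : Fin (i + 1)), E.SymL Pi e h v0 i j c ≠ 0 →
      0 ≤ E.v E.T (E.SymL Pi e h v0 i j c) := by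
    intro c j hj
    rw [SymL_apply] at hj ⊢
    have h1 := left_ne_zero_of_mul hj
    have h2 := (E.Sym_mem_VV.mp c.2) j h1
    have hp := E.pi_ne_zero
    rw [(E.ord E.T).mul h1 (right_ne_zero_of_mul hj), (E.ord E.T).inv (pow_ne_zero _ hp),
      (E.ord E.T).pow hp, E.pi_v]
    have h3 : ((i - (j : ℕ) : ℕ) : ℤ) = (i : ℤ) - j := by
      have := j.2
      rw [Nat.cast_sub (by omega)]
    rw [h3]
    linarith
  -- the range is spanned by `i + 1` vectors
  have hrange : Module.finrank k (LinearMap.range L) ≤ i + 1 := by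
    let S : Submodule k (Fin (i + 1) → (K ⧸ E.SymM)) :=
      Submodule.span k (Set.range fun j : Fin (i + 1) => _root_.Pi.single j (q 1))
    have h1 : LinearMap.range L ≤ S := by
      rintro _ ⟨c, rfl⟩
      have h2 : ∀ j, ∃ a : k, L c j = a • q 1 := by
        intro j
        rw [hL]
        by_cases h0 : E.SymL Pi e h v0 i j c = 0
        · exact ⟨0, by rw [h0, map_zero, zero_smul]⟩
        · obtain ⟨a, ha⟩ := E.res _ h0 (hint c j h0)
          refine ⟨a, ?_⟩
          rw [← map_smul, ← sub_eq_zero, ← map_sub, Submodule.mkQ_apply,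
            Submodule.Quotient.mk_eq_zero, Sym_mem_M, Algebra.smul_def, mul_one]
          exact ha
      choose a ha using h2
      have h3 : L c = ∑ j, a j • (_root_.Pi.single j (q 1) : Fin (i + 1) → (K ⧸ E.SymM)) := by
        funext l
        rw [ha, Finset.sum_apply, Finset.sum_eq_single l]
        · simp
        · intro b _ hb
          simp [_root_.Pi.single_eq_of_ne hb.symm]
        · intro hh; exact absurd (Finset.mem_univ _) hh
      rw [h3]
      exact Submodule.sum_mem _ fun j _ => Submodule.smul_mem _ _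
        (Submodule.subset_span ⟨j, rfl⟩)
    have hfin : FiniteDimensional k S := FiniteDimensional.span_of_finite k (Set.finite_range _)
    refine (Submodule.finrank_mono h1).trans ?_
    refine (finrank_range_le_card _).trans ?_
    simp
  -- the kernel is contained in the next space
  have hker : Module.finrank k (LinearMap.ker L) ≤ Module.finrank k (E.VV Pi e h v0 (i + 1)) := by
    have hmem : ∀ c : LinearMap.ker L, ((c : E.VV Pi e h v0 i) : Fin (h + 1) → k) ∈
        E.VV Pi e h v0 (i + 1) := by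
      rintro ⟨c, hc⟩
      rw [Sym_mem_VV]
      intro j hj
      by_cases hji : j ≤ i
      · have h1 : L c ⟨j, by omega⟩ = 0 := by
          rw [LinearMap.mem_ker] at hc
          rw [hc]; rfl
        rw [hL, Submodule.mkQ_apply, Submodule.Quotient.mk_eq_zero, Sym_mem_M, SymL_apply] at h1
        have hp := E.pi_ne_zero
        have hp2 : (E.pi ^ (i - j))⁻¹ ≠ 0 := inv_ne_zero (pow_ne_zero _ hp)
        have h2 := h1 (mul_ne_zero hj hp2)
        simp only at h2
        rw [(E.ord E.T).mul hj hp2, (E.ord E.T).inv (pow_ne_zero _ hp),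
          (E.ord E.T).pow hp, E.pi_v, Nat.cast_sub hji] at h2
        push_cast
        linarith
      · have h1 := E.Sym_int_taylor Pi hPi hPi0 e heT h hv0 _ j hj
        push_cast
        have : (i : ℤ) + 1 ≤ j := by exact_mod_cast (by omega : i + 1 ≤ j)
        linarith
    let J : LinearMap.ker L →ₗ[k] E.VV Pi e h v0 (i + 1) :=
      LinearMap.codRestrict _ ((E.VV Pi e h v0 i).subtype ∘ₗ (LinearMap.ker L).subtype) hmem
    refine LinearMap.finrank_le_finrank_of_injective (f := J) ?_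
    intro c d hcd
    have := congrArg (fun x : E.VV Pi e h v0 (i + 1) => (x : Fin (h + 1) → k)) hcd
    exact Subtype.ext (Subtype.ext this)
  have h1 := LinearMap.finrank_range_add_finrank_ker L
  omega

/-- Parity: for even `i` there is no condition at all. -/
theorem VV_even (h2 : (2 : k) ≠ 0) {Pi : K} (hPi : Pi ≠ 0) (hi : E.iota Pi = Pi)
    (hPi0 : E.v E.T Pi = 0) (e : ℕ → K)
    (heT : ∀ i, e i ≠ 0 → - 1 ≤ E.v E.T (e i)) (h : ℕ) {v0 : k} (hv0 : v0 ≠ 0)
    (hPi2 : Pi - algebraMap k K v0 ^ 2 ≠ 0 → 2 ≤ E.v E.T (Pi - algebraMap k K v0 ^ 2))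
    (i : ℕ) (hie : Even i) : E.VV Pi e h v0 i ≤ E.VV Pi e h v0 (i + 1) := by
  intro c hc
  rw [Sym_mem_VV] at hc ⊢
  have hdeg : (C E.pi * E.Phi Pi e h c).natDegree ≤ 2 * h := by
    rw [natDegree_le_iff_coeff_eq_zero]
    intro j hj
    rw [coeff_C_mul, E.Sym_coeff_big Pi e h c j hj, mul_zero]
  have h3 := E.parity hPi hv0 hPi0 hPi2 h _ hdeg (E.Sym_int Pi hPi hPi0 e heT h c) i hc
  rw [rho_C_mul, E.rho_Phi hPi hi, E.pi_iota, hie.neg_one_pow, one_mul] at h3
  have h4 : C (-E.pi) * E.Phi Pi e h c - C E.pi * E.Phi Pi e h c =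
      C (algebraMap k K (-2)) * (C E.pi * E.Phi Pi e h c) := by
    rw [map_neg (algebraMap k K), map_ofNat, C_neg, C_neg]
    have : (C (2 : K) : K[X]) = 2 := rfl
    rw [this]
    ring
  rw [h4] at h3
  have h5 : E.FW v0 0 (C (algebraMap k K (-2)⁻¹)) := by
    refine FW.const ?_
    intro _
    rw [E.const _ (inv_ne_zero (neg_ne_zero.mpr h2))]
  have h6 := h5.mul h3
  rw [← mul_assoc, ← C_mul, ← map_mul, inv_mul_cancel₀ (neg_ne_zero.mpr h2), map_one, C_1, one_mul,
    zero_add] at h6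
  exact_mod_cast h6

/-- Existence of the symmetric polynomials. -/
theorem exists_sym [IsAlgClosed k] (h2 : (2 : k) ≠ 0) : ∃ v0 : k, v0 ≠ 0 ∧ E.HasSym n v0 := by
  obtain ⟨Pi, hPi, hi, hPiv⟩ := E.exists_Pi n h2
  have hPi0 : E.v E.T Pi = 0 := by
    rw [hPiv, E.Sym_neg_T, n.nT]; ring
  obtain ⟨v0, hv0, hPi2⟩ := E.exists_v0 h2 hPi hi hPi0
  obtain ⟨e, -, he, hev⟩ := E.exists_e n
  have heT : ∀ i, e i ≠ 0 → - 1 ≤ E.v E.T (e i) := by
    intro i _
    have h1 := hev i E.T
    rw [n.nT, dT, if_pos rfl] at h1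
    linarith
  refine ⟨v0, hv0, ?_⟩
  intro g
  -- dimension count
  have h0 : E.VV Pi e (g * (g + 1)) v0 0 = ⊤ := by
    rw [eq_top_iff]
    intro c _
    rw [Sym_mem_VV]
    intro j hj
    have := E.Sym_int_taylor Pi hPi hPi0 e heT (g * (g + 1)) hv0 c j hj
    push_cast
    have : (0 : ℤ) ≤ j := Int.natCast_nonneg j
    linarith
  have hdim : ∀ l : ℕ, g * (g + 1) + 1 ≤
      Module.finrank k (E.VV Pi e (g * (g + 1)) v0 (2 * l)) + l * (l + 1) := by
    intro l
    induction l with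
    | zero =>
      rw [mul_zero, h0, finrank_top, Module.finrank_fintype_fun_eq_card, Fintype.card_fin]
    | succ l ih =>
      have h3 : Module.finrank k (E.VV Pi e (g * (g + 1)) v0 (2 * l)) ≤
          Module.finrank k (E.VV Pi e (g * (g + 1)) v0 (2 * l + 1)) :=
        Submodule.finrank_mono (E.VV_even h2 hPi hi hPi0 e heT _ hv0 hPi2 (2 * l)
          (even_two_mul l))
      have h4 := E.finrank_VV Pi hPi hPi0 e heT (g * (g + 1)) hv0 (2 * l + 1)
      have h5 : 2 * (l + 1) = 2 * l + 1 + 1 := by ring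
      rw [h5]
      have h6 : (l + 1) * (l + 1 + 1) = l * (l + 1) + (2 * l + 1 + 1) := by ring
      rw [h6]
      omega
  have hd := hdim g
  have hd2 : 0 < Module.finrank k (E.VV Pi e (g * (g + 1)) v0 (2 * g)) := by omega
  obtain ⟨c, hc⟩ : ∃ c : E.VV Pi e (g * (g + 1)) v0 (2 * g), c ≠ 0 := by
    have := Module.finrank_pos_iff.mp hd2
    exact exists_ne 0
  have hcne : (c : Fin (g * (g + 1) + 1) → k) ≠ 0 := by
    intro hh
    exact hc (Subtype.ext hh)
  have hmem : (c : Fin (g * (g + 1) + 1) → k) ∈ E.VV Pi e (g * (g + 1)) v0 (2 * g + 1) :=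
    E.VV_even h2 hPi hi hPi0 e heT _ hv0 hPi2 (2 * g) (even_two_mul g) c.2
  have hPhi := E.Sym_Phi_ne_zero Pi e he (g * (g + 1)) hcne
  have hpi := E.pi_ne_zero
  have hCpi : (C E.pi : K[X]) ≠ 0 := C_ne_zero.mpr hpi
  have hF : C E.pi * E.Phi Pi e (g * (g + 1)) c ≠ 0 := mul_ne_zero hCpi hPhi
  have hoC : oo (E.v E.T) (algebraMap k K v0) (C E.pi) = 1 := by
    rw [oo, taylor_C, gv_C _ hpi, E.pi_v]
  have hoo : oo (E.v E.T) (algebraMap k K v0) (C E.pi * E.Phi Pi e (g * (g + 1)) c) =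
      1 + oo (E.v E.T) (algebraMap k K v0) (E.Phi Pi e (g * (g + 1)) c) := by
    rw [oo_mul (E.ord E.T) _ hCpi hPhi, hoC]
  have h3 := (FW_iff hF).mp (E.Sym_mem_VV.mp hmem)
  -- parity of the exact order
  obtain ⟨q, hq⟩ : ∃ q : ℕ, oo (E.v E.T) (algebraMap k K v0)
      (C E.pi * E.Phi Pi e (g * (g + 1)) c) = q := by
    refine Int.eq_ofNat_of_zero_le (le_trans ?_ h3)
    positivity
  have hqodd : Odd q := by
    by_contra hqe
    rw [Nat.not_odd_iff_even] at hqe
    have h4 : (c : Fin (g * (g + 1) + 1) → k) ∈ E.VV Pi e (g * (g + 1)) v0 q := by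
      rw [Sym_mem_VV, FW_iff hF, hq]
    have h5 := E.VV_even h2 hPi hi hPi0 e heT _ hv0 hPi2 q hqe h4
    rw [Sym_mem_VV, FW_iff hF, hq] at h5
    push_cast at h5
    linarith
  refine ⟨E.Phi Pi e (g * (g + 1)) c, hPhi, ?_, ?_, ?_, ?_, ?_⟩
  · exact (E.natDegree_Phi Pi hPi e he _ _ hcne).1
  · rw [(E.natDegree_Phi Pi hPi e he _ _ hcne).2]
    exact even_two_mul _
  · intro P
    exact E.w_Phi n hPi hPiv e he hev _ _ hcne P
  · rw [hoo] at h3
    push_cast at h3
    linarith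
  · have h4 : oo (E.v E.T) (algebraMap k K v0) (E.Phi Pi e (g * (g + 1)) c) = (q : ℤ) - 1 := by
      rw [← hq, hoo]; ring
    rw [h4]
    obtain ⟨r, hr⟩ := hqodd
    exact ⟨r, by rw [hr]; push_cast; ring⟩

end EField

end ShghE
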