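import Pool.Agent.ShghE.Content

/-!
# Local arithmetic at `T` and the auxiliary functions `Π`, `e_i`
-/

namespace ShghE

open Polynomial

namespace EField

variable {k K A : Type*} [Field k] [Field K] [Algebra k K] [AddCommGroup A]
variable (E : EField k K A) (n : Twist E)

/-- `v_T (iota x) = v_T x` -/
theorem vT_iota {x : K} (hx : x ≠ 0) : E.v E.T (E.iota x) = E.v E.T x := by
  rw [E.iota_v _ _ hx, neg_eq_of_add_eq_zero_left E.T_two]

theorem pi_ne_zero : E.pi ≠ 0 := E.pi_ne

private theorem symA_iota_ne {x : K} (hx : x ≠ 0) : E.iota x ≠ 0 := by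
  intro h
  apply hx
  rw [← E.iota_iota x, h, map_zero]

/-- On functions of order `i` at `T`, `iota` acts as `(-1)^i` up to higher order:
`x = pi^i u`, `u` a unit with residue `c`, `iota u ≡ c ≡ u`. -/
theorem iota_sign (i : ℕ) {x : K} (hx : x ≠ 0) (h : (i : ℤ) ≤ E.v E.T x)
    (h' : E.iota x - (-1) ^ i * x ≠ 0) :
    (i : ℤ) + 1 ≤ E.v E.T (E.iota x - (-1) ^ i * x) := by
  have hp : E.pi ^ i ≠ 0 := pow_ne_zero _ E.pi_ne_zero
  obtain ⟨y, rfl⟩ : ∃ y, x = E.pi ^ i * y := ⟨(E.pi ^ i)⁻¹ * x, by rw [mul_inv_cancel_left₀ hp]⟩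
  have hy : y ≠ 0 := right_ne_zero_of_mul hx
  have hvp : E.v E.T (E.pi ^ i) = i := by
    rw [(E.ord E.T).pow E.pi_ne_zero, E.pi_v, mul_one]
  have hvy : 0 ≤ E.v E.T y := by
    rw [(E.ord E.T).mul hp hy, hvp] at h
    linarith
  have hrw : E.iota (E.pi ^ i * y) - (-1) ^ i * (E.pi ^ i * y)
      = (-1) ^ i * (E.pi ^ i * (E.iota y - y)) := by
    rw [map_mul, map_pow, E.pi_iota, neg_pow]
    ring
  rw [hrw] at h' ⊢
  have h1 : ((-1 : K)) ^ i ≠ 0 := left_ne_zero_of_mul h'
  have h2 : E.pi ^ i * (E.iota y - y) ≠ 0 := right_ne_zero_of_mul h'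
  have h3 : E.iota y - y ≠ 0 := right_ne_zero_of_mul h2
  have hv1 : E.v E.T ((-1 : K) ^ i) = 0 := by
    rw [(E.ord E.T).pow (neg_ne_zero.mpr one_ne_zero), (E.ord E.T).neg one_ne_zero,
      (E.ord E.T).one, mul_zero]
  rw [(E.ord E.T).mul h1 h2, (E.ord E.T).mul hp h3, hv1, hvp, zero_add]
  obtain ⟨c, hc⟩ := E.res y hy hvy
  have hyc : y - algebraMap k K c ≠ 0 := by
    intro h0
    apply h3
    rw [sub_eq_zero] at h0
    rw [h0, E.iota_const, sub_self]
  have hvyc := hc hyc
  have hrw2 : E.iota y - y = E.iota (y - algebraMap k K c) + (-(y - algebraMap k K c)) := by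
    rw [map_sub, E.iota_const]
    ring
  rw [hrw2] at h3 ⊢
  have h4 := (E.ord E.T).add (E.symA_iota_ne hyc) (neg_ne_zero.mpr hyc) h3
  rw [E.vT_iota hyc, (E.ord E.T).neg hyc, min_self] at h4
  linarith

/-- A function without zeros and poles is constant. -/
private theorem symA_const {u : K} (hu : u ≠ 0) (h : ∀ P, E.v P u = 0) :
    ∃ c : k, c ≠ 0 ∧ u = algebraMap k K c := by
  obtain ⟨c, hc⟩ := E.res u hu (h E.T).ge
  have hc0 : c ≠ 0 := by
    rintro rfl
    have h1 := hc (by rw [map_zero, sub_zero]; exact hu)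
    rw [map_zero, sub_zero, h E.T] at h1
    omega
  refine ⟨c, hc0, ?_⟩
  by_contra hne
  have hne' : u - algebraMap k K c ≠ 0 := sub_ne_zero.mpr hne
  have hcK : algebraMap k K c ≠ 0 := by
    rw [Ne, map_eq_zero]
    exact hc0
  have hnn : ∀ P, 0 ≤ E.v P (u - algebraMap k K c) := by
    intro P
    have h1 : u + (-(algebraMap k K c)) ≠ 0 := by rwa [← sub_eq_add_neg]
    have h2 := (E.ord P).add hu (neg_ne_zero.mpr hcK) h1
    rw [(E.ord P).neg hcK, h P, E.const c hc0 P, min_self, ← sub_eq_add_neg] at h2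
    exact h2
  have hsum := E.deg _ hne'
  have hpos : 0 < ∑ᶠ P, E.v P (u - algebraMap k K c) := by
    refine finsum_pos hnn ⟨E.T, ?_⟩ (E.fin _ hne')
    exact lt_of_lt_of_le zero_lt_one (hc hne')
  omega

/-- The function `Π` with divisor `-(n_P + n_{-P})`; `iota Π = Π` because `iota Π / Π` is a constant `c`
(its divisor is zero, and a function with zero divisor is constant: subtract its residue at `T`) and
`iota Π ≡ Π` at `T`. -/
theorem exists_Pi (h2 : (2 : k) ≠ 0) :
    ∃ Pi : K, Pi ≠ 0 ∧ E.iota Pi = Pi ∧ ∀ P, E.v P Pi = - (n.n P + n.n (-P)) := by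
  have hfin' : (Function.support fun P => n.n (-P)).Finite := by
    have : (Function.support fun P => n.n (-P)) = (Equiv.neg A) ⁻¹' (Function.support n.n) := rfl
    rw [this]
    exact n.fin.preimage (Equiv.neg A).injective.injOn
  have hfin : (Function.support fun P => -(n.n P + n.n (-P))).Finite := by
    refine (n.fin.union hfin').subset ?_
    intro P hP
    rw [Function.mem_support] at hP
    by_contra hcon
    rw [Set.mem_union, not_or, Function.mem_support, Function.mem_support, not_not, not_not] at hcon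
    exact hP (by rw [hcon.1, hcon.2]; rfl)
  have hdeg' : ∑ᶠ P, n.n (-P) = 0 := by
    rw [← n.deg]
    exact finsum_comp_equiv (Equiv.neg A)
  have hdeg : ∑ᶠ P, -(n.n P + n.n (-P)) = 0 := by
    rw [finsum_neg_distrib, finsum_add_distrib n.fin hfin', n.deg, hdeg']
    rfl
  have hfs : (Function.support fun P => n.n P • P).Finite := by
    refine n.fin.subset fun P hP => ?_
    rw [Function.mem_support] at hP ⊢
    intro h0
    exact hP (by rw [h0, zero_smul])
  have hfs' : (Function.support fun P => n.n (-P) • P).Finite := by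
    refine hfin'.subset fun P hP => ?_
    rw [Function.mem_support] at hP ⊢
    intro h0
    exact hP (by rw [h0, zero_smul])
  have hs' : ∑ᶠ P, n.n (-P) • P = - ∑ᶠ P, n.n P • P := by
    rw [← finsum_neg_distrib]
    have : (fun P => n.n (-P) • P) = fun P => (fun Q => -(n.n Q • Q)) ((Equiv.neg A) P) := by
      funext P
      simp
    rw [this]
    exact finsum_comp_equiv (f := fun Q => -(n.n Q • Q)) (Equiv.neg A)
  have hsum : ∑ᶠ P, (-(n.n P + n.n (-P))) • P = 0 := by
    have : (fun P => (-(n.n P + n.n (-P))) • P) = fun P => -(n.n P • P + n.n (-P) • P) := by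
      funext P
      rw [neg_smul, add_smul]
    rw [this, finsum_neg_distrib, finsum_add_distrib hfs hfs', hs', add_neg_cancel, neg_zero]
  obtain ⟨Pi, hPi, hv⟩ := E.ex (fun P => -(n.n P + n.n (-P))) hfin hdeg hsum
  refine ⟨Pi, hPi, ?_, hv⟩
  have hio : E.iota Pi ≠ 0 := E.symA_iota_ne hPi
  have hu : E.iota Pi * Pi⁻¹ ≠ 0 := mul_ne_zero hio (inv_ne_zero hPi)
  obtain ⟨c, hc0, hc⟩ := E.symA_const hu (by
    intro P
    rw [(E.ord P).mul hio (inv_ne_zero hPi), (E.ord P).inv hPi, E.iota_v _ _ hPi, hv, hv, neg_neg]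
    ring)
  have hPic : E.iota Pi = algebraMap k K c * Pi := by
    rw [← hc, inv_mul_cancel_right₀ hPi]
  by_contra hne
  have hne' : E.iota Pi - (-1) ^ 0 * Pi ≠ 0 := by
    rw [pow_zero, one_mul]
    exact sub_ne_zero.mpr hne
  have hvT : E.v E.T Pi = 0 := by
    rw [hv, neg_eq_of_add_eq_zero_left E.T_two, n.nT]
    rfl
  have h1 := E.iota_sign 0 hPi (by rw [hvT]; rfl) hne'
  have hc1 : c - 1 ≠ 0 := by
    intro h0
    apply hne
    rw [hPic, sub_eq_zero.mp h0, map_one, one_mul]
  have h3 : E.iota Pi - (-1) ^ 0 * Pi = algebraMap k K (c - 1) * Pi := by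
    rw [hPic, map_sub, map_one]
    ring
  rw [h3, (E.ord E.T).mul (by rw [Ne, map_eq_zero]; exact hc1) hPi, E.const _ hc1, hvT] at h1
  norm_num at h1

/-- A square root of the value of `Π` at `T`; the order of `Π - v0²` is at least two since
`Π - v0²` is invariant under `iota` (`iota_sign` with `i = 1`, `2 ≠ 0`). -/
theorem exists_v0 [IsAlgClosed k] (h2 : (2 : k) ≠ 0) {Pi : K} (hPi : Pi ≠ 0)
    (hi : E.iota Pi = Pi) (hv : E.v E.T Pi = 0) :
    ∃ v0 : k, v0 ≠ 0 ∧ (Pi - algebraMap k K v0 ^ 2 ≠ 0 →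
      2 ≤ E.v E.T (Pi - algebraMap k K v0 ^ 2)) := by
  obtain ⟨c, hc⟩ := E.res Pi hPi hv.ge
  have hc0 : c ≠ 0 := by
    rintro rfl
    have h1 := hc (by rw [map_zero, sub_zero]; exact hPi)
    rw [map_zero, sub_zero, hv] at h1
    omega
  obtain ⟨z, hz⟩ := IsAlgClosed.exists_pow_nat_eq c (n := 2) (by norm_num)
  have hz0 : z ≠ 0 := by
    rintro rfl
    apply hc0
    rw [← hz]
    norm_num
  refine ⟨z, hz0, ?_⟩
  rw [← map_pow, hz]
  intro hne
  have h1 := hc hne
  have h2K : (2 : K) ≠ 0 := by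
    have : algebraMap k K 2 ≠ 0 := by
      rw [Ne, map_eq_zero]
      exact h2
    rwa [map_ofNat] at this
  have h3 : E.iota (Pi - algebraMap k K c) - (-1) ^ 1 * (Pi - algebraMap k K c)
      = 2 * (Pi - algebraMap k K c) := by
    rw [map_sub, E.iota_const, hi]
    ring
  have h4 := E.iota_sign 1 hne (by exact_mod_cast h1) (by rw [h3]; exact mul_ne_zero h2K hne)
  have h5 : E.v E.T (2 : K) = 0 := by
    have := E.const 2 h2 E.T
    rwa [map_ofNat] at this
  rw [h3, (E.ord E.T).mul h2K hne, h5] at h4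
  push_cast at h4
  linarith

/-- The functions `e_i`, with divisor `-[T] - i n + [T + i s]`. -/
theorem exists_e : ∃ e : ℕ → K, e 0 = 1 ∧ (∀ i, e i ≠ 0) ∧
    ∀ (i : ℕ) (P : A), - E.dT P - (i : ℤ) * n.n P ≤ E.v P (e i) := by
  classical
  have hdT0 : ∀ P, 0 ≤ E.dT P := by
    intro P
    unfold dT
    split_ifs
    · exact zero_le_one
    · exact le_rfl
  have key : ∀ i : ℕ, ∃ x : K, x ≠ 0 ∧ ∀ P, - E.dT P - (i : ℤ) * n.n P ≤ E.v P x := by
    intro i
    let δ : A → A → ℤ := fun Q P => if P = Q then 1 else 0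
    have hδfin : ∀ Q, (Function.support (δ Q)).Finite := by
      intro Q
      refine (Set.finite_singleton Q).subset fun P hP => ?_
      by_contra hcon
      exact hP (if_neg hcon)
    have hδdeg : ∀ Q, ∑ᶠ P, δ Q P = 1 := by
      intro Q
      rw [finsum_eq_single _ Q fun P hP => if_neg hP]
      exact if_pos rfl
    have hδsum : ∀ Q, ∑ᶠ P, δ Q P • P = Q := by
      intro Q
      rw [finsum_eq_single _ Q fun P hP => by rw [show δ Q P = 0 from if_neg hP, zero_smul]]
      rw [show δ Q Q = 1 from if_pos rfl, one_smul]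
    have hsmulfin : ∀ d : A → ℤ, (Function.support d).Finite →
        (Function.support fun P => d P • P).Finite := by
      intro d hd
      refine hd.subset fun P hP => ?_
      intro h0
      exact hP (by simp only [h0, zero_smul])
    have hTfin : (Function.support fun P => - δ E.T P).Finite := by
      refine (hδfin E.T).subset fun P hP => ?_
      intro h0
      exact hP (by simp only [h0, neg_zero])
    have hnfin : (Function.support fun P => -((i : ℤ) * n.n P)).Finite := by
      refine n.fin.subset fun P hP => ?_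
      intro h0
      exact hP (by simp only [h0, mul_zero, neg_zero])
    have h12fin : (Function.support fun P => - δ E.T P + -((i : ℤ) * n.n P)).Finite :=
      (hTfin.union hnfin).subset (Function.support_add _ _)
    let Q0 : A := E.T + i • n.s
    have hfin : (Function.support fun P => (- δ E.T P + -((i : ℤ) * n.n P)) + δ Q0 P).Finite :=
      (h12fin.union (hδfin Q0)).subset (Function.support_add _ _)
    have hdeg : ∑ᶠ P, ((- δ E.T P + -((i : ℤ) * n.n P)) + δ Q0 P) = 0 := by
      rw [finsum_add_distrib h12fin (hδfin Q0), finsum_add_distrib hTfin hnfin,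
        finsum_neg_distrib, finsum_neg_distrib, hδdeg, hδdeg]
      have : ∑ᶠ P, (i : ℤ) * n.n P = 0 := by
        rw [← mul_finsum n.n (i : ℤ), n.deg, mul_zero]
      rw [this]
      norm_num
    have hsum : ∑ᶠ P, ((- δ E.T P + -((i : ℤ) * n.n P)) + δ Q0 P) • P = 0 := by
      have e1 : (fun P => ((- δ E.T P + -((i : ℤ) * n.n P)) + δ Q0 P) • P)
          = fun P => ((- δ E.T P) • P + (-((i : ℤ) * n.n P)) • P) + δ Q0 P • P := by
        funext P
        rw [add_smul, add_smul]
      have e2 : ∑ᶠ P, (- δ E.T P) • P = - E.T := by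
        have : (fun P => (- δ E.T P) • P) = fun P => -(δ E.T P • P) := by
          funext P
          rw [neg_smul]
        rw [this, finsum_neg_distrib, hδsum]
      have e3 : ∑ᶠ P, (-((i : ℤ) * n.n P)) • P = - ((i : ℤ) • n.s) := by
        have : (fun P => (-((i : ℤ) * n.n P)) • P) = fun P => -((i : ℤ) • (n.n P • P)) := by
          funext P
          rw [neg_smul, mul_smul]
        rw [this, finsum_neg_distrib]
        congr 1
        unfold Twist.s
        exact ((smulAddHom ℤ A (i : ℤ)).map_finsum (hsmulfin _ n.fin)).symm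
      rw [e1, finsum_add_distrib ((hsmulfin _ hTfin).union (hsmulfin _ hnfin) |>.subset
          (Function.support_add _ _)) (hsmulfin _ (hδfin Q0)),
        finsum_add_distrib (hsmulfin _ hTfin) (hsmulfin _ hnfin), e2, e3, hδsum]
      change -E.T + -((i : ℤ) • n.s) + (E.T + i • n.s) = 0
      rw [natCast_zsmul]
      abel
    obtain ⟨x, hx, hvx⟩ := E.ex _ hfin hdeg hsum
    refine ⟨x, hx, fun P => ?_⟩
    rw [hvx P]
    have h1 : 0 ≤ δ Q0 P := by
      change 0 ≤ (if P = Q0 then (1 : ℤ) else 0)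
      split_ifs
      · exact zero_le_one
      · exact le_rfl
    have h2 : E.dT P = δ E.T P := by
      unfold dT
      change (if P = E.T then (1 : ℤ) else 0) = (if P = E.T then (1 : ℤ) else 0)
      by_cases h : P = E.T
      · simp only [h, if_true]
      · simp only [h, if_false]
    rw [h2]
    linarith
  choose x hx hvx using key
  refine ⟨fun i => if i = 0 then 1 else x i, if_pos rfl, ?_, ?_⟩
  · intro i
    by_cases hi : i = 0
    · simp [hi]
    · simp only [hi, if_false]
      exact hx i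
  · intro i P
    by_cases hi : i = 0
    · subst hi
      simp only [if_true]
      rw [(E.ord P).one]
      have := hdT0 P
      push_cast
      linarith
    · simp only [hi, if_false]
      exact hvx i P

end EField

end ShghE
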