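import Pool.Agent.ShghE.SymA

/-!
# The filtration at `(T, v0)` and the parity lemma
-/

namespace ShghE

open Polynomial

namespace EField

variable {k K A : Type*} [Field k] [Field K] [Algebra k K] [AddCommGroup A]
variable (E : EField k K A)

/-- `F` has order at least `i` at `(T, v0)` (weights `1, 1`). -/
def FW (v0 : k) (i : ℤ) (F : K[X]) : Prop :=
  ∀ j : ℕ, (taylor (algebraMap k K v0) F).coeff j ≠ 0 →
    i - j ≤ E.v E.T ((taylor (algebraMap k K v0) F).coeff j)

variable {E} {v0 : k}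

/-- elements of order at least `i` at `T` -/
private def VL (E : EField k K A) (i : ℤ) : AddSubgroup K where
  carrier := {x | x ≠ 0 → i ≤ E.v E.T x}
  zero_mem' := fun h => absurd rfl h
  add_mem' := by
    intro x y hx hy hxy
    by_cases h1 : x = 0
    · subst h1
      rw [zero_add] at hxy ⊢
      exact hy hxy
    · by_cases h2 : y = 0
      · subst h2
        rw [add_zero]
        exact hx h1
      · exact le_trans (le_min (hx h1) (hy h2)) ((E.ord E.T).add h1 h2 hxy)
  neg_mem' := by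
    intro x hx hxy
    have h1 : x ≠ 0 := fun h => hxy (by rw [h, neg_zero])
    rw [(E.ord E.T).neg h1]
    exact hx h1

private theorem mem_VL {i : ℤ} {x : K} : x ∈ VL E i ↔ (x ≠ 0 → i ≤ E.v E.T x) := Iff.rfl

private theorem VL_mono {i j : ℤ} (h : j ≤ i) {x : K} (hx : x ∈ VL E i) : x ∈ VL E j :=
  fun h0 => le_trans h (hx h0)

private theorem VL_mul {i j : ℤ} {x y : K} (hx : x ∈ VL E i) (hy : y ∈ VL E j) :
    x * y ∈ VL E (i + j) := by
  intro h
  have h1 : x ≠ 0 := left_ne_zero_of_mul h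
  have h2 : y ≠ 0 := right_ne_zero_of_mul h
  rw [(E.ord E.T).mul h1 h2]
  exact add_le_add (hx h1) (hy h2)

private theorem FW_def {i : ℤ} {F : K[X]} :
    E.FW v0 i F ↔ ∀ j : ℕ, (taylor (algebraMap k K v0) F).coeff j ∈ VL E (i - j) := Iff.rfl

theorem FW_iff {i : ℤ} {F : K[X]} (hF : F ≠ 0) :
    E.FW v0 i F ↔ i ≤ oo (E.v E.T) (algebraMap k K v0) F := by
  have h : taylor (algebraMap k K v0) F ≠ 0 := by
    intro h
    exact hF ((taylor_eq_zero _ F).mp h)
  unfold oo
  rw [le_gv_iff h]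
  constructor
  · intro H j hj
    have := H j hj
    linarith
  · intro H j hj
    have := H j hj
    linarith

theorem FW.zero (i : ℤ) : E.FW v0 i 0 := by
  rw [FW_def]
  intro j
  rw [map_zero, coeff_zero]
  exact (VL E _).zero_mem

theorem FW.add {i : ℤ} {F G : K[X]} (hF : E.FW v0 i F) (hG : E.FW v0 i G) :
    E.FW v0 i (F + G) := by
  rw [FW_def] at *
  intro j
  rw [map_add, coeff_add]
  exact (VL E _).add_mem (hF j) (hG j)

theorem FW.neg {i : ℤ} {F : K[X]} (hF : E.FW v0 i F) : E.FW v0 i (-F) := by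
  rw [FW_def] at *
  intro j
  rw [map_neg, coeff_neg]
  exact (VL E _).neg_mem (hF j)

theorem FW.sum {i : ℤ} {ι : Type*} (s : Finset ι) (f : ι → K[X])
    (h : ∀ a ∈ s, E.FW v0 i (f a)) : E.FW v0 i (∑ a ∈ s, f a) := by
  classical
  induction s using Finset.induction_on with
  | empty => rw [Finset.sum_empty]; exact FW.zero i
  | insert a s ha ih =>
    rw [Finset.sum_insert ha]
    exact (h a (Finset.mem_insert_self _ _)).add
      (ih fun b hb => h b (Finset.mem_insert_of_mem hb))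

theorem FW.mono {i j : ℤ} {F : K[X]} (hF : E.FW v0 i F) (h : j ≤ i) : E.FW v0 j F := by
  rw [FW_def] at *
  intro l
  exact VL_mono (by linarith) (hF l)

theorem FW.mul {i j : ℤ} {F G : K[X]} (hF : E.FW v0 i F) (hG : E.FW v0 j G) :
    E.FW v0 (i + j) (F * G) := by
  rw [FW_def] at *
  intro l
  rw [taylor_mul, coeff_mul]
  refine (VL E _).sum_mem ?_
  intro p hp
  have hp' : p.1 + p.2 = l := Finset.HasAntidiagonal.mem_antidiagonal.mp hp
  have h1 := VL_mul (hF p.1) (hG p.2)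
  have h2 : i - (p.1 : ℤ) + (j - (p.2 : ℤ)) = i + j - (l : ℤ) := by
    rw [← hp']; push_cast; ring
  rw [h2] at h1
  exact h1

theorem FW.const {i : ℤ} {x : K} (h : x ≠ 0 → i ≤ E.v E.T x) : E.FW v0 i (C x) := by
  rw [FW_def]
  intro l
  rw [taylor_C, coeff_C]
  split_ifs with hl
  · subst hl
    rw [mem_VL]
    intro hx
    have := h hx
    push_cast
    linarith
  · exact (VL E _).zero_mem

theorem FW.X_sub : E.FW v0 1 (X - C (algebraMap k K v0)) := by
  rw [FW_def]
  intro l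
  rw [map_sub, taylor_X, taylor_C, add_sub_cancel_right, coeff_X]
  split_ifs with hl
  · subst hl
    rw [mem_VL]
    intro _
    rw [(E.ord E.T).one]
    push_cast
  · exact (VL E _).zero_mem

variable (E)

/-- `ρ(F) = X^{2h} (iota F)(Π / X) / Π^h`. -/
noncomputable def rho (Pi : K) (h : ℕ) (F : K[X]) : K[X] :=
  C ((Pi ^ h)⁻¹) * reflect (2 * h) ((F.map E.iota).comp (C Pi * X))

theorem rho_add (Pi : K) (h : ℕ) (F G : K[X]) :
    E.rho Pi h (F + G) = E.rho Pi h F + E.rho Pi h G := by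
  unfold rho
  rw [Polynomial.map_add, add_comp, reflect_add, mul_add]

theorem rho_C_mul (Pi : K) (h : ℕ) (x : K) (F : K[X]) :
    E.rho Pi h (C x * F) = C (E.iota x) * E.rho Pi h F := by
  unfold rho
  rw [Polynomial.map_mul, map_C, mul_comp, C_comp, reflect_C_mul]
  ring

theorem rho_X_pow {Pi : K} (hPi : Pi ≠ 0) (h : ℕ) (j : ℕ) (hj : j ≤ 2 * h) :
    E.rho Pi h (X ^ j) = C (Pi ^ ((j : ℤ) - h)) * X ^ (2 * h - j) := by
  unfold rho
  rw [Polynomial.map_pow, map_X, X_pow_comp, mul_pow, ← C_pow, reflect_C_mul_X_pow, revAt_le hj,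
    ← mul_assoc, ← C_mul, zpow_sub₀ hPi, zpow_natCast, zpow_natCast]
  congr 2
  rw [div_eq_mul_inv, mul_comm]

/-- congruence of leading forms -/
private def Cg (v0 : k) (i : ℤ) (F F' : K[X]) : Prop :=
  E.FW v0 i F ∧ E.FW v0 i F' ∧ E.FW v0 (i + 1) (F - F')

variable {E}

private theorem Cg.refl {i : ℤ} {F : K[X]} (h : E.FW v0 i F) : Cg E v0 i F F := by
  refine ⟨h, h, ?_⟩
  rw [sub_self]
  exact FW.zero _

private theorem Cg.mul {i j : ℤ} {F F' G G' : K[X]} (hF : Cg E v0 i F F') (hG : Cg E v0 j G G') :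
    Cg E v0 (i + j) (F * G) (F' * G') := by
  obtain ⟨h1, h2, h3⟩ := hF
  obtain ⟨g1, g2, g3⟩ := hG
  refine ⟨h1.mul g1, h2.mul g2, ?_⟩
  have e : F * G - F' * G' = F * (G - G') + (F - F') * G' := by ring
  rw [e]
  refine FW.add ((h1.mul g3).mono (by linarith)) ((h3.mul g2).mono (by linarith))

private theorem Cg.pow {F F' : K[X]} {i : ℤ} (hF : Cg E v0 i F F') (n : ℕ) :
    Cg E v0 (n * i) (F ^ n) (F' ^ n) := by
  induction n with
  | zero =>
    rw [pow_zero, pow_zero]
    refine Cg.refl ?_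
    rw [← C_1]
    refine FW.const ?_
    intro _
    rw [(E.ord E.T).one]
    push_cast
    linarith
  | succ n ih =>
    rw [pow_succ, pow_succ]
    have h := ih.mul hF
    have e : ((n : ℤ) * i + i) = ((n + 1 : ℕ) : ℤ) * i := by push_cast; ring
    rw [e] at h
    exact h

private theorem FW_one_const {x : K} (h : x ∈ VL E 0) : E.FW v0 0 (C x) :=
  FW.const h

private theorem algMem (c : k) : algebraMap k K c ∈ VL E 0 := by
  intro h
  have hc : c ≠ 0 := by
    intro h0
    exact h (by rw [h0, map_zero])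
  rw [E.const c hc]

variable (E)

private theorem rho_U_pow (Pi : K) (h j : ℕ) (hj : j ≤ 2 * h) :
    E.rho Pi h ((X - C (algebraMap k K v0)) ^ j) =
      C ((Pi ^ h)⁻¹) * ((C Pi - C (algebraMap k K v0) * X) ^ j * X ^ (2 * h - j)) := by
  unfold rho
  congr 1
  rw [Polynomial.map_pow, Polynomial.map_sub, map_X, map_C, E.iota_const, pow_comp, sub_comp,
    X_comp, C_comp]
  have hd : ∀ n : ℕ, ((C Pi * X - C (algebraMap k K v0)) ^ n).natDegree ≤ n := by
    intro n
    refine natDegree_pow_le_of_le n ?_ |>.trans (by rw [mul_one])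
    refine (natDegree_sub_le _ _).trans (max_le ?_ ?_)
    · exact (natDegree_C_mul_le _ _).trans natDegree_X_le
    · rw [natDegree_C]; exact Nat.zero_le _
  have h0 : reflect 1 (C Pi * X - C (algebraMap k K v0)) =
      C Pi - C (algebraMap k K v0) * X := by
    rw [reflect_sub, reflect_C_mul, reflect_one_X, mul_one, reflect_C, pow_one]
  have h1 : ∀ n : ℕ, reflect n ((C Pi * X - C (algebraMap k K v0)) ^ n) =
      (C Pi - C (algebraMap k K v0) * X) ^ n := by
    intro n
    induction n with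
    | zero =>
      rw [pow_zero, pow_zero, ← C_1, reflect_C, pow_zero, mul_one]
    | succ n ih =>
      have hd1 := hd 1
      rw [pow_one] at hd1
      rw [pow_succ, pow_succ, reflect_mul _ _ (hd n) hd1, ih, h0]
  have hX : reflect (2 * h - j) (1 : K[X]) = X ^ (2 * h - j) := by
    rw [← C_1, reflect_C, C_1, one_mul]
  have e1 : 2 * h = j + (2 * h - j) := by omega
  have h2 := reflect_mul ((C Pi * X - C (algebraMap k K v0)) ^ j) (1 : K[X]) (hd j)
    (F := j) (G := 2 * h - j) (by rw [natDegree_one]; exact Nat.zero_le _)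
  rw [mul_one, ← e1, h1, hX] at h2
  exact h2

private theorem taylor_int (F : K[X])
    (hint : ∀ j, F.coeff j ≠ 0 → 0 ≤ E.v E.T (F.coeff j)) (j : ℕ) :
    (taylor (algebraMap k K v0) F).coeff j ∈ VL E 0 := by
  intro hj
  have hF : F ≠ 0 := by
    intro h
    rw [h, map_zero, coeff_zero] at hj
    exact hj rfl
  have h1 : 0 ≤ gv (E.v E.T) 0 F := by
    rw [le_gv_iff hF]
    intro l hl
    have := hint l hl
    linarith
  have hc : algebraMap k K v0 ≠ 0 → 0 ≤ E.v E.T (algebraMap k K v0) := algMem v0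
  rw [← gv_taylor (E.ord E.T) hc hF] at h1
  have h2 := gv_le (v := E.v E.T) (n := 0) hj
  linarith

private theorem rho_zero (Pi : K) (h : ℕ) : E.rho Pi h 0 = 0 := by
  unfold rho
  rw [Polynomial.map_zero, zero_comp, reflect_zero, mul_zero]

private theorem rho_sum (Pi : K) (h : ℕ) {ι : Type*} (s : Finset ι) (f : ι → K[X]) :
    E.rho Pi h (∑ a ∈ s, f a) = ∑ a ∈ s, E.rho Pi h (f a) := by
  classical
  induction s using Finset.induction_on with
  | empty => rw [Finset.sum_empty, Finset.sum_empty, rho_zero]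
  | insert a s ha ih => rw [Finset.sum_insert ha, Finset.sum_insert ha, rho_add, ih]

private theorem parity_term {Pi : K} (hPi : Pi ≠ 0) (hv0 : v0 ≠ 0) (hPi0 : E.v E.T Pi = 0)
    (hPi2 : Pi - algebraMap k K v0 ^ 2 ≠ 0 → 2 ≤ E.v E.T (Pi - algebraMap k K v0 ^ 2))
    (h : ℕ) (i : ℕ) (j : ℕ) (hj : j ≤ 2 * h) (f : K) (hf0 : f ∈ VL E 0)
    (hfi : f ∈ VL E ((i : ℤ) - j)) :
    E.FW v0 (i + 1) (E.rho Pi h (C f * (X - C (algebraMap k K v0)) ^ j) -
      (-1) ^ i * (C f * (X - C (algebraMap k K v0)) ^ j)) := by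
  set c : K := algebraMap k K v0 with hc
  set U : K[X] := X - C c with hU
  have hc0 : c ≠ 0 := by
    rw [hc]
    intro h0
    exact hv0 ((map_eq_zero _).mp h0)
  have hcv : E.v E.T c = 0 := E.const v0 hv0 E.T
  rw [rho_C_mul, hU, hc, rho_U_pow E Pi h j hj, ← hc, ← hU]
  have hUm : E.FW v0 1 U := FW.X_sub
  have hcm : c ∈ VL E 0 := algMem v0
  -- `t = max (i - j) 0`
  set t : ℕ := i - j with ht
  have hft : f ∈ VL E t := by
    intro h0
    have h1 := hf0 h0
    have h2 := hfi h0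
    have h3 : (t : ℤ) = max ((i : ℤ) - j) 0 := by rw [ht]; omega
    rw [h3]
    exact max_le h2 h1
  have hif : E.iota f ∈ VL E t := by
    intro h0
    have h1 : f ≠ 0 := fun h => h0 (by rw [h, map_zero])
    rw [vT_iota E h1]
    exact hft h1
  have h1t : ((-1 : K) ^ t) ∈ VL E 0 := by
    intro _
    have hn : (-1 : K) ≠ 0 := neg_ne_zero.mpr one_ne_zero
    rw [(E.ord E.T).pow hn, (E.ord E.T).neg one_ne_zero, (E.ord E.T).one, mul_zero]
  have hft' : (-1) ^ t * f ∈ VL E t := by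
    have := VL_mul h1t hft
    rwa [zero_add] at this
  -- first factor
  have c1 : Cg E v0 t (C (E.iota f)) (C ((-1) ^ t * f)) := by
    refine ⟨FW.const hif, FW.const hft', ?_⟩
    rw [← C_sub]
    refine FW.const ?_
    intro h0
    have h1 : f ≠ 0 := fun h => h0 (by rw [h, map_zero, mul_zero, sub_zero])
    exact iota_sign E t h1 (hft h1) h0
  -- second factor
  have hPim : Pi ∈ VL E 0 := fun _ => le_of_eq hPi0.symm
  have hinv : ∀ x : K, x ≠ 0 → E.v E.T x = 0 → x⁻¹ ∈ VL E 0 := by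
    intro x hx hv _
    rw [(E.ord E.T).inv hx, hv, neg_zero]
  have c2a : Cg E v0 0 (C Pi⁻¹) (C (c ^ 2)⁻¹) := by
    have hc2 : c ^ 2 ≠ 0 := pow_ne_zero 2 hc0
    have hv2 : E.v E.T (c ^ 2) = 0 := by rw [(E.ord E.T).pow hc0, hcv, mul_zero]
    refine ⟨FW.const (hinv Pi hPi hPi0), FW.const (hinv _ hc2 hv2), ?_⟩
    rw [← C_sub]
    have e : Pi⁻¹ - (c ^ 2)⁻¹ = (-Pi⁻¹ * (c ^ 2)⁻¹) * (Pi - c ^ 2) := by
      field_simp
      ring
    rw [e]
    have h3 : -Pi⁻¹ * (c ^ 2)⁻¹ ∈ VL E (0 + 0) :=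
      VL_mul ((VL E 0).neg_mem (hinv Pi hPi hPi0)) (hinv _ hc2 hv2)
    have h4 := VL_mul h3 (show Pi - c ^ 2 ∈ VL E 2 from hPi2)
    exact FW.const (VL_mono (by norm_num) h4)
  have c2 := c2a.pow h
  rw [mul_zero, ← C_pow, ← C_pow, inv_pow, inv_pow] at c2
  -- third factor
  have c3a : Cg E v0 1 (C Pi - C c * X) (C (-c) * U) := by
    have hm : E.FW v0 1 (C (-c) * U) := by
      have := (FW.const (v0 := v0) (i := 0) ((VL E 0).neg_mem hcm)).mul hUm
      rwa [zero_add] at this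
    have hd : E.FW v0 2 (C Pi - C c * X - C (-c) * U) := by
      have e : C Pi - C c * X - C (-c) * U = C (Pi - c ^ 2) := by
        rw [hU, C_sub, C_pow, C_neg]
        ring
      rw [e]
      exact FW.const hPi2
    refine ⟨?_, hm, hd⟩
    have e : C Pi - C c * X = (C Pi - C c * X - C (-c) * U) + C (-c) * U := by ring
    rw [e]
    exact (hd.mono (by norm_num)).add hm
  have c3 := c3a.pow j
  rw [mul_one] at c3
  -- fourth factor
  have c4a : Cg E v0 0 X (C c) := by
    have hcc : E.FW v0 0 (C c) := FW.const hcm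
    refine ⟨?_, hcc, hUm⟩
    have e : (X : K[X]) = U + C c := by rw [hU]; ring
    rw [e]
    exact (hUm.mono (by norm_num)).add hcc
  have c4 := c4a.pow (2 * h - j)
  rw [mul_zero] at c4
  have hall := (c1.mul (c2.mul (c3.mul c4))).2.2
  have e1 : C ((-1) ^ t * f) * (C ((c ^ 2) ^ h)⁻¹ * ((C (-c) * U) ^ j * C c ^ (2 * h - j))) =
      (-1) ^ (t + j) * (C f * U ^ j) := by
    have e2 : (C ((c ^ 2) ^ h)⁻¹ : K[X]) * (C c ^ j * C c ^ (2 * h - j)) = 1 := by
      rw [← pow_add, ← C_pow, ← C_mul, ← pow_mul]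
      have : j + (2 * h - j) = 2 * h := by omega
      rw [this, inv_mul_cancel₀ (pow_ne_zero _ hc0), C_1]
    have e3 : (C ((-1 : K) ^ t * f) : K[X]) = (-1) ^ t * C f := by
      rw [C_mul, C_pow, C_neg, C_1]
    rw [e3, mul_pow, C_neg, neg_pow (C c) j, pow_add]
    calc (-1) ^ t * C f * (C ((c ^ 2) ^ h)⁻¹ * ((-1) ^ j * C c ^ j * U ^ j * C c ^ (2 * h - j)))
        = (-1) ^ t * (-1) ^ j * (C f * U ^ j) *
            (C ((c ^ 2) ^ h)⁻¹ * (C c ^ j * C c ^ (2 * h - j))) := by ring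
      _ = _ := by rw [e2, mul_one]
  rw [e1] at hall
  by_cases hij : j ≤ i
  · have h5 : t + j = i := by omega
    rw [h5] at hall
    refine hall.mono ?_
    push_cast [← h5]
    linarith
  · have h5 : t = 0 := by omega
    rw [h5] at hall
    have hj1 : (i : ℤ) + 1 ≤ j := by omega
    have g1 : E.FW v0 (i + 1) (C (E.iota f) * (C (Pi ^ h)⁻¹ *
        ((C Pi - C c * X) ^ j * X ^ (2 * h - j)))) := by
      refine (c1.mul (c2.mul (c3.mul c4))).1.mono ?_
      rw [h5]
      push_cast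
      linarith
    have g2 : E.FW v0 (i + 1) ((-1) ^ i * (C f * U ^ j)) := by
      have g3 : E.FW v0 0 ((-1 : K[X]) ^ i) := by
        have : ((-1 : K[X]) ^ i) = C ((-1) ^ i) := by rw [C_pow, C_neg, C_1]
        rw [this]
        refine FW.const ?_
        intro _
        have hn : (-1 : K) ≠ 0 := neg_ne_zero.mpr one_ne_zero
        rw [(E.ord E.T).pow hn, (E.ord E.T).neg one_ne_zero, (E.ord E.T).one, mul_zero]
      have g4 : E.FW v0 (j * 1) (U ^ j) := ((Cg.refl hUm).pow j).1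
      refine (g3.mul ((FW.const hf0).mul g4)).mono ?_
      push_cast
      linarith
    rw [sub_eq_add_neg]
    exact g1.add g2.neg

/-- Parity lemma. Write `F = Σ_{j ≤ 2h} f_j U^j`, `U = X - v0`. Then
`ρ (C f_j * U^j) = C (iota f_j / Π^h) * (C Π - C v0 * X)^j * X^(2h - j)` (`reflect_mul`), and
`C Π - C v0 X = - v0 U + C (Π - v0²)`. If `v_T f_j ≥ i - j` and `v_T f_j ≥ 0` for all `j`, each term is
congruent to `(-1)^i f_j U^j` modulo `FW (i+1)`. -/
theorem parity {Pi : K} (hPi : Pi ≠ 0) (hv0 : v0 ≠ 0) (hPi0 : E.v E.T Pi = 0)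
    (hPi2 : Pi - algebraMap k K v0 ^ 2 ≠ 0 → 2 ≤ E.v E.T (Pi - algebraMap k K v0 ^ 2))
    (h : ℕ) (F : K[X]) (hdeg : F.natDegree ≤ 2 * h)
    (hint : ∀ j, F.coeff j ≠ 0 → 0 ≤ E.v E.T (F.coeff j)) (i : ℕ) (hF : E.FW v0 i F) :
    E.FW v0 (i + 1) (E.rho Pi h F - (-1) ^ i * F) := by
  have h1 : F = ∑ j ∈ Finset.range (2 * h + 1),
      C ((taylor (algebraMap k K v0) F).coeff j) * (X - C (algebraMap k K v0)) ^ j := by
    conv_lhs => rw [← sum_taylor_eq F (algebraMap k K v0)]
    rw [sum_over_range' _ _ (2 * h + 1)]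
    · rw [natDegree_taylor]
      omega
    · intro n
      rw [C_0, zero_mul]
  have h2 : E.rho Pi h F - (-1) ^ i * F = ∑ j ∈ Finset.range (2 * h + 1),
      (E.rho Pi h (C ((taylor (algebraMap k K v0) F).coeff j) *
        (X - C (algebraMap k K v0)) ^ j) -
      (-1) ^ i * (C ((taylor (algebraMap k K v0) F).coeff j) *
        (X - C (algebraMap k K v0)) ^ j)) := by
    rw [Finset.sum_sub_distrib, ← Finset.mul_sum, ← rho_sum, ← h1]
  rw [h2]
  refine FW.sum _ _ ?_
  intro j hj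
  have hj' : j ≤ 2 * h := by
    have := Finset.mem_range.mp hj
    omega
  exact parity_term E hPi hv0 hPi0 hPi2 h i j hj' _ (taylor_int E F hint j) (hF j)

end EField

end ShghE
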